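import Mathlib
import Pool.Agent.Lib.Sieve.Averages

/-!
# Mertens-type upper bounds
-/

namespace Pool.Agent.Lib.Helper57

open Finset Pool.Agent.Lib.Sieve

/-- Partial sums of `log p / p`. -/
noncomputable def SL (n : ℕ) : ℝ := ∑ p ∈ primesUpTo n, Real.log p / p

lemma primesUpTo_succ (n : ℕ) :
    primesUpTo (n + 1) = if (n + 1).Prime then insert (n + 1) (primesUpTo n) else primesUpTo n := by
  unfold primesUpTo
  rw [Finset.range_add_one, Finset.filter_insert]

lemma sum_primesUpTo_succ (n : ℕ) (f : ℕ → ℝ) :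
    ∑ p ∈ primesUpTo (n + 1), f p =
      ∑ p ∈ primesUpTo n, f p + if (n + 1).Prime then f (n + 1) else 0 := by
  rw [primesUpTo_succ]
  split_ifs with h
  · rw [Finset.sum_insert, add_comm]
    rw [mem_primesUpTo]; omega
  · simp

lemma primesUpTo_one : primesUpTo 1 = ∅ := by
  ext p; rw [mem_primesUpTo]; constructor
  · rintro ⟨h1, h2⟩; have := h1.two_le; omega
  · intro h; simp at h

/-- Abel summation. -/
lemma sum_inv_eq (n : ℕ) (hn : 2 ≤ n) :
    ∑ p ∈ primesUpTo n, (1 : ℝ) / p = SL n / Real.log n +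
      ∑ m ∈ Finset.Ico 2 n, SL m * (1 / Real.log m - 1 / Real.log (m + 1 : ℕ)) := by
  induction n, hn using Nat.le_induction with
  | base =>
    have h1 := sum_primesUpTo_succ 1 (fun p => (1 : ℝ) / p)
    have h2 := sum_primesUpTo_succ 1 (fun p => Real.log p / p)
    rw [primesUpTo_one] at h1 h2
    norm_num at h1 h2
    unfold SL
    rw [h2]
    have h3 : Real.log 2 ≠ 0 := (Real.log_pos (by norm_num)).ne'
    simp only [Finset.Ico_self, Finset.sum_empty, add_zero]
    simp only [one_div]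
    rw [h1]
    push_cast
    field_simp
  | succ n hn ih =>
    rw [sum_primesUpTo_succ, Finset.sum_Ico_succ_top hn, ih]
    have h2 : SL (n + 1) = SL n + if (n + 1).Prime then Real.log (n + 1 : ℕ) / (n + 1 : ℕ) else 0 := by
      unfold SL
      rw [sum_primesUpTo_succ n (fun p => Real.log p / p)]
    rw [h2]
    have h3 : Real.log (n + 1 : ℕ) ≠ 0 := by
      apply (Real.log_pos _).ne'
      have : (2 : ℝ) ≤ n := by exact_mod_cast hn
      push_cast; linarith
    have h4 : Real.log (n : ℕ) ≠ 0 := by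
      apply (Real.log_pos _).ne'
      have : (2 : ℝ) ≤ n := by exact_mod_cast hn
      linarith
    split_ifs with hp
    · field_simp
      ring
    · field_simp
      ring

/-- `∑_{p ≤ n} 1/p ≤ log log n + 4`. -/
lemma sum_inv_primes_le (n : ℕ) (hn : 2 ≤ n) :
    ∑ p ∈ primesUpTo n, (1 : ℝ) / p ≤ Real.log (Real.log n) + 4 := by
  rw [sum_inv_eq n hn]
  have hn' : (2 : ℝ) ≤ n := by exact_mod_cast hn
  have hlog2 : 0 < Real.log 2 := Real.log_pos (by norm_num)
  have hlogn : 0 < Real.log n := Real.log_pos (by linarith)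
  have h0 : SL n / Real.log n ≤ 1 + Real.log 4 / Real.log n := by
    rw [div_le_iff₀ hlogn]
    have := sum_log_div_le n (by omega)
    unfold SL
    field_simp
    linarith
  have h1 : ∀ m ∈ Finset.Ico 2 n, SL m * (1 / Real.log m - 1 / Real.log (m + 1 : ℕ)) ≤
      (Real.log (Real.log (m + 1 : ℕ)) - Real.log (Real.log m)) +
        Real.log 4 * (1 / Real.log m - 1 / Real.log (m + 1 : ℕ)) := by
    intro m hm
    rw [Finset.mem_Ico] at hm
    have hm' : (2 : ℝ) ≤ m := by exact_mod_cast hm.1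
    have hlm : 0 < Real.log m := Real.log_pos (by linarith)
    have hlm1 : Real.log m < Real.log (m + 1 : ℕ) := by
      apply Real.log_lt_log (by linarith)
      push_cast; linarith
    have hlm2 : 0 < Real.log (m + 1 : ℕ) := hlm.trans hlm1
    have h2 : 0 ≤ 1 / Real.log m - 1 / Real.log (m + 1 : ℕ) := by
      rw [sub_nonneg]
      exact one_div_le_one_div_of_le hlm hlm1.le
    have h3 : SL m ≤ Real.log m + Real.log 4 := sum_log_div_le m (by omega)
    calc SL m * (1 / Real.log m - 1 / Real.log (m + 1 : ℕ))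
        ≤ (Real.log m + Real.log 4) * (1 / Real.log m - 1 / Real.log (m + 1 : ℕ)) :=
          mul_le_mul_of_nonneg_right h3 h2
      _ = (1 - Real.log m / Real.log (m + 1 : ℕ)) +
          Real.log 4 * (1 / Real.log m - 1 / Real.log (m + 1 : ℕ)) := by
          field_simp
      _ ≤ _ := by
          have h5 := Real.one_sub_inv_le_log_of_pos (x := Real.log (m + 1 : ℕ) / Real.log m)
            (by positivity)
          rw [Real.log_div hlm2.ne' hlm.ne', inv_div] at h5
          linarith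
  have h2 := Finset.sum_le_sum h1
  rw [Finset.sum_add_distrib, ← Finset.mul_sum] at h2
  have h3 : ∀ f : ℕ → ℝ, ∑ m ∈ Finset.Ico 2 n, (f (m + 1) - f m) = f n - f 2 := by
    intro f
    exact Finset.sum_Ico_sub f hn
  have h4 := h3 (fun m => Real.log (Real.log m))
  have h5 := h3 (fun m => -(1 / Real.log m))
  have h6 : ∑ m ∈ Finset.Ico 2 n, (1 / Real.log m - 1 / Real.log (m + 1 : ℕ)) =
      1 / Real.log 2 - 1 / Real.log n := by
    rw [← sub_eq_zero]
    have : ∑ m ∈ Finset.Ico 2 n, (1 / Real.log m - 1 / Real.log (m + 1 : ℕ)) =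
      ∑ m ∈ Finset.Ico 2 n, (-(1 / Real.log (m + 1 : ℕ)) - -(1 / Real.log m)) := by
      apply Finset.sum_congr rfl
      intro m _
      ring
    rw [this, h5]
    push_cast
    ring
  rw [h4, h6] at h2
  have h7 : Real.log 4 = 2 * Real.log 2 := by
    rw [show (4 : ℝ) = 2 ^ 2 by norm_num, Real.log_pow]; push_cast; ring
  have h8 : Real.log 4 * (1 / Real.log 2 - 1 / Real.log n) = 2 - Real.log 4 / Real.log n := by
    rw [h7]; field_simp
  rw [h8] at h2
  -- `- log log 2 ≤ 1/2`
  have h9 : -(1 : ℝ) ≤ Real.log (Real.log 2) := by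
    rw [Real.le_log_iff_exp_le hlog2]
    have h10 := Real.exp_neg_one_lt_d9
    have h11 := Real.log_two_gt_d9
    linarith
  push_cast at h2 ⊢
  have h2' : ∑ m ∈ Finset.Ico 2 n, SL m * (1 / Real.log m - 1 / Real.log (m + 1)) ≤
      (Real.log (Real.log n) - Real.log (Real.log 2)) + (2 - Real.log 4 / Real.log n) := h2
  linarith

lemma neg_log_one_sub_le {t : ℝ} (h0 : 0 ≤ t) (h1 : t ≤ 1 / 2) :
    -Real.log (1 - t) ≤ t + 2 * t ^ 2 := by
  have _ := h0
  have h2 : 0 < 1 - t := by linarith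
  rw [← Real.log_inv]
  have h3 := Real.log_le_sub_one_of_pos (inv_pos.mpr h2)
  refine h3.trans ?_
  rw [show (1 - t)⁻¹ - 1 = t / (1 - t) by field_simp; ring]
  rw [div_le_iff₀ h2]
  nlinarith [mul_nonneg h0 h0, mul_nonneg (mul_nonneg h0 h0) h0]

lemma sum_inv_sq_primes_le (S : Finset ℕ) (m : ℕ) (hm : 1 ≤ m) (hS : ∀ p ∈ S, m < p) :
    ∑ p ∈ S, (1 : ℝ) / (p : ℝ) ^ 2 ≤ 1 / m := by
  obtain ⟨N, hN⟩ : ∃ N, ∀ p ∈ S, p ≤ N := ⟨S.sup id, fun p hp => Finset.le_sup (f := id) hp⟩
  have h1 : ∀ n : ℕ, m ≤ n → ∑ p ∈ Finset.Ioc m n, (1 : ℝ) / (p : ℝ) ^ 2 ≤ 1 / m - 1 / n := by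
    intro n hn
    induction n, hn using Nat.le_induction with
    | base => simp
    | succ n hn ih =>
      rw [← Finset.insert_Ioc_right_eq_Ioc_add_one (by omega), Finset.sum_insert (by simp)]
      have hn' : (0 : ℝ) < n := by
        have : 1 ≤ n := hm.trans hn
        exact_mod_cast this
      have h3 : (1 : ℝ) / ((n + 1 : ℕ) : ℝ) ^ 2 ≤ 1 / n - 1 / (n + 1 : ℕ) := by
        push_cast
        rw [div_sub_div _ _ hn'.ne' (by positivity), div_le_div_iff₀ (by positivity) (by positivity)]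
        nlinarith
      linarith
  rcases le_or_gt m N with h | h
  · calc ∑ p ∈ S, (1 : ℝ) / (p : ℝ) ^ 2 ≤ ∑ p ∈ Finset.Ioc m N, (1 : ℝ) / (p : ℝ) ^ 2 := by
          apply Finset.sum_le_sum_of_subset_of_nonneg
          · intro p hp
            rw [Finset.mem_Ioc]
            exact ⟨hS p hp, hN p hp⟩
          · intro p _ _
            positivity
      _ ≤ 1 / m - 1 / N := h1 N h
      _ ≤ 1 / m := by
          have : (0 : ℝ) ≤ 1 / N := by positivity
          linarith
  · have : S = ∅ := by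
      rw [Finset.eq_empty_iff_forall_notMem]
      intro p hp
      have := hS p hp
      have := hN p hp
      omega
    rw [this]
    simp

/-- `∏_{p ≤ n} (1 - 1/p)⁻¹ ≤ 500 log n`. -/
lemma prod_one_sub_inv_inv_le (n : ℕ) (hn : 2 ≤ n) :
    ∏ p ∈ primesUpTo n, (1 - 1 / (p : ℝ))⁻¹ ≤ 500 * Real.log n := by
  have hn' : (2 : ℝ) ≤ n := by exact_mod_cast hn
  have hlogn : 0 < Real.log n := Real.log_pos (by linarith)
  have h1 : ∀ p ∈ primesUpTo n, (1 - 1 / (p : ℝ))⁻¹ ≤
      Real.exp (1 / p + 2 * (1 / (p : ℝ) ^ 2)) := by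
    intro p hp
    have hp2 : (2 : ℝ) ≤ p := by exact_mod_cast (mem_primesUpTo.mp hp).1.two_le
    have h2 : (1 : ℝ) / p ≤ 1 / 2 := one_div_le_one_div_of_le (by norm_num) hp2
    have h3 := neg_log_one_sub_le (t := 1 / (p : ℝ)) (by positivity) h2
    have h4 : 0 < 1 - 1 / (p : ℝ) := by linarith
    rw [← Real.log_le_iff_le_exp (inv_pos.mpr h4), Real.log_inv]
    calc _ ≤ _ := h3
      _ = _ := by ring
  calc ∏ p ∈ primesUpTo n, (1 - 1 / (p : ℝ))⁻¹
      ≤ ∏ p ∈ primesUpTo n, Real.exp (1 / p + 2 * (1 / (p : ℝ) ^ 2)) := by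
        apply Finset.prod_le_prod
        · intro p hp
          have hp2 : (2 : ℝ) ≤ p := by exact_mod_cast (mem_primesUpTo.mp hp).1.two_le
          have h2 : (1 : ℝ) / p ≤ 1 / 2 := one_div_le_one_div_of_le (by norm_num) hp2
          have h4 : 0 < 1 - 1 / (p : ℝ) := by linarith
          exact (inv_pos.mpr h4).le
        · exact h1
    _ = Real.exp (∑ p ∈ primesUpTo n, (1 : ℝ) / p + 2 * ∑ p ∈ primesUpTo n, 1 / (p : ℝ) ^ 2) := by
        rw [← Real.exp_sum, Finset.sum_add_distrib, ← Finset.mul_sum]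
    _ ≤ Real.exp (Real.log (Real.log n) + 6) := by
        apply Real.exp_le_exp.mpr
        have h5 := sum_inv_primes_le n hn
        have h6 := sum_inv_sq_primes_le (primesUpTo n) 1 le_rfl
          (fun p hp => (mem_primesUpTo.mp hp).1.one_lt)
        norm_num at h6 ⊢
        norm_num at h5
        linarith
    _ = Real.exp 6 * Real.log n := by
        rw [Real.exp_add, Real.exp_log hlogn]; ring
    _ ≤ 500 * Real.log n := by
        apply mul_le_mul_of_nonneg_right _ hlogn.le
        have h7 : Real.exp 1 ≤ 2.7183 := by linarith [Real.exp_one_lt_d9]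
        have h8 : Real.exp 6 = Real.exp 1 ^ 6 := by rw [← Real.exp_nat_mul]; norm_num
        rw [h8]
        calc Real.exp 1 ^ 6 ≤ 2.7183 ^ 6 := pow_le_pow_left₀ (Real.exp_pos 1).le h7 6
          _ ≤ 500 := by norm_num

end Pool.Agent.Lib.Helper57
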