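import Mathlib

/-!
Counting integers in an initial segment subject to congruence conditions modulo distinct primes.
-/

open Finset

namespace Pool.Agent.Lib.Helper57

/-- Counting function of a predicate. -/
noncomputable def cnt (P : ℕ → Prop) (M : ℕ) : ℕ := by
  classical exact ((range M).filter P).card

lemma cnt_eq (P : ℕ → Prop) [DecidablePred P] (M : ℕ) : cnt P M = ((range M).filter P).card := by
  unfold cnt; congr

lemma cnt_mono (P : ℕ → Prop) {M M' : ℕ} (h : M ≤ M') : cnt P M ≤ cnt P M' := by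
  classical
  rw [cnt_eq, cnt_eq]
  exact card_le_card (filter_subset_filter _ (range_mono h))

lemma cnt_add (P : ℕ → Prop) {d : ℕ} (hP : ∀ m, P (m + d) ↔ P m) (s : ℕ) :
    cnt P (d + s) = cnt P d + cnt P s := by
  classical
  rw [cnt_eq, cnt_eq, cnt_eq]
  rw [Finset.card_filter, Finset.card_filter, Finset.card_filter, Finset.sum_range_add]
  congr 1
  apply Finset.sum_congr rfl
  intro m _
  rw [add_comm d m]
  simp only [hP m]

lemma cnt_mul_add (P : ℕ → Prop) {d : ℕ} (hP : ∀ m, P (m + d) ↔ P m) (q s : ℕ) :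
    cnt P (d * q + s) = q * cnt P d + cnt P s := by
  induction q with
  | zero => simp
  | succ q ih =>
    have : d * (q + 1) + s = d + (d * q + s) := by ring
    rw [this, cnt_add P hP, ih]; ring

/-- For a periodic predicate, the count is the expected one up to the count in one period. -/
lemma abs_cnt_sub (P : ℕ → Prop) {d : ℕ} (hd : 0 < d) (hP : ∀ m, P (m + d) ↔ P m) (M : ℕ) :
    |(cnt P M : ℝ) - M * (cnt P d / d)| ≤ cnt P d := by
  have h1 := cnt_mul_add P hP (M / d) (M % d)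
  rw [Nat.div_add_mod] at h1
  have hlt : M % d < d := Nat.mod_lt _ hd
  have h2 : cnt P (M % d) ≤ cnt P d := cnt_mono P hlt.le
  have h3 : (M : ℝ) = d * (M / d : ℕ) + (M % d : ℕ) := by
    exact_mod_cast (Nat.div_add_mod M d).symm
  have hd' : (0 : ℝ) < d := by exact_mod_cast hd
  have h4 : (M : ℝ) * (cnt P d / d) = (M / d : ℕ) * cnt P d + ((M % d : ℕ) / d) * cnt P d := by
    rw [h3]
    rw [← h3]
    rw [h3]
    field_simp
  rw [h4, h1]
  push_cast
  have h5 : ((M % d : ℕ) : ℝ) / d ≤ 1 := by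
    rw [div_le_one hd']; exact_mod_cast hlt.le
  have h6 : 0 ≤ ((M % d : ℕ) : ℝ) / d := by positivity
  have h7 : (cnt P (M % d) : ℝ) ≤ cnt P d := by exact_mod_cast h2
  have h8 : (0 : ℝ) ≤ cnt P (M % d) := Nat.cast_nonneg _
  have h9 : (0 : ℝ) ≤ cnt P d := Nat.cast_nonneg _
  rw [abs_le]
  constructor <;> nlinarith

lemma periodic_mod {P : ℕ → Prop} {d : ℕ} (hP : ∀ m, P (m + d) ↔ P m) (m : ℕ) :
    P (m % d) ↔ P m := by
  have h : ∀ q s, P (s + d * q) ↔ P s := by
    intro q s
    induction q with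
    | zero => simp
    | succ q ih =>
      rw [mul_add, mul_one, ← add_assoc, hP, ih]
  have := h (m / d) (m % d)
  rw [Nat.mod_add_div] at this
  exact this.symm

/-- Chinese remainder theorem for counts. -/
lemma cnt_mul (P₁ P₂ : ℕ → Prop) {a b : ℕ} (ha : 0 < a) (hb : 0 < b) (hab : a.Coprime b)
    (h₁ : ∀ m, P₁ (m + a) ↔ P₁ m) (h₂ : ∀ m, P₂ (m + b) ↔ P₂ m) :
    cnt (fun m => P₁ m ∧ P₂ m) (a * b) = cnt P₁ a * cnt P₂ b := by
  classical
  rw [cnt_eq, cnt_eq, cnt_eq, ← Finset.card_product]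
  refine Finset.card_bij (fun m _ => (m % a, m % b)) ?_ ?_ ?_
  · intro m hm
    simp only [mem_filter, mem_range, mem_product] at hm ⊢
    exact ⟨⟨Nat.mod_lt _ ha, (periodic_mod h₁ m).mpr hm.2.1⟩,
      ⟨Nat.mod_lt _ hb, (periodic_mod h₂ m).mpr hm.2.2⟩⟩
  · intro m hm m' hm' heq
    simp only [mem_filter, mem_range] at hm hm'
    simp only [Prod.mk.injEq] at heq
    have h1 : m ≡ m' [MOD a] := heq.1
    have h2 : m ≡ m' [MOD b] := heq.2
    have h3 : m ≡ m' [MOD a * b] := (Nat.modEq_and_modEq_iff_modEq_mul hab).mp ⟨h1, h2⟩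
    exact Nat.ModEq.eq_of_lt_of_lt h3 hm.1 hm'.1
  · rintro ⟨x, y⟩ hxy
    simp only [mem_filter, mem_range, mem_product] at hxy
    obtain ⟨⟨hx, hPx⟩, ⟨hy, hPy⟩⟩ := hxy
    obtain ⟨m, hm1, hm2⟩ := Nat.chineseRemainder hab x y
    refine ⟨m % (a * b), ?_, ?_⟩
    · simp only [mem_filter, mem_range]
      refine ⟨Nat.mod_lt _ (Nat.mul_pos ha hb), ?_, ?_⟩
      · rw [← periodic_mod h₁, Nat.mod_mul_right_mod, hm1, Nat.mod_eq_of_lt hx]
        exact hPx
      · rw [← periodic_mod h₂, Nat.mod_mul_left_mod, hm2, Nat.mod_eq_of_lt hy]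
        exact hPy
    · simp only [Prod.mk.injEq]
      constructor
      · rw [Nat.mod_mul_right_mod, hm1, Nat.mod_eq_of_lt hx]
      · rw [Nat.mod_mul_left_mod, hm2, Nat.mod_eq_of_lt hy]

/-- The number of residue classes modulo `p` met by `A`. -/
def nu (A : Finset ℕ) (p : ℕ) : ℕ := (A.image fun a => a % p).card

lemma nu_le_card (A : Finset ℕ) (p : ℕ) : nu A p ≤ A.card := Finset.card_image_le

/-- `m` is bad for `p` if `p` divides some `r + Q m + a`. -/
def Bad (A : Finset ℕ) (r Q p m : ℕ) : Prop := ∃ a ∈ A, p ∣ r + Q * m + a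

lemma bad_periodic (A : Finset ℕ) (r Q p m : ℕ) : Bad A r Q p (m + p) ↔ Bad A r Q p m := by
  unfold Bad
  apply exists_congr
  intro a
  apply and_congr_right
  intro _
  have : r + Q * (m + p) + a = (r + Q * m + a) + p * Q := by ring
  rw [this]
  exact (Nat.dvd_add_left (Dvd.intro _ rfl))

lemma card_filter_cast {p : ℕ} [NeZero p] (G : Finset (ZMod p)) :
    ((range p).filter fun m : ℕ => (m : ZMod p) ∈ G).card = G.card := by
  refine Finset.card_bij (fun m _ => (m : ZMod p)) ?_ ?_ ?_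
  · intro m hm; exact (mem_filter.mp hm).2
  · intro m hm m' hm' h
    simp only [mem_filter, mem_range] at hm hm'
    rw [ZMod.natCast_eq_natCast_iff'] at h
    rwa [Nat.mod_eq_of_lt hm.1, Nat.mod_eq_of_lt hm'.1] at h
  · intro y hy
    refine ⟨y.val, ?_, ZMod.natCast_zmod_val y⟩
    simp only [mem_filter, mem_range]
    exact ⟨ZMod.val_lt y, by rw [ZMod.natCast_zmod_val]; exact hy⟩

lemma cnt_bad (A : Finset ℕ) (r Q : ℕ) {p : ℕ} (hp : p.Prime) (hQ : ¬ p ∣ Q) :
    cnt (Bad A r Q p) p = nu A p := by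
  classical
  have : Fact p.Prime := ⟨hp⟩
  have hQ' : (Q : ZMod p) ≠ 0 := by
    intro h; exact hQ ((ZMod.natCast_eq_zero_iff _ _).mp h)
  set G : Finset (ZMod p) := (A.image fun a : ℕ => (a : ZMod p)).image
    fun x => -(x + r) * (Q : ZMod p)⁻¹ with hG
  have h1 : cnt (Bad A r Q p) p = ((range p).filter fun m : ℕ => (m : ZMod p) ∈ G).card := by
    rw [cnt_eq]
    congr 1
    apply Finset.filter_congr
    intro m _
    unfold Bad
    simp only [hG, mem_image, exists_exists_and_eq_and]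
    apply exists_congr
    intro a
    apply and_congr_right
    intro _
    rw [← ZMod.natCast_eq_zero_iff]
    push_cast
    constructor
    · intro h
      field_simp
      linear_combination -h
    · intro h
      rw [← h]
      field_simp
      ring
  rw [h1, card_filter_cast, hG, Finset.card_image_of_injective]
  · unfold nu
    refine Finset.card_bij (fun x _ => x.val) ?_ ?_ ?_
    · intro x hx
      rw [mem_image] at hx ⊢
      obtain ⟨a, ha, rfl⟩ := hx
      exact ⟨a, ha, (ZMod.val_natCast p a).symm⟩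
    · intro x _ y _ h
      exact ZMod.val_injective p h
    · intro b hb
      rw [mem_image] at hb
      obtain ⟨a, ha, rfl⟩ := hb
      exact ⟨(a : ZMod p), mem_image_of_mem _ ha, ZMod.val_natCast p a⟩
  · intro x y h
    simp only at h
    have h2 := mul_right_cancel₀ (inv_ne_zero hQ') h
    have h3 := neg_injective h2
    exact add_right_cancel h3

/-- Count over one full period for a set of primes. -/
lemma cnt_bad_set (A : Finset ℕ) (r Q : ℕ) (S : Finset ℕ) (hS : ∀ p ∈ S, p.Prime ∧ ¬ p ∣ Q) :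
    cnt (fun m => ∀ p ∈ S, Bad A r Q p m) (∏ p ∈ S, p) = ∏ p ∈ S, nu A p ∧
    ∀ m, (∀ p ∈ S, Bad A r Q p (m + ∏ p ∈ S, p)) ↔ ∀ p ∈ S, Bad A r Q p m := by
  classical
  induction S using Finset.induction_on with
  | empty =>
    constructor
    · rw [cnt_eq]; simp
    · simp
  | insert q S hq ih =>
    have hS' : ∀ p ∈ S, p.Prime ∧ ¬ p ∣ Q := fun p hp => hS p (mem_insert_of_mem hp)
    obtain ⟨ih1, ih2⟩ := ih hS'
    have hqp := hS q (mem_insert_self q S)
    have hcop : Nat.Coprime q (∏ p ∈ S, p) := by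
      apply Nat.Coprime.prod_right
      intro p hp
      exact (Nat.coprime_primes hqp.1 (hS' p hp).1).mpr (fun h => hq (h ▸ hp))
    have hpos : 0 < ∏ p ∈ S, p := Finset.prod_pos fun p hp => (hS' p hp).1.pos
    have hper : ∀ P : ℕ → Prop, ∀ d e : ℕ, (∀ m, P (m + d) ↔ P m) → ∀ m, P (m + d * e) ↔ P m := by
      intro P d e hP m
      induction e with
      | zero => simp
      | succ e ihe => rw [mul_add, mul_one, ← add_assoc, hP, ihe]
    have hform : ∀ m, (∀ p ∈ insert q S, Bad A r Q p m) ↔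
        (Bad A r Q q m ∧ ∀ p ∈ S, Bad A r Q p m) := by
      intro m; simp
    constructor
    · rw [Finset.prod_insert hq, Finset.prod_insert hq]
      have : (fun m => ∀ p ∈ insert q S, Bad A r Q p m) =
          fun m => Bad A r Q q m ∧ ∀ p ∈ S, Bad A r Q p m := by
        funext m; exact propext (hform m)
      rw [this, cnt_mul (Bad A r Q q) (fun m => ∀ p ∈ S, Bad A r Q p m) hqp.1.pos hpos hcop
        (bad_periodic A r Q q) ih2, cnt_bad A r Q hqp.1 hqp.2, ih1]
    · intro m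
      rw [hform, hform, Finset.prod_insert hq]
      rw [hper (Bad A r Q q) q (∏ p ∈ S, p) (bad_periodic A r Q q) m]
      rw [mul_comm q, hper (fun m => ∀ p ∈ S, Bad A r Q p m) (∏ p ∈ S, p) q ih2 m]

/-- The main counting estimate. -/
lemma abs_cnt_bad_sub (A : Finset ℕ) (r Q : ℕ) (S : Finset ℕ) (hS : ∀ p ∈ S, p.Prime ∧ ¬ p ∣ Q)
    (M : ℕ) : |(cnt (fun m => ∀ p ∈ S, Bad A r Q p m) M : ℝ) -
      M * ∏ p ∈ S, ((nu A p : ℝ) / p)| ≤ ∏ p ∈ S, (nu A p : ℝ) := by
  obtain ⟨h1, h2⟩ := cnt_bad_set A r Q S hS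
  have hpos : 0 < ∏ p ∈ S, p := Finset.prod_pos fun p hp => (hS p hp).1.pos
  have h3 := abs_cnt_sub (fun m => ∀ p ∈ S, Bad A r Q p m) hpos h2 M
  rw [h1] at h3
  push_cast at h3
  rw [Finset.prod_div_distrib]
  exact h3

end Pool.Agent.Lib.Helper57
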