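import Mathlib

/-!
Truncated inclusion-exclusion, and an abstract combinatorial sieve in the style of Hooley:
the sieving set is cut into blocks, and inclusion-exclusion is truncated in each block.
-/

open Finset

namespace Pool.Agent.Lib.Helper57

set_option linter.unusedSectionVars false
set_option linter.unusedSimpArgs false

variable {ι : Type*} [DecidableEq ι]

/-- The general finite expression `∑_{S ∈ F} c(S) ∏_{p ∈ S} f p`. -/
def ev (F : Finset (Finset ι)) (c : Finset ι → ℝ) (f : ι → ℝ) : ℝ :=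
  ∑ S ∈ F, c S * ∏ p ∈ S, f p

/-- Subsets of `P` with at most `t` elements. -/
def small (P : Finset ι) (t : ℕ) : Finset (Finset ι) := P.powerset.filter fun S => S.card ≤ t

/-- The sign `(-1)^{|S|}`. -/
def sgn (S : Finset ι) : ℝ := (-1) ^ S.card

/-- The inclusion-exclusion sum over subsets of size at most `t`. -/
def T (P : Finset ι) (t : ℕ) (f : ι → ℝ) : ℝ := ev (small P t) sgn f

/-- The elementary symmetric sum of degree `t`. -/
def E (P : Finset ι) (t : ℕ) (f : ι → ℝ) : ℝ := ev (P.powersetCard t) (fun _ => 1) f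

/-- The full product. -/
def V (P : Finset ι) (f : ι → ℝ) : ℝ := ∏ p ∈ P, (1 - f p)

lemma T_eq_ite (P : Finset ι) (t : ℕ) (f : ι → ℝ) :
    T P t f = ∑ S ∈ P.powerset, if S.card ≤ t then sgn S * ∏ p ∈ S, f p else 0 := by
  unfold T ev small
  rw [Finset.sum_filter]

lemma E_eq_ite (P : Finset ι) (t : ℕ) (f : ι → ℝ) :
    E P t f = ∑ S ∈ P.powerset, if S.card = t then ∏ p ∈ S, f p else 0 := by
  unfold E ev
  rw [← Finset.sum_filter, Finset.powersetCard_eq_filter]
  simp

lemma T_zero (P : Finset ι) (f : ι → ℝ) : T P 0 f = 1 := by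
  rw [T_eq_ite]
  rw [Finset.sum_eq_single (∅ : Finset ι)]
  · simp [sgn]
  · intro S _ hS
    have : ¬ S.card ≤ 0 := by
      rw [Nat.le_zero, Finset.card_eq_zero]; exact hS
    simp [this]
  · intro h; exact absurd (Finset.empty_mem_powerset P) h

lemma T_insert {P : Finset ι} {q : ι} (hq : q ∉ P) (t : ℕ) (f : ι → ℝ) :
    T (insert q P) (t + 1) f = T P (t + 1) f - f q * T P t f := by
  rw [T_eq_ite, T_eq_ite, T_eq_ite, Finset.sum_powerset_insert hq, Finset.mul_sum, sub_eq_add_neg,
    ← Finset.sum_neg_distrib]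
  congr 1
  apply Finset.sum_congr rfl
  intro S hS
  have hqS : q ∉ S := fun h => hq (Finset.mem_powerset.mp hS h)
  rw [Finset.card_insert_of_notMem hqS]
  by_cases h : S.card ≤ t
  · have h' : S.card + 1 ≤ t + 1 := by omega
    simp only [h, h', if_true]
    rw [Finset.prod_insert hqS]
    unfold sgn
    rw [Finset.card_insert_of_notMem hqS]
    ring
  · have h' : ¬ S.card + 1 ≤ t + 1 := by omega
    simp only [h, h', if_false]
    ring

lemma T_empty (t : ℕ) (f : ι → ℝ) : T (∅ : Finset ι) t f = 1 := by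
  rw [T_eq_ite]
  simp [sgn]

lemma E_zero (P : Finset ι) (f : ι → ℝ) : E P 0 f = 1 := by
  unfold E ev; simp

lemma E_insert {P : Finset ι} {q : ι} (hq : q ∉ P) (t : ℕ) (f : ι → ℝ) :
    E (insert q P) (t + 1) f = E P (t + 1) f + f q * E P t f := by
  rw [E_eq_ite, E_eq_ite, E_eq_ite, Finset.sum_powerset_insert hq, Finset.mul_sum]
  congr 1
  apply Finset.sum_congr rfl
  intro S hS
  have hqS : q ∉ S := fun h => hq (Finset.mem_powerset.mp hS h)
  rw [Finset.card_insert_of_notMem hqS]
  by_cases h : S.card = t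
  · simp only [h, if_true]
    rw [Finset.prod_insert hqS]
  · have h' : ¬ S.card + 1 = t + 1 := by omega
    simp only [h, h', if_false]
    ring

/-- Bonferroni inequalities. -/
lemma bonferroni (P : Finset ι) (f : ι → ℝ) (hf : ∀ p ∈ P, 0 ≤ f p ∧ f p ≤ 1) (t : ℕ) :
    0 ≤ (-1) ^ t * (T P t f - V P f) := by
  induction P using Finset.induction_on generalizing t with
  | empty => rw [T_empty]; simp [V]
  | insert q P hq ih =>
    have hf' : ∀ p ∈ P, 0 ≤ f p ∧ f p ≤ 1 := fun p hp => hf p (Finset.mem_insert_of_mem hp)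
    have hfq := hf q (Finset.mem_insert_self q P)
    have hV : V (insert q P) f = (1 - f q) * V P f := by
      unfold V; rw [Finset.prod_insert hq]
    cases t with
    | zero =>
      rw [T_zero]
      have : V (insert q P) f ≤ 1 := by
        unfold V
        apply Finset.prod_le_one
        · intro p hp; linarith [(hf p hp).2]
        · intro p hp; linarith [(hf p hp).1]
      simp; exact this
    | succ t =>
      rw [T_insert hq, hV]
      have h1 := ih hf' (t + 1)
      have h2 := ih hf' t
      have e : (-1 : ℝ) ^ (t + 1) * (T P (t + 1) f - f q * T P t f - (1 - f q) * V P f) =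
          (-1) ^ (t + 1) * (T P (t + 1) f - V P f) + f q * ((-1) ^ t * (T P t f - V P f)) := by
        rw [pow_succ]; ring
      rw [e]
      have := mul_nonneg hfq.1 h2
      linarith

lemma V_le_T {P : Finset ι} {f : ι → ℝ} (hf : ∀ p ∈ P, 0 ≤ f p ∧ f p ≤ 1) {t : ℕ} (ht : Even t) :
    V P f ≤ T P t f := by
  have := bonferroni P f hf t
  rw [ht.neg_one_pow, one_mul] at this
  linarith

lemma T_succ (P : Finset ι) (t : ℕ) (f : ι → ℝ) :
    T P (t + 1) f = T P t f + (-1) ^ (t + 1) * E P (t + 1) f := by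
  rw [T_eq_ite, T_eq_ite, E_eq_ite, Finset.mul_sum, ← Finset.sum_add_distrib]
  apply Finset.sum_congr rfl
  intro S _
  by_cases h : S.card ≤ t
  · have h1 : S.card ≤ t + 1 := by omega
    have h2 : ¬ S.card = t + 1 := by omega
    simp [h, h1, h2]
  · by_cases h2 : S.card = t + 1
    · have h1 : S.card ≤ t + 1 := by omega
      simp only [h, h1, h2, if_true, if_false, sgn]
      simp
    · have h1 : ¬ S.card ≤ t + 1 := by omega
      simp [h, h1, h2]

lemma T_sub_E_le {P : Finset ι} {f : ι → ℝ} (hf : ∀ p ∈ P, 0 ≤ f p ∧ f p ≤ 1) {t : ℕ}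
    (ht : Even t) : T P t f - E P t f ≤ V P f := by
  cases t with
  | zero =>
    rw [T_zero, E_zero]
    have : 0 ≤ V P f := Finset.prod_nonneg fun p hp => by linarith [(hf p hp).2]
    linarith
  | succ t =>
    have hodd : Odd t := by
      rcases Nat.even_or_odd t with h | h
      · exact absurd ht (by simpa [Nat.even_add_one] using h)
      · exact h
    rw [T_succ, ht.neg_one_pow]
    have := bonferroni P f hf t
    rw [hodd.neg_one_pow] at this
    linarith

lemma V_nonneg {P : Finset ι} {f : ι → ℝ} (hf : ∀ p ∈ P, 0 ≤ f p ∧ f p ≤ 1) : 0 ≤ V P f :=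
  Finset.prod_nonneg fun p hp => by linarith [(hf p hp).2]

lemma E_nonneg {P : Finset ι} {f : ι → ℝ} (hf : ∀ p ∈ P, 0 ≤ f p) (t : ℕ) : 0 ≤ E P t f := by
  unfold E ev
  apply Finset.sum_nonneg
  intro S hS
  rw [one_mul]
  apply Finset.prod_nonneg
  intro p hp
  exact hf p ((Finset.mem_powersetCard.mp hS).1 hp)

lemma pow_add_ge {s a : ℝ} (hs : 0 ≤ s) (ha : 0 ≤ a) (t : ℕ) :
    s ^ (t + 1) + (t + 1) * a * s ^ t ≤ (s + a) ^ (t + 1) := by
  induction t with
  | zero => simp
  | succ t ih =>
    have h1 : (s + a) ^ (t + 1 + 1) = (s + a) ^ (t + 1) * (s + a) := pow_succ _ _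
    rw [h1]
    have h2 : (s ^ (t + 1) + (t + 1) * a * s ^ t) * (s + a) ≤ (s + a) ^ (t + 1) * (s + a) :=
      mul_le_mul_of_nonneg_right ih (by positivity)
    refine le_trans ?_ h2
    push_cast
    have e : (s ^ (t + 1) + (t + 1) * a * s ^ t) * (s + a) =
        s ^ (t + 1 + 1) + (t + 1 + 1) * a * s ^ (t + 1) + (t + 1) * a ^ 2 * s ^ t := by ring
    rw [e]
    have : 0 ≤ (t + 1 : ℝ) * a ^ 2 * s ^ t := by positivity
    linarith

/-- `e_t ≤ (∑ f)^t / t!`. -/
lemma E_le {P : Finset ι} {f : ι → ℝ} (hf : ∀ p ∈ P, 0 ≤ f p) (t : ℕ) :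
    E P t f ≤ (∑ p ∈ P, f p) ^ t / (t.factorial : ℝ) := by
  induction P using Finset.induction_on generalizing t with
  | empty =>
    cases t with
    | zero => rw [E_zero]; simp
    | succ t =>
      unfold E ev
      rw [Finset.powersetCard_eq_empty.mpr (by simp)]
      simp
  | insert q P hq ih =>
    have hf' : ∀ p ∈ P, 0 ≤ f p := fun p hp => hf p (Finset.mem_insert_of_mem hp)
    have hfq := hf q (Finset.mem_insert_self q P)
    cases t with
    | zero => rw [E_zero]; simp
    | succ t =>
      rw [E_insert hq, Finset.sum_insert hq]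
      have hs : 0 ≤ ∑ p ∈ P, f p := Finset.sum_nonneg hf'
      have h1 := ih hf' (t + 1)
      have h2 := mul_le_mul_of_nonneg_left (ih hf' t) hfq
      have h3 := pow_add_ge hs hfq t
      rw [le_div_iff₀ (by positivity)] at h1 ⊢
      have hfac : ((t + 1).factorial : ℝ) = (t + 1) * t.factorial := by
        rw [Nat.factorial_succ]; push_cast; ring
      have h4 : f q * E P t f * (t + 1).factorial ≤ (t + 1) * f q * (∑ p ∈ P, f p) ^ t := by
        rw [hfac]
        have : f q * E P t f * ((t + 1) * t.factorial) ≤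
            f q * ((∑ p ∈ P, f p) ^ t / t.factorial) * ((t + 1) * t.factorial) :=
          mul_le_mul_of_nonneg_right h2 (by positivity)
        refine this.trans (le_of_eq ?_)
        field_simp
      rw [add_mul, add_comm (f q)]
      linarith

/-- The total mass of small subsets. -/
lemma sum_small_le {P : Finset ι} {ν : ι → ℝ} (hν : ∀ p ∈ P, 0 ≤ ν p) (t : ℕ) :
    ∑ S ∈ small P t, ∏ p ∈ S, ν p ≤ (1 + ∑ p ∈ P, ν p) ^ t := by
  induction P using Finset.induction_on generalizing t with
  | empty =>
    have : small (∅ : Finset ι) t = {∅} := by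
      ext S
      simp only [small, Finset.mem_filter, Finset.mem_powerset, Finset.subset_empty,
        Finset.mem_singleton]
      constructor
      · exact fun h => h.1
      · rintro rfl; exact ⟨rfl, by simp⟩
    rw [this]; simp
  | insert q P hq ih =>
    have hν' : ∀ p ∈ P, 0 ≤ ν p := fun p hp => hν p (Finset.mem_insert_of_mem hp)
    have hνq := hν q (Finset.mem_insert_self q P)
    have hs : 0 ≤ ∑ p ∈ P, ν p := Finset.sum_nonneg hν'
    cases t with
    | zero =>
      have : small (insert q P) 0 = {∅} := by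
        ext S
        simp only [small, Finset.mem_filter, Finset.mem_powerset, Nat.le_zero,
          Finset.card_eq_zero, Finset.mem_singleton]
        constructor
        · exact fun h => h.2
        · rintro rfl; exact ⟨Finset.empty_subset _, rfl⟩
      rw [this]; simp
    | succ t =>
      have e : ∑ S ∈ small (insert q P) (t + 1), ∏ p ∈ S, ν p =
          ∑ S ∈ small P (t + 1), ∏ p ∈ S, ν p + ν q * ∑ S ∈ small P t, ∏ p ∈ S, ν p := by
        unfold small
        rw [Finset.sum_filter, Finset.sum_filter, Finset.sum_filter,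
          Finset.sum_powerset_insert hq, Finset.mul_sum]
        congr 1
        apply Finset.sum_congr rfl
        intro S hS
        have hqS : q ∉ S := fun h => hq (Finset.mem_powerset.mp hS h)
        rw [Finset.card_insert_of_notMem hqS]
        by_cases h : S.card ≤ t
        · have h' : S.card + 1 ≤ t + 1 := by omega
          simp only [h, h', if_true]
          rw [Finset.prod_insert hqS]
        · have h' : ¬ S.card + 1 ≤ t + 1 := by omega
          simp only [h, h', if_false]
          ring
      rw [e, Finset.sum_insert hq]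
      have h1 := ih hν' (t + 1)
      have h2 := mul_le_mul_of_nonneg_left (ih hν' t) hνq
      have h3 := pow_add_ge (s := 1 + ∑ p ∈ P, ν p) (a := ν q) (by positivity) hνq t
      have h4 : ν q * (1 + ∑ p ∈ P, ν p) ^ t ≤ (t + 1) * ν q * (1 + ∑ p ∈ P, ν p) ^ t := by
        have : 0 ≤ ν q * (1 + ∑ p ∈ P, ν p) ^ t := by positivity
        have ht : (0 : ℝ) ≤ t := Nat.cast_nonneg t
        nlinarith
      have e2 : 1 + (ν q + ∑ p ∈ P, ν p) = 1 + ∑ p ∈ P, ν p + ν q := by ring
      rw [e2]
      linarith

/-- Telescoping upper bound for the difference of two products. -/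
lemma prod_sub_prod_le {κ : Type*} [DecidableEq κ] (J : Finset κ) (u v : κ → ℝ)
    (h : ∀ j ∈ J, 0 ≤ v j ∧ v j ≤ u j) :
    ∏ j ∈ J, u j - ∏ j ∈ J, v j ≤ ∑ j ∈ J, (u j - v j) * ∏ i ∈ J.erase j, u i := by
  induction J using Finset.induction_on with
  | empty => simp
  | insert a J ha ih =>
    have h' : ∀ j ∈ J, 0 ≤ v j ∧ v j ≤ u j := fun j hj => h j (Finset.mem_insert_of_mem hj)
    have ha' := h a (Finset.mem_insert_self a J)
    rw [Finset.prod_insert ha, Finset.prod_insert ha, Finset.sum_insert ha,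
      Finset.erase_insert ha]
    have e : ∑ j ∈ J, (u j - v j) * ∏ i ∈ (insert a J).erase j, u i =
        u a * ∑ j ∈ J, (u j - v j) * ∏ i ∈ J.erase j, u i := by
      rw [Finset.mul_sum]
      apply Finset.sum_congr rfl
      intro j hj
      have hja : j ≠ a := fun h => ha (h ▸ hj)
      rw [Finset.erase_insert_of_ne hja.symm, Finset.prod_insert (by
        intro hmem; exact ha (Finset.mem_of_mem_erase hmem))]
      ring
    rw [e]
    have h1 := mul_le_mul_of_nonneg_left (ih h') (ha'.1.trans ha'.2)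
    have h2 : ∏ j ∈ J, v j ≤ ∏ j ∈ J, u j :=
      Finset.prod_le_prod (fun j hj => (h' j hj).1) fun j hj => (h' j hj).2
    have h3 : (u a - v a) * ∏ j ∈ J, v j ≤ (u a - v a) * ∏ j ∈ J, u j :=
      mul_le_mul_of_nonneg_left h2 (by linarith [ha'.2])
    nlinarith

end Pool.Agent.Lib.Helper57
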