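import Mathlib
import Pool.Agent.Lib.Helper57.Bonferroni

/-!
The abstract combinatorial sieve: upper and lower bounds for the number of unsieved elements.
-/

open Finset

namespace Pool.Agent.Lib.Helper57

set_option linter.unusedSectionVars false

variable {ι κ α : Type*} [DecidableEq ι] [DecidableEq κ] [DecidableEq α]

/-- The indicator function of `B`. -/
def ind (B : Finset ι) (p : ι) : ℝ := if p ∈ B then 1 else 0

lemma ind_bounds (B : Finset ι) (p : ι) : 0 ≤ ind B p ∧ ind B p ≤ 1 := by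
  unfold ind; split_ifs <;> norm_num

lemma prod_ind (B S : Finset ι) : ∏ p ∈ S, ind B p = if S ⊆ B then 1 else 0 := by
  unfold ind
  by_cases h : S ⊆ B
  · rw [if_pos h]
    apply Finset.prod_eq_one
    intro p hp
    rw [if_pos (h hp)]
  · rw [if_neg h]
    obtain ⟨p, hp, hpB⟩ := Finset.not_subset.mp h
    exact Finset.prod_eq_zero hp (by rw [if_neg hpB])

/-- `ev` commutes with products over disjoint blocks. -/
lemma prod_ev (J : Finset κ) (F : κ → Finset (Finset ι)) (c : κ → Finset ι → ℝ)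
    (P : κ → Finset ι) (hdisj : ∀ i ∈ J, ∀ j ∈ J, i ≠ j → Disjoint (P i) (P j))
    (hF : ∀ j ∈ J, ∀ S ∈ F j, S ⊆ P j) (f : ι → ℝ) :
    ∏ j ∈ J, ev (F j) (c j) f = ∑ φ ∈ J.pi F,
      (∏ x ∈ J.attach, c x.1 (φ x.1 x.2)) * ∏ p ∈ J.attach.biUnion (fun x => φ x.1 x.2), f p := by
  unfold ev
  rw [Finset.prod_sum]
  apply Finset.sum_congr rfl
  intro φ hφ
  rw [Finset.prod_mul_distrib]
  congr 1
  rw [Finset.prod_biUnion]
  intro x _ y _ hxy
  have hmem := Finset.mem_pi.mp hφ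
  have h1 := hF x.1 x.2 _ (hmem x.1 x.2)
  have h2 := hF y.1 y.2 _ (hmem y.1 y.2)
  have hne : x.1 ≠ y.1 := fun h => hxy (Subtype.ext h)
  exact Finset.disjoint_of_subset_left h1 (Finset.disjoint_of_subset_right h2
    (hdisj x.1 x.2 y.1 y.2 hne))

/-- The transfer principle. -/
lemma transfer (J : Finset κ) (F : κ → Finset (Finset ι)) (c : κ → Finset ι → ℝ)
    (P : κ → Finset ι) (hdisj : ∀ i ∈ J, ∀ j ∈ J, i ≠ j → Disjoint (P i) (P j))
    (hF : ∀ j ∈ J, ∀ S ∈ F j, S ⊆ P j) (hc : ∀ j ∈ J, ∀ S ∈ F j, |c j S| ≤ 1)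
    (Ω : Finset α) (B : α → Finset ι) (X : ℝ) (g ν : ι → ℝ)
    (hν : ∀ j ∈ J, ∀ p ∈ P j, 0 ≤ ν p)
    (hcount : ∀ S : Finset ι, (∀ p ∈ S, ∃ j ∈ J, p ∈ P j) →
      |((Ω.filter fun m => S ⊆ B m).card : ℝ) - X * ∏ p ∈ S, g p| ≤ ∏ p ∈ S, ν p) :
    |∑ m ∈ Ω, ∏ j ∈ J, ev (F j) (c j) (ind (B m)) - X * ∏ j ∈ J, ev (F j) (c j) g| ≤
      ∏ j ∈ J, ∑ S ∈ F j, ∏ p ∈ S, ν p := by
  have e1 : ∑ m ∈ Ω, ∏ j ∈ J, ev (F j) (c j) (ind (B m)) = ∑ φ ∈ J.pi F,
      (∏ x ∈ J.attach, c x.1 (φ x.1 x.2)) *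
        ((Ω.filter fun m => J.attach.biUnion (fun x => φ x.1 x.2) ⊆ B m).card : ℝ) := by
    simp_rw [prod_ev J F c P hdisj hF]
    rw [Finset.sum_comm]
    apply Finset.sum_congr rfl
    intro φ _
    rw [← Finset.mul_sum]
    congr 1
    simp_rw [prod_ind]
    rw [Finset.sum_ite]
    simp
  rw [e1, prod_ev J F c P hdisj hF, Finset.mul_sum, ← Finset.sum_sub_distrib]
  have e2 : ∏ j ∈ J, ∑ S ∈ F j, ∏ p ∈ S, ν p = ∑ φ ∈ J.pi F,
      ∏ p ∈ J.attach.biUnion (fun x => φ x.1 x.2), ν p := by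
    have := prod_ev J F (fun _ _ => 1) P hdisj hF ν
    simp only [ev, one_mul, Finset.prod_const_one] at this
    exact this
  rw [e2]
  refine (Finset.abs_sum_le_sum_abs _ _).trans ?_
  apply Finset.sum_le_sum
  intro φ hφ
  have hmem := Finset.mem_pi.mp hφ
  set U := J.attach.biUnion (fun x => φ x.1 x.2) with hU
  have hUmem : ∀ p ∈ U, ∃ j ∈ J, p ∈ P j := by
    intro p hp
    rw [hU, Finset.mem_biUnion] at hp
    obtain ⟨x, _, hx⟩ := hp
    exact ⟨x.1, x.2, hF x.1 x.2 _ (hmem x.1 x.2) hx⟩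
  have h1 := hcount U hUmem
  have h2 : |∏ x ∈ J.attach, c x.1 (φ x.1 x.2)| ≤ 1 := by
    rw [Finset.abs_prod]
    apply Finset.prod_le_one
    · intro x _; exact abs_nonneg _
    · intro x _; exact hc x.1 x.2 _ (hmem x.1 x.2)
  have h3 : (∏ x ∈ J.attach, c x.1 (φ x.1 x.2)) * ((Ω.filter fun m => U ⊆ B m).card : ℝ) -
      X * ((∏ x ∈ J.attach, c x.1 (φ x.1 x.2)) * ∏ p ∈ U, g p) =
      (∏ x ∈ J.attach, c x.1 (φ x.1 x.2)) *
        (((Ω.filter fun m => U ⊆ B m).card : ℝ) - X * ∏ p ∈ U, g p) := by ring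
  rw [h3, abs_mul]
  have h4 : 0 ≤ ∏ p ∈ U, ν p := Finset.prod_nonneg fun p hp => by
    obtain ⟨j, hj, hpj⟩ := hUmem p hp
    exact hν j hj p hpj
  calc _ ≤ 1 * ∏ p ∈ U, ν p := mul_le_mul h2 h1 (abs_nonneg _) zero_le_one
    _ = _ := one_mul _

/-- The number of elements of `Ω` which are unsieved by all blocks. -/
def good (J : Finset κ) (P : κ → Finset ι) (Ω : Finset α) (B : α → Finset ι) : Finset α :=
  Ω.filter fun m => ∀ j ∈ J, ∀ p ∈ P j, p ∉ B m

lemma V_ind (P : Finset ι) (B : Finset ι) :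
    V P (ind B) = if (∀ p ∈ P, p ∉ B) then 1 else 0 := by
  unfold V ind
  by_cases h : ∀ p ∈ P, p ∉ B
  · rw [if_pos h]
    apply Finset.prod_eq_one
    intro p hp
    rw [if_neg (h p hp)]; ring
  · rw [if_neg h]
    push Not at h
    obtain ⟨p, hp, hpB⟩ := h
    exact Finset.prod_eq_zero hp (by rw [if_pos hpB]; ring)

lemma card_good (J : Finset κ) (P : κ → Finset ι) (Ω : Finset α) (B : α → Finset ι) :
    ((good J P Ω B).card : ℝ) = ∑ m ∈ Ω, ∏ j ∈ J, V (P j) (ind (B m)) := by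
  unfold good
  rw [Finset.card_filter]
  push_cast
  apply Finset.sum_congr rfl
  intro m _
  simp_rw [V_ind]
  by_cases h : ∀ j ∈ J, ∀ p ∈ P j, p ∉ B m
  · rw [if_pos h]
    symm
    apply Finset.prod_eq_one
    intro j hj
    rw [if_pos (h j hj)]
  · rw [if_neg h]
    symm
    push Not at h
    obtain ⟨j, hj, p, hp, hpB⟩ := h
    apply Finset.prod_eq_zero hj
    rw [if_neg]
    intro h'; exact h' p hp hpB

/-- Hypotheses of the abstract sieve, bundled. -/
structure SieveData (κ ι α : Type*) [DecidableEq κ] [DecidableEq ι] where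
  /-- the index set of blocks -/
  J : Finset κ
  /-- the blocks -/
  P : κ → Finset ι
  /-- truncation levels -/
  t : κ → ℕ
  /-- the set to be sieved -/
  Ω : Finset α
  /-- the bad primes of an element -/
  B : α → Finset ι
  /-- the main quantity -/
  X : ℝ
  /-- the density -/
  g : ι → ℝ
  /-- the error function -/
  ν : ι → ℝ
  X_nonneg : 0 ≤ X
  even : ∀ j ∈ J, Even (t j)
  disj : ∀ i ∈ J, ∀ j ∈ J, i ≠ j → Disjoint (P i) (P j)
  g_bd : ∀ j ∈ J, ∀ p ∈ P j, 0 ≤ g p ∧ g p ≤ 1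
  ν_nonneg : ∀ j ∈ J, ∀ p ∈ P j, 0 ≤ ν p
  count : ∀ S : Finset ι, (∀ p ∈ S, ∃ j ∈ J, p ∈ P j) →
      |((Ω.filter fun m => S ⊆ B m).card : ℝ) - X * ∏ p ∈ S, g p| ≤ ∏ p ∈ S, ν p

namespace SieveData

variable (D : SieveData κ ι α)

/-- the error term -/
def N : ℝ := ∏ j ∈ D.J, ∑ S ∈ small (D.P j) (D.t j), ∏ p ∈ S, D.ν p

lemma sgn_abs (S : Finset ι) : |sgn S| ≤ 1 := by
  unfold sgn; rw [abs_pow]; simp

lemma small_sub (P : Finset ι) (t : ℕ) : ∀ S ∈ small P t, S ⊆ P := by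
  intro S hS
  unfold small at hS
  exact Finset.mem_powerset.mp (Finset.mem_filter.mp hS).1

/-- Upper bound. -/
lemma upper : ((good D.J D.P D.Ω D.B).card : ℝ) ≤ D.X * ∏ j ∈ D.J, T (D.P j) (D.t j) D.g + D.N := by
  rw [card_good]
  have h1 : ∑ m ∈ D.Ω, ∏ j ∈ D.J, V (D.P j) (ind (D.B m)) ≤
      ∑ m ∈ D.Ω, ∏ j ∈ D.J, ev (small (D.P j) (D.t j)) sgn (ind (D.B m)) := by
    apply Finset.sum_le_sum
    intro m _
    apply Finset.prod_le_prod
    · intro j _
      exact V_nonneg fun p _ => ind_bounds _ p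
    · intro j hj
      exact V_le_T (fun p _ => ind_bounds _ p) (D.even j hj)
  have h2 := transfer D.J (fun j => small (D.P j) (D.t j)) (fun _ => sgn) D.P D.disj
    (fun j _ => small_sub _ _) (fun j _ S _ => sgn_abs S) D.Ω D.B D.X D.g D.ν D.ν_nonneg D.count
  have h3 := (abs_le.mp h2).2
  unfold T N
  linarith

/-- Lower bound. -/
lemma lower : D.X * (∏ j ∈ D.J, T (D.P j) (D.t j) D.g -
    ∑ j ∈ D.J, E (D.P j) (D.t j) D.g * ∏ i ∈ D.J.erase j, T (D.P i) (D.t i) D.g) -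
    (D.J.card + 1) * D.N ≤ ((good D.J D.P D.Ω D.B).card : ℝ) := by
  rw [card_good]
  -- pointwise inequality
  have hpt : ∀ m ∈ D.Ω, ∏ j ∈ D.J, T (D.P j) (D.t j) (ind (D.B m)) -
      ∑ j ∈ D.J, E (D.P j) (D.t j) (ind (D.B m)) *
        ∏ i ∈ D.J.erase j, T (D.P i) (D.t i) (ind (D.B m)) ≤
      ∏ j ∈ D.J, V (D.P j) (ind (D.B m)) := by
    intro m _
    have h1 := prod_sub_prod_le D.J (fun j => T (D.P j) (D.t j) (ind (D.B m)))
      (fun j => V (D.P j) (ind (D.B m))) (fun j hj =>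
        ⟨V_nonneg fun p _ => ind_bounds _ p, V_le_T (fun p _ => ind_bounds _ p) (D.even j hj)⟩)
    have h2 : ∑ j ∈ D.J, (T (D.P j) (D.t j) (ind (D.B m)) - V (D.P j) (ind (D.B m))) *
        ∏ i ∈ D.J.erase j, T (D.P i) (D.t i) (ind (D.B m)) ≤
        ∑ j ∈ D.J, E (D.P j) (D.t j) (ind (D.B m)) *
        ∏ i ∈ D.J.erase j, T (D.P i) (D.t i) (ind (D.B m)) := by
      apply Finset.sum_le_sum
      intro j hj
      apply mul_le_mul_of_nonneg_right
      · have := T_sub_E_le (P := D.P j) (f := ind (D.B m)) (fun p _ => ind_bounds _ p) (D.even j hj)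
        linarith
      · apply Finset.prod_nonneg
        intro i hi
        exact (V_nonneg fun p _ => ind_bounds _ p).trans
          (V_le_T (fun p _ => ind_bounds _ p) (D.even i (Finset.mem_of_mem_erase hi)))
    linarith
  -- transfer for the main term
  have hmain := transfer D.J (fun j => small (D.P j) (D.t j)) (fun _ => sgn) D.P D.disj
    (fun j _ => small_sub _ _) (fun j _ S _ => sgn_abs S) D.Ω D.B D.X D.g D.ν D.ν_nonneg D.count
  -- transfer for the error terms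
  have herr : ∀ j ∈ D.J, ∑ m ∈ D.Ω, E (D.P j) (D.t j) (ind (D.B m)) *
        ∏ i ∈ D.J.erase j, T (D.P i) (D.t i) (ind (D.B m)) ≤
      D.X * (E (D.P j) (D.t j) D.g * ∏ i ∈ D.J.erase j, T (D.P i) (D.t i) D.g) + D.N := by
    intro j hj
    -- families
    set F : κ → Finset (Finset ι) := fun i =>
      if i = j then (D.P i).powersetCard (D.t i) else small (D.P i) (D.t i) with hF
    set c : κ → Finset ι → ℝ := fun i => if i = j then fun _ => 1 else sgn with hc
    have hprod : ∀ f : ι → ℝ, ∏ i ∈ D.J, ev (F i) (c i) f =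
        E (D.P j) (D.t j) f * ∏ i ∈ D.J.erase j, T (D.P i) (D.t i) f := by
      intro f
      rw [← Finset.mul_prod_erase _ _ hj]
      congr 1
      · simp [hF, hc, E]
      · apply Finset.prod_congr rfl
        intro i hi
        have hne : i ≠ j := Finset.ne_of_mem_erase hi
        simp [hF, hc, hne, T]
    have hsub : ∀ i, F i ⊆ small (D.P i) (D.t i) := by
      intro i S hS
      simp only [hF] at hS
      split_ifs at hS with h
      · unfold small
        rw [Finset.mem_filter, Finset.mem_powerset]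
        rw [Finset.mem_powersetCard] at hS
        exact ⟨hS.1, hS.2.le⟩
      · exact hS
    have h := transfer D.J F c D.P D.disj (fun i _ S hS => small_sub _ _ S (hsub i hS))
      (fun i _ S _ => by
        simp only [hc]
        split_ifs
        · simp
        · exact sgn_abs S) D.Ω D.B D.X D.g D.ν D.ν_nonneg D.count
    have h3 := (abs_le.mp h).2
    simp_rw [hprod] at h3
    have h4 : ∏ i ∈ D.J, ∑ S ∈ F i, ∏ p ∈ S, D.ν p ≤ D.N := by
      unfold N
      apply Finset.prod_le_prod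
      · intro i hi
        apply Finset.sum_nonneg
        intro S hS
        apply Finset.prod_nonneg
        intro p hp
        exact D.ν_nonneg i hi p (small_sub _ _ S (hsub i hS) hp)
      · intro i hi
        apply Finset.sum_le_sum_of_subset_of_nonneg (hsub i)
        intro S hS _
        apply Finset.prod_nonneg
        intro p hp
        exact D.ν_nonneg i hi p (small_sub _ _ S hS hp)
    linarith
  have h5 : ∑ m ∈ D.Ω, (∏ j ∈ D.J, T (D.P j) (D.t j) (ind (D.B m)) -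
      ∑ j ∈ D.J, E (D.P j) (D.t j) (ind (D.B m)) *
        ∏ i ∈ D.J.erase j, T (D.P i) (D.t i) (ind (D.B m))) ≤
      ∑ m ∈ D.Ω, ∏ j ∈ D.J, V (D.P j) (ind (D.B m)) := Finset.sum_le_sum hpt
  rw [Finset.sum_sub_distrib, Finset.sum_comm] at h5
  have h6 := Finset.sum_le_sum herr
  rw [Finset.sum_add_distrib, Finset.sum_const, nsmul_eq_mul, ← Finset.mul_sum] at h6
  have h7 := (abs_le.mp hmain).1
  have h8 : ∏ j ∈ D.J, ∑ S ∈ small (D.P j) (D.t j), ∏ p ∈ S, D.ν p = D.N := rfl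
  rw [h8] at h7
  have h9 : ∀ m, ∏ j ∈ D.J, ev (small (D.P j) (D.t j)) sgn (ind (D.B m)) =
    ∏ j ∈ D.J, T (D.P j) (D.t j) (ind (D.B m)) := fun m => rfl
  simp_rw [h9] at h7
  have h10 : ∏ j ∈ D.J, ev (small (D.P j) (D.t j)) sgn D.g =
    ∏ j ∈ D.J, T (D.P j) (D.t j) D.g := rfl
  rw [h10] at h7
  rw [mul_sub]
  linarith

/-- The full density. -/
def W : ℝ := ∏ j ∈ D.J, V (D.P j) D.g

variable {D} in
/-- Final form of the abstract sieve, when the truncation errors are small. -/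
lemma main {ε : κ → ℝ} {η : ℝ} (hε0 : ∀ j ∈ D.J, 0 ≤ ε j)
    (hε : ∀ j ∈ D.J, E (D.P j) (D.t j) D.g ≤ ε j * V (D.P j) D.g)
    (hη : ∑ j ∈ D.J, ε j ≤ η) :
    D.X * D.W * (1 - η * Real.exp η) - (D.J.card + 1) * D.N ≤
      ((good D.J D.P D.Ω D.B).card : ℝ) ∧
    ((good D.J D.P D.Ω D.B).card : ℝ) ≤ D.X * D.W * Real.exp η + D.N := by
  have hV0 : ∀ j ∈ D.J, 0 ≤ V (D.P j) D.g := fun j hj => V_nonneg (D.g_bd j hj)
  have hVT : ∀ j ∈ D.J, V (D.P j) D.g ≤ T (D.P j) (D.t j) D.g := fun j hj =>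
    V_le_T (D.g_bd j hj) (D.even j hj)
  have hTV : ∀ j ∈ D.J, T (D.P j) (D.t j) D.g ≤ V (D.P j) D.g * Real.exp (ε j) := by
    intro j hj
    have h1 := T_sub_E_le (D.g_bd j hj) (D.even j hj)
    have h2 := hε j hj
    have h3 := Real.add_one_le_exp (ε j)
    nlinarith [hV0 j hj]
  have hη0 : 0 ≤ η := (Finset.sum_nonneg hε0).trans hη
  have hW0 : 0 ≤ D.W := Finset.prod_nonneg hV0
  have hprodT : ∏ j ∈ D.J, T (D.P j) (D.t j) D.g ≤ D.W * Real.exp η := by
    calc ∏ j ∈ D.J, T (D.P j) (D.t j) D.g ≤ ∏ j ∈ D.J, (V (D.P j) D.g * Real.exp (ε j)) :=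
          Finset.prod_le_prod (fun j hj => (hV0 j hj).trans (hVT j hj)) hTV
      _ = D.W * Real.exp (∑ j ∈ D.J, ε j) := by
          rw [Finset.prod_mul_distrib, Real.exp_sum]; rfl
      _ ≤ D.W * Real.exp η := mul_le_mul_of_nonneg_left (Real.exp_le_exp.mpr hη) hW0
  have hWT : D.W ≤ ∏ j ∈ D.J, T (D.P j) (D.t j) D.g := Finset.prod_le_prod hV0 hVT
  have hsum : ∑ j ∈ D.J, E (D.P j) (D.t j) D.g * ∏ i ∈ D.J.erase j, T (D.P i) (D.t i) D.g ≤
      η * (D.W * Real.exp η) := by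
    calc _ ≤ ∑ j ∈ D.J, ε j * (D.W * Real.exp η) := by
          apply Finset.sum_le_sum
          intro j hj
          have h1 : ∏ i ∈ D.J.erase j, T (D.P i) (D.t i) D.g ≤
              ∏ i ∈ D.J.erase j, (V (D.P i) D.g * Real.exp (ε i)) :=
            Finset.prod_le_prod (fun i hi => (hV0 i (Finset.mem_of_mem_erase hi)).trans
              (hVT i (Finset.mem_of_mem_erase hi))) fun i hi => hTV i (Finset.mem_of_mem_erase hi)
          have h0 : 0 ≤ ∏ i ∈ D.J.erase j, T (D.P i) (D.t i) D.g :=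
            Finset.prod_nonneg fun i hi => (hV0 i (Finset.mem_of_mem_erase hi)).trans
              (hVT i (Finset.mem_of_mem_erase hi))
          have h0' : 0 ≤ ∏ i ∈ D.J.erase j, V (D.P i) D.g :=
            Finset.prod_nonneg fun i hi => (hV0 i (Finset.mem_of_mem_erase hi))
          rw [Finset.prod_mul_distrib, ← Real.exp_sum] at h1
          have h2 : Real.exp (∑ i ∈ D.J.erase j, ε i) ≤ Real.exp η := by
            apply Real.exp_le_exp.mpr
            refine le_trans ?_ hη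
            exact Finset.sum_le_sum_of_subset_of_nonneg (Finset.erase_subset _ _)
              fun i hi _ => hε0 i hi
          calc E (D.P j) (D.t j) D.g * ∏ i ∈ D.J.erase j, T (D.P i) (D.t i) D.g
              ≤ (ε j * V (D.P j) D.g) * ((∏ i ∈ D.J.erase j, V (D.P i) D.g) *
                Real.exp (∑ i ∈ D.J.erase j, ε i)) :=
                mul_le_mul (hε j hj) h1 h0 (mul_nonneg (hε0 j hj) (hV0 j hj))
            _ ≤ (ε j * V (D.P j) D.g) * ((∏ i ∈ D.J.erase j, V (D.P i) D.g) * Real.exp η) := by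
                apply mul_le_mul_of_nonneg_left _ (mul_nonneg (hε0 j hj) (hV0 j hj))
                exact mul_le_mul_of_nonneg_left h2 h0'
            _ = ε j * ((V (D.P j) D.g * ∏ i ∈ D.J.erase j, V (D.P i) D.g) * Real.exp η) := by ring
            _ = ε j * (D.W * Real.exp η) := by
                rw [Finset.mul_prod_erase D.J (fun j => V (D.P j) D.g) hj]; rfl
      _ = (∑ j ∈ D.J, ε j) * (D.W * Real.exp η) := by rw [Finset.sum_mul]
      _ ≤ η * (D.W * Real.exp η) := mul_le_mul_of_nonneg_right hη (by positivity)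
  constructor
  · refine le_trans ?_ D.lower
    have : D.X * D.W * (1 - η * Real.exp η) ≤ D.X * (∏ j ∈ D.J, T (D.P j) (D.t j) D.g -
        ∑ j ∈ D.J, E (D.P j) (D.t j) D.g * ∏ i ∈ D.J.erase j, T (D.P i) (D.t i) D.g) := by
      rw [mul_assoc]
      apply mul_le_mul_of_nonneg_left _ D.X_nonneg
      nlinarith
    linarith
  · refine D.upper.trans ?_
    have := mul_le_mul_of_nonneg_left hprodT D.X_nonneg
    nlinarith

end SieveData

end Pool.Agent.Lib.Helper57
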