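import Mathlib

/-!
Sums of reciprocals of primes, from Chebyshev's bound.
-/

open Finset

namespace Pool.Agent.Lib.Helper57

/-- The number of primes in a dyadic interval. -/
lemma card_dyadic (S : Finset ℕ) (i : ℕ) (_hi : 1 ≤ i)
    (hS : ∀ p ∈ S, p.Prime ∧ 2 ^ i ≤ p ∧ p < 2 ^ (i + 1)) : (S.card : ℝ) * i ≤ 4 * 2 ^ i := by
  have h1 : ∑ p ∈ S, Real.log p ≤ Chebyshev.theta ((2 : ℝ) ^ (i + 1)) := by
    rw [Chebyshev.theta_eq_sum_Icc]
    apply Finset.sum_le_sum_of_subset_of_nonneg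
    · intro p hp
      obtain ⟨hpp, _, h2⟩ := hS p hp
      rw [mem_filter, mem_Icc]
      refine ⟨⟨Nat.zero_le _, ?_⟩, hpp⟩
      apply Nat.le_floor
      exact_mod_cast h2.le
    · intro p _ _
      exact Real.log_natCast_nonneg p
  have h2 := Chebyshev.theta_le_log4_mul_x (x := (2 : ℝ) ^ (i + 1)) (by positivity)
  have h3 : (S.card : ℝ) * (i * Real.log 2) ≤ ∑ p ∈ S, Real.log p := by
    rw [← nsmul_eq_mul]
    apply Finset.card_nsmul_le_sum
    intro p hp
    obtain ⟨_, h4, _⟩ := hS p hp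
    rw [← Real.log_pow]
    apply Real.log_le_log (by positivity)
    exact_mod_cast h4
  have h4 : Real.log 4 = 2 * Real.log 2 := by
    rw [show (4 : ℝ) = 2 ^ 2 by norm_num, Real.log_pow]; push_cast; ring
  have h5 : 0 < Real.log 2 := Real.log_pos (by norm_num)
  have h6 : (S.card : ℝ) * i * Real.log 2 ≤ 4 * 2 ^ i * Real.log 2 := by
    calc (S.card : ℝ) * i * Real.log 2 = (S.card : ℝ) * (i * Real.log 2) := by ring
      _ ≤ Real.log 4 * 2 ^ (i + 1) := by linarith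
      _ = _ := by rw [h4, pow_succ]; ring
  exact le_of_mul_le_mul_right h6 h5

/-- Reciprocals of primes within a set where `p < q²` for all members. -/
lemma sum_inv_block (S : Finset ℕ) (hS : ∀ p ∈ S, p.Prime) (h : ∀ p ∈ S, ∀ q ∈ S, p < q ^ 2) :
    ∑ p ∈ S, (1 : ℝ) / p ≤ 12 := by
  rcases S.eq_empty_or_nonempty with rfl | hne
  · simp
  set q := S.min' hne with hq
  have hqS : q ∈ S := S.min'_mem hne
  have hq2 : 2 ≤ q := (hS q hqS).two_le
  set a := Nat.log 2 q with ha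
  have ha1 : 1 ≤ a := by
    rw [ha]
    exact Nat.log_pos (by norm_num) hq2
  have hqa : 2 ^ a ≤ q := Nat.pow_log_le_self 2 (by omega)
  have hqa2 : q < 2 ^ (a + 1) := Nat.lt_pow_succ_log_self (by norm_num) q
  have hlog : ∀ p ∈ S, Nat.log 2 p ∈ Icc a (2 * a + 1) := by
    intro p hp
    rw [mem_Icc]
    constructor
    · exact Nat.log_mono_right (S.min'_le p hp)
    · have h1 : p < q ^ 2 := h p hp q hqS
      have h2 : q ^ 2 < 2 ^ (2 * a + 2) := by
        calc q ^ 2 < (2 ^ (a + 1)) ^ 2 := Nat.pow_lt_pow_left hqa2 (by norm_num)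
          _ = 2 ^ (2 * a + 2) := by rw [← pow_mul]; ring_nf
      have h3 : Nat.log 2 p < 2 * a + 2 :=
        Nat.log_lt_of_lt_pow (by have := (hS p hp).pos; omega) (h1.trans h2)
      omega
  have hpart : ∑ p ∈ S, (1 : ℝ) / p = ∑ i ∈ Icc a (2 * a + 1),
      ∑ p ∈ S.filter (fun p => Nat.log 2 p = i), (1 : ℝ) / p :=
    (Finset.sum_fiberwise_of_maps_to hlog _).symm
  rw [hpart]
  have hterm : ∀ i ∈ Icc a (2 * a + 1),
      ∑ p ∈ S.filter (fun p => Nat.log 2 p = i), (1 : ℝ) / p ≤ 4 / a := by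
    intro i hi
    rw [mem_Icc] at hi
    have hi1 : 1 ≤ i := ha1.trans hi.1
    have hmem : ∀ p ∈ S.filter (fun p => Nat.log 2 p = i),
        p.Prime ∧ 2 ^ i ≤ p ∧ p < 2 ^ (i + 1) := by
      intro p hp
      rw [mem_filter] at hp
      obtain ⟨hp1, rfl⟩ := hp
      exact ⟨hS p hp1, Nat.pow_log_le_self 2 (hS p hp1).ne_zero,
        Nat.lt_pow_succ_log_self (by norm_num) p⟩
    have hcard := card_dyadic _ i hi1 hmem
    have hi0 : (0 : ℝ) < i := by exact_mod_cast hi1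
    have ha0 : (0 : ℝ) < a := by exact_mod_cast ha1
    calc ∑ p ∈ S.filter (fun p => Nat.log 2 p = i), (1 : ℝ) / p
        ≤ ∑ p ∈ S.filter (fun p => Nat.log 2 p = i), 1 / (2 : ℝ) ^ i := by
          apply Finset.sum_le_sum
          intro p hp
          apply one_div_le_one_div_of_le (by positivity)
          exact_mod_cast (hmem p hp).2.1
      _ = (S.filter (fun p => Nat.log 2 p = i)).card / (2 : ℝ) ^ i := by
          rw [Finset.sum_const, nsmul_eq_mul]; ring
      _ ≤ 4 / i := by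
          rw [div_le_div_iff₀ (by positivity) hi0]; exact hcard
      _ ≤ 4 / a := by
          apply div_le_div_of_nonneg_left (by norm_num) ha0
          exact_mod_cast hi.1
  calc ∑ i ∈ Icc a (2 * a + 1), ∑ p ∈ S.filter (fun p => Nat.log 2 p = i), (1 : ℝ) / p
      ≤ ∑ i ∈ Icc a (2 * a + 1), (4 : ℝ) / a := Finset.sum_le_sum hterm
    _ = (a + 2) * (4 / a) := by
        rw [Finset.sum_const, Nat.card_Icc, nsmul_eq_mul]
        congr 1
        have : 2 * a + 1 + 1 - a = a + 2 := by omega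
        rw [this]; push_cast; ring
    _ ≤ 12 := by
        have ha0 : (1 : ℝ) ≤ a := by exact_mod_cast ha1
        rw [← mul_div_assoc, div_le_iff₀ (by linarith)]
        linarith

/-- The `j`-th block of primes in `(K, z]`: those with `p ^ (2 ^ j) ≤ z < p ^ (2 ^ (j + 1))`. -/
def block (K z j : ℕ) : Finset ℕ :=
  (range (z + 1)).filter fun p => p.Prime ∧ K < p ∧ p ^ (2 ^ j) ≤ z ∧ z < p ^ (2 ^ (j + 1))

lemma mem_block {K z j p : ℕ} : p ∈ block K z j ↔
    p.Prime ∧ K < p ∧ p ^ (2 ^ j) ≤ z ∧ z < p ^ (2 ^ (j + 1)) := by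
  unfold block
  rw [mem_filter, mem_range]
  constructor
  · exact fun h => h.2
  · intro h
    refine ⟨?_, h⟩
    have : p ≤ p ^ (2 ^ j) := Nat.le_self_pow (by positivity) p
    omega

lemma block_disjoint (K z : ℕ) {i j : ℕ} (hij : i ≠ j) : Disjoint (block K z i) (block K z j) := by
  rw [Finset.disjoint_left]
  intro p hi hj
  rw [mem_block] at hi hj
  rcases lt_or_gt_of_ne hij with h | h
  · have : p ^ (2 ^ (i + 1)) ≤ p ^ (2 ^ j) :=
      Nat.pow_le_pow_right hi.1.pos (Nat.pow_le_pow_right (by norm_num) h)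
    omega
  · have : p ^ (2 ^ (j + 1)) ≤ p ^ (2 ^ i) :=
      Nat.pow_le_pow_right hi.1.pos (Nat.pow_le_pow_right (by norm_num) h)
    omega

/-- The number of relevant blocks. -/
def nblocks (z : ℕ) : ℕ := Nat.log 2 (Nat.log 2 z) + 1

lemma block_index_lt {K z j p : ℕ} (h : p ∈ block K z j) : j < nblocks z := by
  rw [mem_block] at h
  have h1 : 2 ^ (2 ^ j) ≤ z := (Nat.pow_le_pow_left h.1.two_le _).trans h.2.2.1
  have hz : z ≠ 0 := by
    rintro rfl
    have : 0 < 2 ^ (2 ^ j) := by positivity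
    omega
  have h2 : 2 ^ j ≤ Nat.log 2 z := Nat.le_log_of_pow_le (by norm_num) h1
  have h3 : Nat.log 2 z ≠ 0 := by
    have : 0 < 2 ^ j := by positivity
    omega
  have h4 : j ≤ Nat.log 2 (Nat.log 2 z) := Nat.le_log_of_pow_le (by norm_num) h2
  unfold nblocks
  omega

lemma exists_block {K z p : ℕ} (hp : p.Prime) (hK : K < p) (hz : p ≤ z) :
    ∃ j ∈ range (nblocks z), p ∈ block K z j := by
  -- the largest `j` with `p ^ (2 ^ j) ≤ z`
  have hex : ∃ j, z < p ^ (2 ^ (j + 1)) := by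
    refine ⟨z, ?_⟩
    calc z < 2 ^ z := Nat.lt_two_pow_self
      _ ≤ p ^ z := Nat.pow_le_pow_left hp.two_le z
      _ ≤ p ^ (2 ^ (z + 1)) := Nat.pow_le_pow_right hp.pos
          ((Nat.lt_two_pow_self (n := z)).le.trans
            (Nat.pow_le_pow_right (by norm_num) (Nat.le_succ z)))
  classical
  set j := Nat.find hex with hj
  have h1 : z < p ^ (2 ^ (j + 1)) := Nat.find_spec hex
  have h2 : p ^ (2 ^ j) ≤ z := by
    rcases Nat.eq_zero_or_pos j with h0 | h0
    · rw [h0]; simpa using hz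
    · have := Nat.find_min hex (m := j - 1) (by omega)
      rw [not_lt] at this
      rwa [show j - 1 + 1 = j by omega] at this
  have hmem : p ∈ block K z j := mem_block.mpr ⟨hp, hK, h2, h1⟩
  exact ⟨j, mem_range.mpr (block_index_lt hmem), hmem⟩

lemma block_lt_sq {K z j p q : ℕ} (hp : p ∈ block K z j) (hq : q ∈ block K z j) : p < q ^ 2 := by
  rw [mem_block] at hp hq
  have h1 : p ^ (2 ^ j) < (q ^ 2) ^ (2 ^ j) := by
    calc p ^ (2 ^ j) ≤ z := hp.2.2.1
      _ < q ^ (2 ^ (j + 1)) := hq.2.2.2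
      _ = (q ^ 2) ^ (2 ^ j) := by rw [← pow_mul, pow_succ]; ring_nf
  exact lt_of_pow_lt_pow_left₀ _ (Nat.zero_le _) h1

lemma sum_inv_block' (K z j : ℕ) : ∑ p ∈ block K z j, (1 : ℝ) / p ≤ 12 :=
  sum_inv_block _ (fun _ hp => (mem_block.mp hp).1) fun _ hp _ hq => block_lt_sq hp hq

/-- The primes in `(K, z]`. -/
def pr (K z : ℕ) : Finset ℕ := (range (z + 1)).filter fun p => p.Prime ∧ K < p

lemma mem_pr {K z p : ℕ} : p ∈ pr K z ↔ p.Prime ∧ K < p ∧ p ≤ z := by
  unfold pr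
  rw [mem_filter, mem_range]
  constructor
  · rintro ⟨h1, h2, h3⟩; exact ⟨h2, h3, by omega⟩
  · rintro ⟨h1, h2, h3⟩; exact ⟨by omega, h1, h2⟩

lemma pr_eq_biUnion (K z : ℕ) : pr K z = (range (nblocks z)).biUnion (block K z) := by
  ext p
  rw [mem_pr, mem_biUnion]
  constructor
  · rintro ⟨h1, h2, h3⟩; exact exists_block h1 h2 h3
  · rintro ⟨j, _, hj⟩
    rw [mem_block] at hj
    refine ⟨hj.1, hj.2.1, ?_⟩
    have : p ≤ p ^ (2 ^ j) := Nat.le_self_pow (by positivity) p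
    omega

lemma prod_pr {β : Type*} [CommMonoid β] (K z : ℕ) (f : ℕ → β) :
    ∏ p ∈ pr K z, f p = ∏ j ∈ range (nblocks z), ∏ p ∈ block K z j, f p := by
  rw [pr_eq_biUnion, Finset.prod_biUnion]
  intro i _ j _ hij
  exact block_disjoint K z hij

lemma sum_pr {β : Type*} [AddCommMonoid β] (K z : ℕ) (f : ℕ → β) :
    ∑ p ∈ pr K z, f p = ∑ j ∈ range (nblocks z), ∑ p ∈ block K z j, f p := by
  rw [pr_eq_biUnion, Finset.sum_biUnion]
  intro i _ j _ hij
  exact block_disjoint K z hij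

lemma sum_inv_pr (K z : ℕ) : ∑ p ∈ pr K z, (1 : ℝ) / p ≤ 12 * nblocks z := by
  rw [sum_pr]
  calc _ ≤ ∑ j ∈ range (nblocks z), (12 : ℝ) := Finset.sum_le_sum fun j _ => sum_inv_block' K z j
    _ = _ := by rw [Finset.sum_const, card_range, nsmul_eq_mul]; ring

end Pool.Agent.Lib.Helper57
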