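import Mathlib
import Pool.Agent.Lib.Helper57.Transfer
import Pool.Agent.Lib.Helper57.Count
import Pool.Agent.Lib.Helper57.PrimeSums

/-!
A fundamental lemma for the sieve of dimension `k`, uniform in `k`.
-/

open Finset

namespace Pool.Agent.Lib.Helper57

/-- The sieve density. -/
noncomputable def dens (A : Finset ℕ) (K z : ℕ) : ℝ := ∏ p ∈ pr K z, (1 - (nu A p : ℝ) / p)

lemma one_sub_ge_exp {g : ℝ} (h0 : 0 ≤ g) (h1 : g ≤ 1 / 2) : Real.exp (-(2 * g)) ≤ 1 - g := by
  rw [Real.exp_neg, inv_le_comm₀ (Real.exp_pos _) (by linarith)]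
  have h2 := Real.add_one_le_exp (2 * g)
  refine le_trans ?_ h2
  rw [inv_le_iff_one_le_mul₀ (by linarith)]
  nlinarith

lemma g_bound {A : Finset ℕ} {k K p : ℕ} (hAk : A.card ≤ k) (hK : 2 * k ≤ K) (hp : K < p) :
    0 ≤ (nu A p : ℝ) / p ∧ (nu A p : ℝ) / p ≤ 1 / 2 := by
  have hp0 : 0 < p := by omega
  have hp0' : (0 : ℝ) < p := by exact_mod_cast hp0
  refine ⟨by positivity, ?_⟩
  rw [div_le_div_iff₀ hp0' (by norm_num)]
  have h1 := nu_le_card A p
  have h2 : nu A p * 2 ≤ 1 * p := by omega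
  exact_mod_cast h2

lemma sum_g_le {A : Finset ℕ} {k : ℕ} (hAk : A.card ≤ k) (S : Finset ℕ) :
    ∑ p ∈ S, (nu A p : ℝ) / p ≤ k * ∑ p ∈ S, (1 : ℝ) / p := by
  rw [Finset.mul_sum]
  apply Finset.sum_le_sum
  intro p _
  have h1 : (nu A p : ℝ) ≤ k := by exact_mod_cast (nu_le_card A p).trans hAk
  calc (nu A p : ℝ) / p ≤ k / p := by gcongr
    _ = _ := by ring

lemma prod_one_sub_ge {A : Finset ℕ} {k K : ℕ} (hAk : A.card ≤ k) (hK : 2 * k ≤ K)
    (S : Finset ℕ) (hS : ∀ p ∈ S, K < p) :
    Real.exp (-(2 * (k * ∑ p ∈ S, (1 : ℝ) / p))) ≤ ∏ p ∈ S, (1 - (nu A p : ℝ) / p) := by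
  calc Real.exp (-(2 * (k * ∑ p ∈ S, (1 : ℝ) / p)))
      ≤ Real.exp (-(2 * ∑ p ∈ S, (nu A p : ℝ) / p)) := by
        apply Real.exp_le_exp.mpr
        have := sum_g_le hAk S
        linarith
    _ = ∏ p ∈ S, Real.exp (-(2 * ((nu A p : ℝ) / p))) := by
        rw [← Real.exp_sum, Finset.mul_sum, Finset.sum_neg_distrib]
    _ ≤ _ := Finset.prod_le_prod (fun _ _ => (Real.exp_pos _).le) fun p hp =>
        one_sub_ge_exp (g_bound hAk hK (hS p hp)).1 (g_bound hAk hK (hS p hp)).2

lemma dens_ge {A : Finset ℕ} {k K : ℕ} (hAk : A.card ≤ k) (hK : 2 * k ≤ K) (z : ℕ) :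
    Real.exp (-(24 * k * nblocks z)) ≤ dens A K z := by
  refine le_trans ?_ (prod_one_sub_ge hAk hK (pr K z) fun p hp => (mem_pr.mp hp).2.1)
  apply Real.exp_le_exp.mpr
  have h1 := sum_inv_pr K z
  have h2 : (0 : ℝ) ≤ k := Nat.cast_nonneg k
  nlinarith

lemma dens_nonneg {A : Finset ℕ} {k K : ℕ} (hAk : A.card ≤ k) (hK : 2 * k ≤ K) (z : ℕ) :
    0 ≤ dens A K z := (Real.exp_pos _).le.trans (dens_ge hAk hK z)

lemma dens_le_one {A : Finset ℕ} {k K : ℕ} (hAk : A.card ≤ k) (hK : 2 * k ≤ K) (z : ℕ) :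
    dens A K z ≤ 1 := by
  unfold dens
  apply Finset.prod_le_one
  · intro p hp
    have := (g_bound hAk hK (mem_pr.mp hp).2.1).2
    linarith
  · intro p hp
    have := (g_bound hAk hK (mem_pr.mp hp).2.1).1
    linarith

/-- Truncation levels. -/
def lev (k j : ℕ) : ℕ := 2 * (100 * k + j)

lemma sum_lev (k J : ℕ) : ∑ j ∈ range J, (lev k j : ℝ) / 2 ^ j ≤ 400 * k + 4 := by
  have h : ∑ j ∈ range J, (lev k j : ℝ) / 2 ^ j = 400 * k + 4 - (400 * k + 4 * J + 4) / 2 ^ J := by
    induction J with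
    | zero => simp
    | succ J ih =>
      rw [Finset.sum_range_succ, ih]
      unfold lev
      push_cast
      rw [pow_succ]
      field_simp
      ring
  rw [h]
  have : (0 : ℝ) ≤ (400 * k + 4 * J + 4) / 2 ^ J := by positivity
  linarith

lemma E_block_le {A : Finset ℕ} {k K : ℕ} (hk : 1 ≤ k) (hAk : A.card ≤ k) (hK : 2 * k ≤ K)
    (z j : ℕ) : E (block K z j) (lev k j) (fun p => (nu A p : ℝ) / p) ≤
      (1 / 200) * (1 / 2) ^ j * V (block K z j) (fun p => (nu A p : ℝ) / p) := by
  have hk' : (1 : ℝ) ≤ k := by exact_mod_cast hk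
  have hg : ∀ p ∈ block K z j, 0 ≤ (nu A p : ℝ) / p := fun p hp => by positivity
  have h1 := E_le hg (lev k j)
  have hσ : ∑ p ∈ block K z j, (nu A p : ℝ) / p ≤ 12 * k := by
    have := sum_g_le hAk (block K z j)
    have := sum_inv_block' K z j
    nlinarith
  have hσ0 : 0 ≤ ∑ p ∈ block K z j, (nu A p : ℝ) / p := Finset.sum_nonneg hg
  set t := lev k j with ht
  have ht200 : (200 * k : ℝ) ≤ t := by
    rw [ht]; unfold lev; push_cast; nlinarith [(Nat.cast_nonneg j : (0 : ℝ) ≤ j)]
  have htpos : (0 : ℝ) < t := by linarith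
  -- first bound
  have h2 : (∑ p ∈ block K z j, (nu A p : ℝ) / p) ^ t / (t.factorial : ℝ) ≤ Real.exp (-t) := by
    have h3 : (t : ℝ) ^ t / t.factorial ≤ Real.exp t :=
      Real.pow_div_factorial_le_exp (t : ℝ) htpos.le t
    have hratio : 12 * (k : ℝ) / t ≤ Real.exp (-2) := by
      rw [div_le_iff₀ htpos]
      have he : (0.08 : ℝ) ≤ Real.exp (-2) := by
        rw [show (-2 : ℝ) = -(1 + 1) by norm_num, Real.exp_neg, Real.exp_add]
        have h := Real.exp_one_lt_d9
        have h0 := Real.exp_pos 1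
        rw [le_inv_comm₀ (by norm_num) (by positivity)]
        have : Real.exp 1 * Real.exp 1 ≤ 2.72 * 2.72 :=
          mul_le_mul (by linarith) (by linarith) h0.le (by norm_num)
        refine this.trans (by norm_num)
      nlinarith
    have h4 : (12 * (k : ℝ)) ^ t / t.factorial = (12 * k / t) ^ t * (t ^ t / t.factorial) := by
      rw [div_pow]; field_simp
    calc (∑ p ∈ block K z j, (nu A p : ℝ) / p) ^ t / (t.factorial : ℝ)
        ≤ (12 * (k : ℝ)) ^ t / t.factorial := by gcongr
      _ = (12 * k / t) ^ t * (t ^ t / t.factorial) := h4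
      _ ≤ (Real.exp (-2)) ^ t * Real.exp t := by
          apply mul_le_mul _ h3 (by positivity) (by positivity)
          exact pow_le_pow_left₀ (by positivity) hratio t
      _ = Real.exp (-t) := by
          rw [← Real.exp_nat_mul, ← Real.exp_add]; congr 1; ring
  have h3 : Real.exp (-(24 * k)) ≤ V (block K z j) (fun p => (nu A p : ℝ) / p) := by
    unfold V
    refine le_trans ?_ (prod_one_sub_ge hAk hK (block K z j) fun p hp => (mem_block.mp hp).2.1)
    apply Real.exp_le_exp.mpr
    have := sum_inv_block' K z j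
    nlinarith
  have h4 : Real.exp (-t) ≤ (1 / 200) * (1 / 2) ^ j * Real.exp (-(24 * k)) := by
    have e1 : Real.exp (-(t : ℝ)) = Real.exp (-(176 * k)) * Real.exp (-2) ^ j *
        Real.exp (-(24 * k)) := by
      rw [← Real.exp_nat_mul, ← Real.exp_add, ← Real.exp_add]
      congr 1
      rw [ht]; unfold lev; push_cast; ring
    rw [e1]
    have e2 : Real.exp (-(176 * (k : ℝ))) ≤ 1 / 200 := by
      rw [Real.exp_neg, one_div]
      apply inv_anti₀ (by norm_num)
      have h5 := Real.add_one_le_exp (88 * (k : ℝ))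
      have h6 : Real.exp (176 * k) = Real.exp (88 * k) * Real.exp (88 * k) := by
        rw [← Real.exp_add]; congr 1; ring
      rw [h6]
      nlinarith
    have e3 : Real.exp (-2) ^ j ≤ (1 / 2) ^ j := by
      apply pow_le_pow_left₀ (Real.exp_pos _).le
      rw [Real.exp_neg, one_div]
      apply inv_anti₀ (by norm_num)
      have := Real.add_one_le_exp (2 : ℝ)
      linarith
    have e4 := mul_le_mul e2 e3 (by positivity) (by norm_num)
    exact mul_le_mul_of_nonneg_right e4 (Real.exp_pos _).le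
  calc _ ≤ Real.exp (-t) := h1.trans h2
    _ ≤ (1 / 200) * (1 / 2) ^ j * Real.exp (-(24 * k)) := h4
    _ ≤ _ := mul_le_mul_of_nonneg_left h3 (by positivity)

/-- The mass of one block. -/
lemma one_add_sum_nu_le {A : Finset ℕ} {k K : ℕ} (hk : 1 ≤ k) (hAk : A.card ≤ k)
    (hK : 2 * k ≤ K) {z : ℕ} (hz : 2 ≤ z) (j : ℕ) :
    Real.log (1 + ∑ p ∈ block K z j, (nu A p : ℝ)) ≤ 3 * Real.log z / 2 ^ j := by
  have hz' : (2 : ℝ) ≤ z := by exact_mod_cast hz
  have hlogz : 0 ≤ Real.log z := Real.log_nonneg (by linarith)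
  rcases (block K z j).eq_empty_or_nonempty with he | hne
  · rw [he]; simp; positivity
  · set q := (block K z j).max' hne with hq
    have hqm : q ∈ block K z j := (block K z j).max'_mem hne
    obtain ⟨hqp, hqK, hqz, _⟩ := mem_block.mp hqm
    have hq2 : 2 ≤ q := hqp.two_le
    have hcard : (block K z j).card ≤ q := by
      have : block K z j ⊆ Icc 1 q := by
        intro p hp
        rw [mem_Icc]
        exact ⟨(mem_block.mp hp).1.pos, (block K z j).le_max' p hp⟩
      calc _ ≤ (Icc 1 q).card := card_le_card this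
        _ = q := by simp
    have h1 : ∑ p ∈ block K z j, nu A p ≤ q * q := by
      calc ∑ p ∈ block K z j, nu A p ≤ ∑ p ∈ block K z j, q := by
            apply Finset.sum_le_sum
            intro p _
            have := nu_le_card A p
            omega
        _ = (block K z j).card * q := by rw [Finset.sum_const, smul_eq_mul]
        _ ≤ q * q := Nat.mul_le_mul_right q hcard
    have h2 : 1 + ∑ p ∈ block K z j, nu A p ≤ q ^ 3 := by
      have : 1 + q * q ≤ q ^ 3 := by nlinarith [Nat.mul_le_mul hq2 (le_refl (q * q))]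
      omega
    have h3 : (1 + ∑ p ∈ block K z j, (nu A p : ℝ)) ≤ (q : ℝ) ^ 3 := by exact_mod_cast h2
    have h0 : (0 : ℝ) < 1 + ∑ p ∈ block K z j, (nu A p : ℝ) := by positivity
    have hq0 : (0 : ℝ) < q := by exact_mod_cast hqp.pos
    calc Real.log (1 + ∑ p ∈ block K z j, (nu A p : ℝ)) ≤ Real.log ((q : ℝ) ^ 3) :=
          Real.log_le_log h0 h3
      _ = 3 * Real.log q := by rw [Real.log_pow]; norm_num
      _ ≤ 3 * (Real.log z / 2 ^ j) := by
          apply mul_le_mul_of_nonneg_left _ (by norm_num)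
          rw [le_div_iff₀ (by positivity)]
          have h4 : Real.log ((q : ℝ) ^ (2 ^ j)) ≤ Real.log z :=
            Real.log_le_log (by positivity) (by exact_mod_cast hqz)
          rw [Real.log_pow] at h4
          push_cast at h4
          linarith
      _ = _ := by ring

lemma nblocks_add_one_le {z : ℕ} (hz : 2 ≤ z) : nblocks z + 1 ≤ z := by
  unfold nblocks
  have h1 : Nat.log 2 z < z := Nat.log_lt_self 2 (by omega)
  have h2 : 0 < Nat.log 2 z := Nat.log_pos (by norm_num) hz
  have h3 : Nat.log 2 (Nat.log 2 z) < Nat.log 2 z := Nat.log_lt_self 2 (by omega)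
  omega

open Classical in
/-- The concrete sieve data. -/
noncomputable def sd {A : Finset ℕ} {k K z : ℕ} (hAk : A.card ≤ k) (hK : 2 * k ≤ K)
    (r Q M : ℕ) (hQ : ∀ p ∈ pr K z, ¬ p ∣ Q) : SieveData ℕ ℕ ℕ where
  J := range (nblocks z)
  P := block K z
  t := lev k
  Ω := range M
  B := fun m => (pr K z).filter fun p => Bad A r Q p m
  X := M
  g := fun p => (nu A p : ℝ) / p
  ν := fun p => nu A p
  X_nonneg := Nat.cast_nonneg M
  even := fun j _ => by unfold lev; exact even_two_mul _
  disj := fun i _ j _ hij => block_disjoint K z hij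
  g_bd := fun j _ p hp => by
    have := g_bound hAk hK (mem_block.mp hp).2.1
    exact ⟨this.1, this.2.trans (by norm_num)⟩
  ν_nonneg := fun _ _ _ _ => Nat.cast_nonneg _
  count := fun S hS => by
    have hmem : ∀ p ∈ S, p ∈ pr K z := by
      intro p hp
      rw [pr_eq_biUnion, mem_biUnion]
      exact hS p hp
    have h1 := abs_cnt_bad_sub A r Q S (fun p hp =>
      ⟨(mem_pr.mp (hmem p hp)).1, hQ p (hmem p hp)⟩) M
    have h2 : ((range M).filter fun m => S ⊆ (pr K z).filter fun p => Bad A r Q p m).card =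
        cnt (fun m => ∀ p ∈ S, Bad A r Q p m) M := by
      rw [cnt_eq]
      congr 1
      apply Finset.filter_congr
      intro m _
      constructor
      · intro h p hp; exact (mem_filter.mp (h hp)).2
      · intro h p hp; exact mem_filter.mpr ⟨hmem p hp, h p hp⟩
    rw [h2]
    exact h1

/-- The unsieved elements. -/
def Free (A : Finset ℕ) (r Q K z m : ℕ) : Prop := ∀ p ∈ pr K z, ¬ Bad A r Q p m

/-- **Uniform fundamental lemma.** -/
theorem uniform_sieve {A : Finset ℕ} {k K z : ℕ} (hk : 1 ≤ k) (hAk : A.card ≤ k)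
    (hK : 2 * k ≤ K) (hz : 2 ≤ z) (r Q M : ℕ) (hQ : ∀ p ∈ pr K z, ¬ p ∣ Q) :
    0.98 * (M * dens A K z) - (z : ℝ) ^ (1213 * k) ≤ cnt (Free A r Q K z) M ∧
    (cnt (Free A r Q K z) M : ℝ) ≤ 1.02 * (M * dens A K z) + (z : ℝ) ^ (1213 * k) := by
  classical
  set D := sd hAk hK r Q M hQ with hD
  have hz' : (2 : ℝ) ≤ z := by exact_mod_cast hz
  have hcard : (good D.J D.P D.Ω D.B).card = cnt (Free A r Q K z) M := by
    rw [cnt_eq]
    unfold good
    congr 1
    apply Finset.filter_congr
    intro m _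
    unfold Free
    constructor
    · intro h p hp hbad
      have hp' := hp
      rw [pr_eq_biUnion, mem_biUnion] at hp
      obtain ⟨j, hj, hpj⟩ := hp
      exact h j hj p hpj (mem_filter.mpr ⟨hp', hbad⟩)
    · intro h j hj p hpj hmem
      rw [hD] at hmem
      simp only [sd, mem_filter] at hmem
      exact h p hmem.1 hmem.2
  have hW : D.W = dens A K z := by
    unfold SieveData.W dens
    rw [prod_pr]
    rfl
  have hε : ∑ j ∈ D.J, (1 / 200 : ℝ) * (1 / 2) ^ j ≤ 1 / 100 := by
    rw [← Finset.mul_sum]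
    have : ∑ j ∈ D.J, (1 / 2 : ℝ) ^ j ≤ 2 := by
      have h := geom_sum_eq (x := (1 / 2 : ℝ)) (by norm_num) (nblocks z)
      have h' : D.J = range (nblocks z) := rfl
      rw [h', h]
      have : (0 : ℝ) ≤ (1 / 2) ^ (nblocks z) := by positivity
      rw [div_le_iff_of_neg (by norm_num)]
      linarith
    linarith
  obtain ⟨hlow, hup⟩ := D.main (ε := fun j => (1 / 200 : ℝ) * (1 / 2) ^ j) (η := 1 / 100)
    (fun j _ => by positivity) (fun j _ => E_block_le hk hAk hK z j) hε
  rw [hcard, hW] at hlow hup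
  have hX : D.X = M := rfl
  rw [hX] at hlow hup
  have hexp : Real.exp (1 / 100) ≤ 1.02 := by
    have h := Real.exp_bound' (x := 1 / 100) (by norm_num) (by norm_num) (n := 2) (by norm_num)
    refine h.trans ?_
    norm_num [Finset.sum_range_succ, Nat.factorial]
  -- the error term
  have hN : D.N ≤ (z : ℝ) ^ (1212 * k) := by
    have h1 : D.N ≤ ∏ j ∈ range (nblocks z), (1 + ∑ p ∈ block K z j, (nu A p : ℝ)) ^ (lev k j) := by
      unfold SieveData.N
      apply Finset.prod_le_prod
      · intro j _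
        apply Finset.sum_nonneg
        intro S _
        apply Finset.prod_nonneg
        intro p _
        exact Nat.cast_nonneg _
      · intro j _
        exact sum_small_le (fun p _ => Nat.cast_nonneg _) _
    refine h1.trans ?_
    have hpos : ∀ j, (0 : ℝ) < 1 + ∑ p ∈ block K z j, (nu A p : ℝ) := fun j => by positivity
    rw [← Real.log_le_log_iff (Finset.prod_pos fun j _ => pow_pos (hpos j) _) (by positivity),
      Real.log_prod (fun j _ => (pow_pos (hpos j) _).ne')]
    have h2 : ∑ j ∈ range (nblocks z),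
        Real.log ((1 + ∑ p ∈ block K z j, (nu A p : ℝ)) ^ (lev k j)) ≤
        ∑ j ∈ range (nblocks z), 3 * Real.log z * ((lev k j : ℝ) / 2 ^ j) := by
      apply Finset.sum_le_sum
      intro j _
      rw [Real.log_pow]
      have := one_add_sum_nu_le hk hAk hK hz j
      calc (lev k j : ℝ) * Real.log (1 + ∑ p ∈ block K z j, (nu A p : ℝ))
          ≤ (lev k j : ℝ) * (3 * Real.log z / 2 ^ j) := by gcongr
        _ = _ := by ring
    refine h2.trans ?_
    rw [← Finset.mul_sum, Real.log_pow]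
    have h3 := sum_lev k (nblocks z)
    have hlogz : 0 ≤ Real.log z := Real.log_nonneg (by linarith)
    have hk' : (1 : ℝ) ≤ k := by exact_mod_cast hk
    push_cast
    nlinarith
  have hN0 : 0 ≤ D.N := by
    unfold SieveData.N
    apply Finset.prod_nonneg
    intro j _
    apply Finset.sum_nonneg
    intro S _
    apply Finset.prod_nonneg
    intro p _
    exact Nat.cast_nonneg _
  have hJ : ((D.J.card : ℝ) + 1) ≤ z := by
    have : D.J.card = nblocks z := card_range _
    rw [this]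
    exact_mod_cast nblocks_add_one_le hz
  have hpow : (z : ℝ) * (z : ℝ) ^ (1212 * k) ≤ (z : ℝ) ^ (1213 * k) := by
    rw [← pow_succ']
    apply pow_le_pow_right₀ (by linarith)
    omega
  have hMd : 0 ≤ (M : ℝ) * dens A K z := mul_nonneg (Nat.cast_nonneg M) (dens_nonneg hAk hK z)
  constructor
  · refine le_trans ?_ hlow
    have h1 : ((D.J.card : ℝ) + 1) * D.N ≤ (z : ℝ) ^ (1213 * k) :=
      (mul_le_mul hJ hN hN0 (by linarith)).trans hpow
    nlinarith
  · refine hup.trans ?_
    have h1 : D.N ≤ (z : ℝ) ^ (1213 * k) := hN.trans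
      (pow_le_pow_right₀ (by linarith) (by omega))
    nlinarith

end Pool.Agent.Lib.Helper57
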