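import Mathlib
import Pool.Agent.Lib.Helper57.Mertens
import Pool.Agent.Lib.Helper57.Sieve

/-!
# Counting primes and pairs of primes in short intervals, and moments of `h / φ(h)`
-/

namespace Pool.Agent.Lib.Helper57

open Finset Pool.Agent.Lib.Sieve

/-- `h / φ(h)`, written as a product over the prime factors. -/
noncomputable def G (h : ℕ) : ℝ := ∏ p ∈ h.primeFactors, (1 - 1 / (p : ℝ))⁻¹

lemma inv_one_sub_ge_one {p : ℕ} (hp : 2 ≤ p) : 1 ≤ (1 - 1 / (p : ℝ))⁻¹ := by
  have hp2 : (2 : ℝ) ≤ p := by exact_mod_cast hp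
  have h2 : (1 : ℝ) / p ≤ 1 / 2 := one_div_le_one_div_of_le (by norm_num) hp2
  have h3 : 0 < 1 - 1 / (p : ℝ) := by linarith
  rw [one_le_inv₀ h3]
  have : (0 : ℝ) ≤ 1 / p := by positivity
  linarith

lemma one_le_G (h : ℕ) : 1 ≤ G h := by
  unfold G
  apply Finset.one_le_prod
  intro p hp
  exact inv_one_sub_ge_one (Nat.prime_of_mem_primeFactors hp).two_le

lemma moment_le (k N : ℕ) (hk : 1 ≤ k) :
    ∑ h ∈ Finset.Icc 1 N, G h ^ k ≤ 3 * (N * (500 * Real.log (2 * k : ℕ)) ^ k) := by
  have hk' : (1 : ℝ) ≤ k := by exact_mod_cast hk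
  set f : ℕ → ℝ := fun p => if p.Prime then ((1 - 1 / (p : ℝ))⁻¹) ^ k - 1 else 0 with hf
  have hf0 : ∀ p, 0 ≤ f p := by
    intro p
    simp only [hf]
    split_ifs with hp
    · have := one_le_pow₀ (n := k) (inv_one_sub_ge_one hp.two_le)
      linarith
    · exact le_rfl
  have h1 : ∀ h ∈ Finset.Icc 1 N, G h ^ k = ∏ p ∈ h.primeFactors, (1 + f p) := by
    intro h _
    unfold G
    rw [← Finset.prod_pow]
    apply Finset.prod_congr rfl
    intro p hp
    have := Nat.prime_of_mem_primeFactors hp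
    simp only [hf, if_pos this]
    ring
  rw [Finset.sum_congr rfl h1]
  refine (sum_prod_primeFactors_le f hf0 N).trans ?_
  -- split the primes at `2 k`
  have h2 : ∏ p ∈ primesUpTo N, (1 + f p / p) =
      (∏ p ∈ (primesUpTo N).filter (fun p => p ≤ 2 * k), (1 + f p / p)) *
      ∏ p ∈ (primesUpTo N).filter (fun p => ¬ p ≤ 2 * k), (1 + f p / p) :=
    (Finset.prod_filter_mul_prod_filter_not _ _ _).symm
  have h3 : ∏ p ∈ (primesUpTo N).filter (fun p => p ≤ 2 * k), (1 + f p / p) ≤
      (500 * Real.log (2 * k : ℕ)) ^ k := by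
    calc ∏ p ∈ (primesUpTo N).filter (fun p => p ≤ 2 * k), (1 + f p / p)
        ≤ ∏ p ∈ primesUpTo (2 * k), (1 + f p / p) := by
          apply Finset.prod_le_prod_of_subset_of_one_le
          · intro p hp
            rw [mem_filter, mem_primesUpTo] at hp
            rw [mem_primesUpTo]
            exact ⟨hp.1.1, hp.2⟩
          · intro p _
            have := hf0 p
            positivity
          · intro p _ _
            have := hf0 p
            have : 0 ≤ f p / p := by positivity
            linarith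
      _ ≤ ∏ p ∈ primesUpTo (2 * k), ((1 - 1 / (p : ℝ))⁻¹) ^ k := by
          apply Finset.prod_le_prod
          · intro p _
            have := hf0 p
            positivity
          · intro p hp
            have hpp := (mem_primesUpTo.mp hp).1
            have hp1 : (1 : ℝ) ≤ p := by exact_mod_cast hpp.one_le
            have h4 : f p / p ≤ f p := div_le_self (hf0 p) hp1
            have h5 : f p = ((1 - 1 / (p : ℝ))⁻¹) ^ k - 1 := by simp only [hf, if_pos hpp]
            linarith
      _ = (∏ p ∈ primesUpTo (2 * k), (1 - 1 / (p : ℝ))⁻¹) ^ k := Finset.prod_pow _ _ _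
      _ ≤ (500 * Real.log (2 * k : ℕ)) ^ k := by
          apply pow_le_pow_left₀
          · apply Finset.prod_nonneg
            intro p hp
            exact zero_le_one.trans (inv_one_sub_ge_one (mem_primesUpTo.mp hp).1.two_le)
          · exact prod_one_sub_inv_inv_le (2 * k) (by omega)
  have h4 : ∏ p ∈ (primesUpTo N).filter (fun p => ¬ p ≤ 2 * k), (1 + f p / p) ≤ 3 := by
    calc ∏ p ∈ (primesUpTo N).filter (fun p => ¬ p ≤ 2 * k), (1 + f p / p)
        ≤ ∏ p ∈ (primesUpTo N).filter (fun p => ¬ p ≤ 2 * k),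
            Real.exp (2 * k * (1 / (p : ℝ) ^ 2)) := by
          apply Finset.prod_le_prod
          · intro p _
            have := hf0 p
            positivity
          · intro p hp
            rw [mem_filter, mem_primesUpTo] at hp
            obtain ⟨⟨hpp, _⟩, hpk⟩ := hp
            push Not at hpk
            have hpk' : (2 * k : ℝ) < p := by exact_mod_cast hpk
            have hp0 : (0 : ℝ) < p := by exact_mod_cast hpp.pos
            -- Bernoulli
            have h5 : 1 - k / (p : ℝ) ≤ (1 - 1 / (p : ℝ)) ^ k := by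
              have h6 : (1 : ℝ) / p ≤ 1 := by
                rw [div_le_one hp0]; linarith
              have := one_add_mul_le_pow (a := -(1 / (p : ℝ))) (by linarith) k
              calc 1 - k / (p : ℝ) = 1 + k * (-(1 / (p : ℝ))) := by ring
                _ ≤ (1 + -(1 / (p : ℝ))) ^ k := this
                _ = _ := by ring_nf
            have h6 : (k : ℝ) / p ≤ 1 / 2 := by
              rw [div_le_div_iff₀ hp0 (by norm_num)]; linarith
            have h7 : 0 < 1 - (k : ℝ) / p := by linarith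
            have h8 : ((1 - 1 / (p : ℝ))⁻¹) ^ k ≤ 1 + 2 * (k / p) := by
              rw [inv_pow]
              calc ((1 - 1 / (p : ℝ)) ^ k)⁻¹ ≤ (1 - (k : ℝ) / p)⁻¹ := by
                    apply inv_anti₀ h7 h5
                _ ≤ 1 + 2 * (k / p) := by
                    rw [inv_le_iff_one_le_mul₀ h7]
                    have : 0 ≤ (k : ℝ) / p := by positivity
                    nlinarith
            have h9 : f p ≤ 2 * (k / p) := by
              have : f p = ((1 - 1 / (p : ℝ))⁻¹) ^ k - 1 := by simp only [hf, if_pos hpp]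
              linarith
            calc 1 + f p / p ≤ 1 + 2 * k * (1 / (p : ℝ) ^ 2) := by
                  have : f p / p ≤ 2 * (k / p) / p := by gcongr
                  have h10 : 2 * ((k : ℝ) / p) / p = 2 * k * (1 / (p : ℝ) ^ 2) := by
                    field_simp
                  linarith
              _ ≤ _ := by
                  have := Real.add_one_le_exp (2 * k * (1 / (p : ℝ) ^ 2))
                  linarith
      _ = Real.exp (2 * k * ∑ p ∈ (primesUpTo N).filter (fun p => ¬ p ≤ 2 * k),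
            1 / (p : ℝ) ^ 2) := by
          rw [← Real.exp_sum, Finset.mul_sum]
      _ ≤ Real.exp 1 := by
          apply Real.exp_le_exp.mpr
          have h5 := sum_inv_sq_primes_le ((primesUpTo N).filter (fun p => ¬ p ≤ 2 * k)) (2 * k)
            (by omega) (fun p hp => by
              have := (mem_filter.mp hp).2
              omega)
          push_cast at h5
          calc 2 * (k : ℝ) * ∑ p ∈ (primesUpTo N).filter (fun p => ¬ p ≤ 2 * k), 1 / (p : ℝ) ^ 2
              ≤ 2 * k * (1 / (2 * k)) := by gcongr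
            _ = 1 := by field_simp
      _ ≤ 3 := by linarith [Real.exp_one_lt_d9]
  rw [h2]
  have hlog : 0 ≤ Real.log (2 * k : ℕ) := Real.log_natCast_nonneg _
  calc (N : ℝ) * ((∏ p ∈ (primesUpTo N).filter (fun p => p ≤ 2 * k), (1 + f p / p)) *
      ∏ p ∈ (primesUpTo N).filter (fun p => ¬ p ≤ 2 * k), (1 + f p / p))
      ≤ N * ((500 * Real.log (2 * k : ℕ)) ^ k * 3) := by
        gcongr
        apply Finset.prod_nonneg
        intro p _
        have := hf0 p
        positivity
    _ = _ := by ring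

/-! ### Densities -/

lemma primesUpTo_eq (z : ℕ) (hz : 3 ≤ z) : primesUpTo z = insert 2 (insert 3 (pr 4 z)) := by
  ext p
  rw [mem_primesUpTo, mem_insert, mem_insert, mem_pr]
  constructor
  · rintro ⟨hp, hpz⟩
    by_cases h4 : 4 < p
    · exact Or.inr (Or.inr ⟨hp, h4, hpz⟩)
    · have := hp.two_le
      have h : p = 2 ∨ p = 3 ∨ p = 4 := by omega
      rcases h with h | h | h
      · exact Or.inl h
      · exact Or.inr (Or.inl h)
      · subst h; norm_num at hp
  · rintro (h | h | ⟨hp, _, hpz⟩)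
    · subst h; exact ⟨Nat.prime_two, by omega⟩
    · subst h; exact ⟨Nat.prime_three, hz⟩
    · exact ⟨hp, hpz⟩

lemma prod_pr_le (z : ℕ) (hz : 3 ≤ z) :
    ∏ p ∈ pr 4 z, (1 - 1 / (p : ℝ)) ≤ 3 / Real.log z := by
  have h1 := prod_one_sub_inv_le z (by omega)
  rw [primesUpTo_eq z hz, Finset.prod_insert, Finset.prod_insert] at h1
  · have h2 : (3 : ℝ) / Real.log z = 3 * (1 / Real.log z) := by ring
    rw [h2]
    have h3 : (1 - 1 / ((2 : ℕ) : ℝ)) * ((1 - 1 / ((3 : ℕ) : ℝ)) * ∏ p ∈ pr 4 z, (1 - 1 / (p : ℝ)))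
        = 1 / 3 * ∏ p ∈ pr 4 z, (1 - 1 / (p : ℝ)) := by
      push_cast; ring
    rw [h3] at h1
    linarith
  · rw [mem_pr]; omega
  · rw [mem_insert, mem_pr]; omega

lemma dens_single_le (z : ℕ) (hz : 3 ≤ z) : dens {0} 4 z ≤ 3 / Real.log z := by
  refine le_trans (le_of_eq ?_) (prod_pr_le z hz)
  unfold dens
  apply Finset.prod_congr rfl
  intro p _
  have : nu {0} p = 1 := by
    unfold nu
    rw [Finset.image_singleton, Finset.card_singleton]
  rw [this]
  push_cast
  rfl

lemma dens_pair_le (h z : ℕ) (hh : 1 ≤ h) (hz : 3 ≤ z) :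
    dens {0, h} 4 z ≤ 9 * G h / (Real.log z) ^ 2 := by
  classical
  have hlog : 0 < Real.log z := Real.log_pos (by
    have : (3 : ℝ) ≤ z := by exact_mod_cast hz
    linarith)
  have hpr : ∀ p ∈ pr 4 z, 0 < 1 - 1 / (p : ℝ) := by
    intro p hp
    have hp2 : (2 : ℝ) ≤ p := by exact_mod_cast (mem_pr.mp hp).1.two_le
    have h2 : (1 : ℝ) / p ≤ 1 / 2 := one_div_le_one_div_of_le (by norm_num) hp2
    linarith
  have h1 : dens {0, h} 4 z ≤ ∏ p ∈ pr 4 z, ((1 - 1 / (p : ℝ)) ^ 2 *
      (if p ∣ h then (1 - 1 / (p : ℝ))⁻¹ else 1)) := by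
    unfold dens
    apply Finset.prod_le_prod
    · intro p hp
      have := (g_bound (A := {0, h}) (k := 2) (K := 4) Finset.card_le_two (by norm_num)
        (mem_pr.mp hp).2.1).2
      linarith
    · intro p hp
      obtain ⟨hpp, hp4, hpz⟩ := mem_pr.mp hp
      have hp0 : (0 : ℝ) < p := by exact_mod_cast hpp.pos
      split_ifs with hd
      · have h3 : nu {0, h} p = 1 := by
          unfold nu
          rw [Finset.image_insert, Finset.image_singleton, Nat.zero_mod,
            Nat.mod_eq_zero_of_dvd hd]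
          simp
        rw [h3, pow_two, mul_assoc, mul_inv_cancel₀ (hpr p hp).ne']
        push_cast
        rw [mul_one]
      · have h3 : nu {0, h} p = 2 := by
          unfold nu
          rw [Finset.image_insert, Finset.image_singleton, Nat.zero_mod,
            Finset.card_pair]
          intro h4
          exact hd (Nat.dvd_of_mod_eq_zero h4.symm)
        rw [h3, mul_one]
        push_cast
        have h4 : (1 - 1 / (p : ℝ)) ^ 2 = 1 - 2 / p + (1 / p) ^ 2 := by ring
        rw [h4]
        have : 0 ≤ (1 / (p : ℝ)) ^ 2 := by positivity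
        linarith
  refine h1.trans ?_
  rw [Finset.prod_mul_distrib, Finset.prod_pow]
  have h2 : ∏ p ∈ pr 4 z, (if p ∣ h then (1 - 1 / (p : ℝ))⁻¹ else 1) ≤ G h := by
    rw [← Finset.prod_filter]
    unfold G
    apply Finset.prod_le_prod_of_subset_of_one_le
    · intro p hp
      rw [mem_filter, mem_pr] at hp
      rw [Nat.mem_primeFactors]
      exact ⟨hp.1.1, hp.2, by omega⟩
    · intro p hp
      exact (inv_pos.mpr (hpr p (mem_filter.mp hp).1)).le
    · intro p hp _
      exact inv_one_sub_ge_one (Nat.prime_of_mem_primeFactors hp).two_le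
  have h3 : (∏ p ∈ pr 4 z, (1 - 1 / (p : ℝ))) ^ 2 ≤ (3 / Real.log z) ^ 2 :=
    pow_le_pow_left₀ (Finset.prod_nonneg fun p hp => (hpr p hp).le) (prod_pr_le z hz) 2
  have hG := one_le_G h
  calc _ ≤ (3 / Real.log z) ^ 2 * G h := by
        apply mul_le_mul h3 h2
        · apply Finset.prod_nonneg
          intro p hp
          split_ifs
          · exact (inv_pos.mpr (hpr p hp)).le
          · exact zero_le_one
        · positivity
    _ = _ := by ring

lemma cnt_small_le (n z Y : ℕ) : cnt (fun a => n + a ≤ z) Y ≤ z + 1 := by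
  classical
  rw [cnt_eq]
  calc _ ≤ (range (z + 1)).card := by
        apply card_le_card
        intro a ha
        rw [mem_filter, mem_range] at ha
        rw [mem_range]; omega
    _ = _ := card_range _

lemma cnt_single_le' (n z Y : ℕ) :
    cnt (fun a => (n + a).Prime) Y ≤ (z + 1) + cnt (Free {0} n 1 4 z) Y := by
  classical
  refine (?_ : _ ≤ cnt (fun a => n + a ≤ z) Y + cnt (Free {0} n 1 4 z) Y).trans
    (Nat.add_le_add_right (cnt_small_le n z Y) _)
  rw [cnt_eq, cnt_eq, cnt_eq]
  refine (card_le_card ?_).trans (card_union_le _ _)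
  intro a ha
  rw [mem_filter] at ha
  rw [mem_union, mem_filter, mem_filter]
  by_cases h : n + a ≤ z
  · exact Or.inl ⟨ha.1, h⟩
  · right
    refine ⟨ha.1, ?_⟩
    intro p hp
    rintro ⟨b, hb, hdvd⟩
    rw [mem_singleton] at hb
    subst hb
    obtain ⟨hpp, hp4, hpz⟩ := mem_pr.mp hp
    rw [one_mul, add_zero] at hdvd
    rcases (Nat.dvd_prime ha.2).mp hdvd with h1 | h1
    · exact hpp.one_lt.ne' h1
    · omega

lemma cnt_pair_le' (n h z Y : ℕ) :
    cnt (fun a => (n + a).Prime ∧ (n + h + a).Prime) Y ≤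
      (z + 1) + cnt (Free {0, h} n 1 4 z) Y := by
  classical
  refine (?_ : _ ≤ cnt (fun a => n + a ≤ z) Y + cnt (Free {0, h} n 1 4 z) Y).trans
    (Nat.add_le_add_right (cnt_small_le n z Y) _)
  rw [cnt_eq, cnt_eq, cnt_eq]
  refine (card_le_card ?_).trans (card_union_le _ _)
  intro a ha
  rw [mem_filter] at ha
  rw [mem_union, mem_filter, mem_filter]
  by_cases hz : n + a ≤ z
  · exact Or.inl ⟨ha.1, hz⟩
  · right
    refine ⟨ha.1, ?_⟩
    intro p hp
    rintro ⟨b, hb, hdvd⟩
    rw [mem_insert, mem_singleton] at hb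
    obtain ⟨hpp, hp4, hpz⟩ := mem_pr.mp hp
    rcases hb with hb | hb
    · subst hb
      rw [one_mul, add_zero] at hdvd
      rcases (Nat.dvd_prime ha.2.1).mp hdvd with h1 | h1
      · exact hpp.one_lt.ne' h1
      · omega
    · subst hb
      rw [one_mul, show n + a + b = n + b + a by ring] at hdvd
      rcases (Nat.dvd_prime ha.2.2).mp hdvd with h1 | h1
      · exact hpp.one_lt.ne' h1
      · omega

/-- Choice of the sieving parameter. -/
lemma exists_z (Y : ℕ) (hY : 7000 ≤ Real.log Y) : ∃ z : ℕ, 3 ≤ z ∧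
    Real.log Y / 10000 ≤ Real.log z ∧ (z : ℝ) ^ 2426 ≤ Real.exp (Real.log Y / 2) ∧
    (z : ℝ) + 1 ≤ Real.exp (Real.log Y / 2) := by
  set L := Real.log Y with hL
  have hexp : (3.2 : ℝ) ≤ Real.exp (L / 5000) := by
    have h1 : Real.exp (1.4 : ℝ) ≤ Real.exp (L / 5000) := by
      apply Real.exp_le_exp.mpr; linarith
    have h2 : (2.7 : ℝ) ≤ Real.exp 1 := by linarith [Real.exp_one_gt_d9]
    have h3 : Real.exp (1.4 : ℝ) = Real.exp 1 * Real.exp 0.4 := by
      rw [← Real.exp_add]; norm_num
    have h4 := Real.add_one_le_exp (0.4 : ℝ)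
    have h5 : (2.7 : ℝ) * 1.4 ≤ Real.exp 1 * Real.exp 0.4 := by
      apply mul_le_mul h2 (by linarith) (by norm_num) (by positivity)
    linarith
  refine ⟨⌊Real.exp (L / 5000)⌋₊, ?_, ?_, ?_, ?_⟩
  · apply Nat.le_floor
    push_cast; linarith
  · have h1 : Real.exp (L / 5000) - 1 < (⌊Real.exp (L / 5000)⌋₊ : ℝ) := Nat.sub_one_lt_floor _
    have h2 : Real.exp (L / 10000) ≤ Real.exp (L / 5000) - 1 := by
      have h3 : Real.exp (L / 5000) = Real.exp (L / 10000) ^ 2 := by
        rw [← Real.exp_nat_mul]; congr 1; push_cast; ring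
      rw [h3] at hexp ⊢
      have h4 : 0 < Real.exp (L / 10000) := Real.exp_pos _
      nlinarith
    rw [Real.le_log_iff_exp_le (by linarith)]
    linarith
  · have h1 : (⌊Real.exp (L / 5000)⌋₊ : ℝ) ≤ Real.exp (L / 5000) := Nat.floor_le (Real.exp_pos _).le
    calc (⌊Real.exp (L / 5000)⌋₊ : ℝ) ^ 2426 ≤ Real.exp (L / 5000) ^ 2426 :=
          pow_le_pow_left₀ (Nat.cast_nonneg _) h1 _
      _ = Real.exp (2426 * (L / 5000)) := by rw [← Real.exp_nat_mul]; norm_num
      _ ≤ _ := by apply Real.exp_le_exp.mpr; linarith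
  · have h1 : (⌊Real.exp (L / 5000)⌋₊ : ℝ) ≤ Real.exp (L / 5000) := Nat.floor_le (Real.exp_pos _).le
    have h3 : Real.exp (L / 2) = Real.exp (L / 5000) ^ 2500 := by
      rw [← Real.exp_nat_mul]; congr 1; push_cast; ring
    rw [h3]
    have h4 : Real.exp (L / 5000) ^ 2 ≤ Real.exp (L / 5000) ^ 2500 :=
      pow_le_pow_right₀ (by linarith) (by norm_num)
    nlinarith

lemma exp_half_le (L : ℝ) (hL : 7000 ≤ L) : Real.exp (L / 2) ≤ Real.exp L / L ^ 2 := by
  have hL0 : 0 < L := by linarith
  rw [le_div_iff₀ (by positivity)]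
  have h1 := Real.pow_div_factorial_le_exp (L / 2) (by positivity) 3
  have h2 : L ^ 2 ≤ Real.exp (L / 2) := by
    refine le_trans ?_ h1
    have : (3 : ℕ).factorial = 6 := rfl
    rw [this]
    push_cast
    rw [le_div_iff₀ (by norm_num)]
    nlinarith [mul_pos hL0 hL0]
  calc Real.exp (L / 2) * L ^ 2 ≤ Real.exp (L / 2) * Real.exp (L / 2) := by gcongr
    _ = Real.exp L := by rw [← Real.exp_add]; ring_nf

/-- Primes in an interval of length `Y`. -/
lemma cnt_single_le (n Y : ℕ) (hY : 7000 ≤ Real.log Y) :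
    (cnt (fun a => (n + a).Prime) Y : ℝ) ≤ 10 ^ 5 * (Y / Real.log Y) := by
  obtain ⟨z, hz3, hzL, hz1, hz2⟩ := exists_z Y hY
  have hY0 : (0 : ℝ) < Y := by
    rcases Nat.eq_zero_or_pos Y with h | h
    · subst h; simp at hY; linarith
    · exact_mod_cast h
  set L := Real.log Y with hL
  have hL0 : 0 < L := by linarith
  have hlogz : 0 < Real.log z := lt_of_lt_of_le (by positivity) hzL
  have h1 : (cnt (fun a => (n + a).Prime) Y : ℝ) ≤ (z + 1) + cnt (Free {0} n 1 4 z) Y := by
    exact_mod_cast cnt_single_le' n z Y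
  have h2 := (uniform_sieve (A := {0}) (k := 1) (K := 4) (z := z) le_rfl (by simp) (by norm_num)
    (by omega) n 1 Y (fun p hp => by
      have := (mem_pr.mp hp).1
      exact fun h => this.one_lt.ne' (Nat.dvd_one.mp h))).2
  have h3 := dens_single_le z hz3
  have h4 : (3 : ℝ) / Real.log z ≤ 30000 / L := by
    rw [div_le_div_iff₀ hlogz hL0]
    linarith
  have h5 : (z : ℝ) ^ (1213 * 1) ≤ Real.exp (L / 2) := by
    refine le_trans ?_ hz1
    apply pow_le_pow_right₀ _ (by norm_num)
    have : (3 : ℝ) ≤ z := by exact_mod_cast hz3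
    linarith
  have h6 := exp_half_le L hY
  have h7 : Real.exp L = Y := by rw [hL, Real.exp_log hY0]
  rw [h7] at h6
  have h8 : (Y : ℝ) / L ^ 2 ≤ Y / L := by
    apply div_le_div_of_nonneg_left hY0.le hL0
    nlinarith
  have h9 : (Y : ℝ) * dens {0} 4 z ≤ Y * (30000 / L) := by
    apply mul_le_mul_of_nonneg_left (h3.trans h4) hY0.le
  have h10 : (Y : ℝ) * (30000 / L) = 30000 * (Y / L) := by ring
  have h11 : 0 ≤ (Y : ℝ) / L := by positivity
  linarith

/-- Pairs of primes with a given difference in an interval of length `Y`. -/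
lemma cnt_pair_le (n h Y : ℕ) (hh : 1 ≤ h) (hY : 7000 ≤ Real.log Y) :
    (cnt (fun a => (n + a).Prime ∧ (n + h + a).Prime) Y : ℝ) ≤
      10 ^ 9 * (G h * (Y / (Real.log Y) ^ 2)) := by
  obtain ⟨z, hz3, hzL, hz1, hz2⟩ := exists_z Y hY
  have hY0 : (0 : ℝ) < Y := by
    rcases Nat.eq_zero_or_pos Y with h | h
    · subst h; simp at hY; linarith
    · exact_mod_cast h
  set L := Real.log Y with hL
  have hL0 : 0 < L := by linarith
  have hlogz : 0 < Real.log z := lt_of_lt_of_le (by positivity) hzL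
  have h1 : (cnt (fun a => (n + a).Prime ∧ (n + h + a).Prime) Y : ℝ) ≤
      (z + 1) + cnt (Free {0, h} n 1 4 z) Y := by
    exact_mod_cast cnt_pair_le' n h z Y
  have h2 := (uniform_sieve (A := {0, h}) (k := 2) (K := 4) (z := z) (by norm_num)
    Finset.card_le_two (by norm_num)
    (by omega) n 1 Y (fun p hp => by
      have := (mem_pr.mp hp).1
      exact fun h => this.one_lt.ne' (Nat.dvd_one.mp h))).2
  have h3 := dens_pair_le h z hh hz3
  have hG := one_le_G h
  have h4 : 9 * G h / (Real.log z) ^ 2 ≤ 9 * 10 ^ 8 * G h / L ^ 2 := by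
    rw [div_le_div_iff₀ (by positivity) (by positivity)]
    have h12 : (L / 10000) ^ 2 ≤ (Real.log z) ^ 2 := pow_le_pow_left₀ (by positivity) hzL 2
    nlinarith
  have h5 : (z : ℝ) ^ (1213 * 2) ≤ Real.exp (L / 2) := by
    norm_num; exact hz1
  have h6 := exp_half_le L hY
  have h7 : Real.exp L = Y := by rw [hL, Real.exp_log hY0]
  rw [h7] at h6
  have h9 : (Y : ℝ) * dens {0, h} 4 z ≤ Y * (9 * 10 ^ 8 * G h / L ^ 2) := by
    apply mul_le_mul_of_nonneg_left (h3.trans h4) hY0.le
  have h10 : (Y : ℝ) * (9 * 10 ^ 8 * G h / L ^ 2) = 9 * 10 ^ 8 * (G h * (Y / L ^ 2)) := by ring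
  have h11 : (Y : ℝ) / L ^ 2 ≤ G h * (Y / L ^ 2) := le_mul_of_one_le_left (by positivity) hG
  have h12 : 0 ≤ G h * ((Y : ℝ) / L ^ 2) := by positivity
  linarith

/-- Chebyshev's lower bound. -/
lemma primeCounting_ge (N : ℕ) (hN : 100 ≤ N) : (N : ℝ) / (2 * Real.log N) ≤ N.primeCounting := by
  have hN' : (100 : ℝ) ≤ N := by exact_mod_cast hN
  have hlog : 0 < Real.log N := Real.log_pos (by linarith)
  rw [div_le_iff₀ (by positivity)]
  have h1 := Chebyshev.psi_ge N
  have h2 := Chebyshev.psi_le_primeCounting_mul_log N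
  have h3 : Real.log ((N : ℝ) + 1) ≤ N * 0.1 := by
    -- `log t ≤ t / s + log s - 1`
    have h4 : Real.log (((N : ℝ) + 1) / 20) ≤ ((N : ℝ) + 1) / 20 - 1 :=
      Real.log_le_sub_one_of_pos (by positivity)
    rw [Real.log_div (by positivity) (by norm_num)] at h4
    have h5 : Real.log 20 ≤ 3.5 := by
      have h6 : Real.log 20 = 2 * Real.log 2 + Real.log 5 := by
        rw [show (20 : ℝ) = 2 ^ 2 * 5 by norm_num, Real.log_mul (by norm_num) (by norm_num),
          Real.log_pow]
        push_cast; ring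
      have h7 : Real.log 5 ≤ Real.log (2 ^ 3) := Real.log_le_log (by norm_num) (by norm_num)
      rw [Real.log_pow] at h7
      push_cast at h7
      linarith [Real.log_two_lt_d9]
    linarith
  have h4 : (0.69 : ℝ) ≤ Real.log 2 := by linarith [Real.log_two_gt_d9]
  nlinarith

end Pool.Agent.Lib.Helper57
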