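import Mathlib
import Pool.Agent.Lib.Helper57.Sieve

/-!
Applications of the uniform sieve: unsieved elements divisible by a given modulus.
-/

open Finset

namespace Pool.Agent.Lib.Helper57

lemma cnt_le_of_imp {P R : ℕ → Prop} (h : ∀ m, P m → R m) (M : ℕ) : cnt P M ≤ cnt R M := by
  classical
  rw [cnt_eq, cnt_eq]
  exact card_le_card (Finset.monotone_filter_right _ fun m _ hm => h m hm)

lemma cnt_exists_le {κ : Type*} (I : Finset κ) (P : κ → ℕ → Prop) (M : ℕ) :
    cnt (fun m => ∃ i ∈ I, P i m) M ≤ ∑ i ∈ I, cnt (P i) M := by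
  classical
  simp_rw [cnt_eq]
  have : (range M).filter (fun m => ∃ i ∈ I, P i m) =
      I.biUnion fun i => (range M).filter (P i) := by
    ext m
    simp only [mem_filter, mem_biUnion]
    constructor
    · rintro ⟨h1, i, hi, h2⟩; exact ⟨i, hi, h1, h2⟩
    · rintro ⟨i, hi, h1, h2⟩; exact ⟨h1, i, hi, h2⟩
  rw [this]
  exact card_biUnion_le

lemma cnt_or_le (P R : ℕ → Prop) (M : ℕ) : cnt (fun m => P m ∨ R m) M ≤ cnt P M + cnt R M := by
  classical
  rw [cnt_eq, cnt_eq, cnt_eq, Finset.filter_or]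
  exact card_union_le _ _

/-- The `m < M` in a fixed residue class of a solution of `d ∣ r + Q m + a`. -/
lemma cnt_free_dvd_le_cnt {A : Finset ℕ} {r Q K z d a : ℕ} (hd : 0 < d) (hcop : Nat.Coprime Q d)
    (M : ℕ) : ∃ r' : ℕ, cnt (fun m => Free A r Q K z m ∧ d ∣ r + Q * m + a) M ≤
      cnt (Free A r' (Q * d) K z) (M / d + 1) := by
  classical
  by_cases hex : ∃ m₀, d ∣ r + Q * m₀ + a
  · obtain ⟨m₁, hm₁⟩ := hex
    set m₀ := m₁ % d with hm₀
    refine ⟨r + Q * m₀, ?_⟩
    rw [cnt_eq, cnt_eq]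
    refine Finset.card_le_card_of_injOn (fun m => m / d) ?_ ?_
    · intro m hm
      simp only [Finset.coe_filter, mem_range, Set.mem_ofPred_eq] at hm ⊢
      obtain ⟨hmM, hfree, hdvd⟩ := hm
      -- `m ≡ m₁ mod d`
      have hmod : m % d = m₀ := by
        have h1 : r + Q * m + a ≡ r + Q * m₁ + a [MOD d] :=
          ((Nat.modEq_zero_iff_dvd.mpr hdvd).trans (Nat.modEq_zero_iff_dvd.mpr hm₁).symm)
        have h2 : r + Q * m ≡ r + Q * m₁ [MOD d] := Nat.ModEq.add_right_cancel' a h1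
        have h3 : Q * m ≡ Q * m₁ [MOD d] := Nat.ModEq.add_left_cancel' r h2
        exact Nat.ModEq.cancel_left_of_coprime (by rw [Nat.gcd_comm]; exact hcop) h3
      have hm : m = m₀ + d * (m / d) := by
        rw [← hmod]; exact (Nat.mod_add_div m d).symm
      refine ⟨?_, ?_⟩
      · have := Nat.div_le_div_right (c := d) hmM.le
        omega
      · intro p hp hbad
        apply hfree p hp
        obtain ⟨c, hc, hpc⟩ := hbad
        refine ⟨c, hc, ?_⟩
        rw [hm]
        have : r + Q * (m₀ + d * (m / d)) + c = r + Q * m₀ + Q * d * (m / d) + c := by ring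
        rw [this]; exact hpc
    · intro m hm m' hm' heq
      simp only [Finset.coe_filter, mem_range, Set.mem_ofPred_eq] at hm hm' heq
      have h1 : r + Q * m + a ≡ r + Q * m' + a [MOD d] :=
          ((Nat.modEq_zero_iff_dvd.mpr hm.2.2).trans (Nat.modEq_zero_iff_dvd.mpr hm'.2.2).symm)
      have h2 : r + Q * m ≡ r + Q * m' [MOD d] := Nat.ModEq.add_right_cancel' a h1
      have h3 : Q * m ≡ Q * m' [MOD d] := Nat.ModEq.add_left_cancel' r h2
      have h4 : m % d = m' % d :=
        Nat.ModEq.cancel_left_of_coprime (by rw [Nat.gcd_comm]; exact hcop) h3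
      rw [← Nat.mod_add_div m d, ← Nat.mod_add_div m' d, h4, heq]
  · refine ⟨0, ?_⟩
    have : cnt (fun m => Free A r Q K z m ∧ d ∣ r + Q * m + a) M = 0 := by
      rw [cnt_eq, Finset.card_eq_zero, Finset.filter_eq_empty_iff]
      intro m _ h
      exact hex ⟨m, h.2⟩
    rw [this]
    exact Nat.zero_le _

/-- Unsieved elements divisible by `d`. -/
lemma cnt_free_dvd_le {A : Finset ℕ} {k K z : ℕ} (hk : 1 ≤ k) (hAk : A.card ≤ k)
    (hK : 2 * k ≤ K) (hz : 2 ≤ z) (r Q M : ℕ) (hQ : ∀ p ∈ pr K z, ¬ p ∣ Q) {d a : ℕ}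
    (hd : 0 < d) (hcop : Nat.Coprime Q d) (hdz : ∀ p ∈ pr K z, ¬ p ∣ d) :
    (cnt (fun m => Free A r Q K z m ∧ d ∣ r + Q * m + a) M : ℝ) ≤
      1.02 * (((M : ℝ) / d + 1) * dens A K z) + (z : ℝ) ^ (1213 * k) := by
  obtain ⟨r', hr'⟩ := cnt_free_dvd_le_cnt (A := A) (r := r) (K := K) (z := z) (a := a) hd hcop M
  have hQd : ∀ p ∈ pr K z, ¬ p ∣ Q * d := by
    intro p hp hdvd
    rcases (Nat.Prime.dvd_mul (mem_pr.mp hp).1).mp hdvd with h | h
    · exact hQ p hp h
    · exact hdz p hp h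
  have h1 := (uniform_sieve hk hAk hK hz r' (Q * d) (M / d + 1) hQd).2
  have h2 : ((M / d + 1 : ℕ) : ℝ) ≤ (M : ℝ) / d + 1 := by
    push_cast
    have := Nat.cast_div_le (α := ℝ) (m := M) (n := d)
    linarith
  have h3 := dens_nonneg hAk hK z
  have h4 : (cnt (fun m => Free A r Q K z m ∧ d ∣ r + Q * m + a) M : ℝ) ≤
      cnt (Free A r' (Q * d) K z) (M / d + 1) := by exact_mod_cast hr'
  have h5 := mul_le_mul_of_nonneg_right h2 h3
  linarith

/-- Trivial bound: the number of `m < M` with `d ∣ r + Q m + a` is at most `M / d + 1`. -/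
lemma cnt_dvd_le {r Q d a : ℕ} (hd : 0 < d) (hcop : Nat.Coprime Q d) (M : ℕ) :
    (cnt (fun m => d ∣ r + Q * m + a) M : ℝ) ≤ (M : ℝ) / d + 1 := by
  classical
  have h : cnt (fun m => d ∣ r + Q * m + a) M ≤ M / d + 1 := by
    rw [cnt_eq]
    calc _ ≤ (range (M / d + 1)).card := by
          refine Finset.card_le_card_of_injOn (fun m => m / d) ?_ ?_
          · intro m hm
            simp only [Finset.coe_filter, mem_range, Set.mem_ofPred_eq, Finset.coe_range,
              Set.mem_Iio] at hm ⊢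
            have := Nat.div_le_div_right (c := d) hm.1.le
            omega
          · intro m hm m' hm' heq
            simp only [Finset.coe_filter, mem_range, Set.mem_ofPred_eq] at hm hm' heq
            have h1 : r + Q * m + a ≡ r + Q * m' + a [MOD d] :=
              ((Nat.modEq_zero_iff_dvd.mpr hm.2).trans (Nat.modEq_zero_iff_dvd.mpr hm'.2).symm)
            have h2 : r + Q * m ≡ r + Q * m' [MOD d] := Nat.ModEq.add_right_cancel' a h1
            have h3 : Q * m ≡ Q * m' [MOD d] := Nat.ModEq.add_left_cancel' r h2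
            have h4 : m % d = m' % d :=
              Nat.ModEq.cancel_left_of_coprime (by rw [Nat.gcd_comm]; exact hcop) h3
            rw [← Nat.mod_add_div m d, ← Nat.mod_add_div m' d, h4, heq]
      _ = M / d + 1 := card_range _
  have h2 : ((M / d + 1 : ℕ) : ℝ) ≤ (M : ℝ) / d + 1 := by
    push_cast
    have := Nat.cast_div_le (α := ℝ) (m := M) (n := d)
    linarith
  exact le_trans (by exact_mod_cast h) h2

/-- `∑_{z < n ≤ y} 1 / n² ≤ 1 / z`. -/
lemma sum_inv_sq_le {z : ℕ} (hz : 1 ≤ z) (y : ℕ) :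
    ∑ n ∈ Ioc z y, (1 : ℝ) / (n : ℝ) ^ 2 ≤ 1 / z := by
  have h : ∀ y, z ≤ y → ∑ n ∈ Ioc z y, (1 : ℝ) / (n : ℝ) ^ 2 ≤ 1 / z - 1 / y := by
    intro y hy
    induction y, hy using Nat.le_induction with
    | base => simp
    | succ y hy ih =>
      rw [← Finset.insert_Ioc_right_eq_Ioc_add_one hy, Finset.sum_insert (by simp)]
      have hy0 : (0 : ℝ) < y := by exact_mod_cast (lt_of_lt_of_le hz hy)
      have h1 : (1 : ℝ) / ((y + 1 : ℕ) : ℝ) ^ 2 ≤ 1 / y - 1 / (y + 1 : ℕ) := by
        push_cast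
        rw [div_sub_div _ _ hy0.ne' (by positivity), div_le_div_iff₀ (by positivity)
          (by positivity)]
        nlinarith
      linarith
  rcases le_total z y with hy | hy
  · have h0 : (0 : ℝ) ≤ 1 / y := by positivity
    linarith [h y hy]
  · rw [Finset.Ioc_eq_empty (by omega)]
    simp

/-- Existence of a residue class avoiding all of `A`. -/
lemma exists_residue {A : Finset ℕ} (S : Finset ℕ) (hS : ∀ p ∈ S, p.Prime)
    (hA : ∀ p ∈ S, ∃ r : ℕ, ∀ a ∈ A, ¬ p ∣ r + a) : ∃ b : ℕ, ∀ p ∈ S, ∀ a ∈ A, ¬ p ∣ b + a := by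
  classical
  induction S using Finset.induction_on with
  | empty => exact ⟨0, by simp⟩
  | insert q S hq ih =>
    obtain ⟨b, hb⟩ := ih (fun p hp => hS p (mem_insert_of_mem hp))
      fun p hp => hA p (mem_insert_of_mem hp)
    obtain ⟨r, hr⟩ := hA q (mem_insert_self q S)
    have hqp := hS q (mem_insert_self q S)
    have hcop : Nat.Coprime q (∏ p ∈ S, p) := by
      apply Nat.Coprime.prod_right
      intro p hp
      exact (Nat.coprime_primes hqp (hS p (mem_insert_of_mem hp))).mpr (fun h => hq (h ▸ hp))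
    obtain ⟨c, hc1, hc2⟩ := Nat.chineseRemainder hcop r b
    refine ⟨c, ?_⟩
    intro p hp a ha hdvd
    rw [mem_insert] at hp
    rcases hp with rfl | hp
    · apply hr a ha
      have : c + a ≡ r + a [MOD p] := hc1.add_right a
      exact (this.dvd_iff (dvd_refl p)).mp hdvd
    · apply hb p hp a ha
      have h1 : c ≡ b [MOD p] := hc2.of_dvd (Finset.dvd_prod_of_mem _ hp)
      exact ((h1.add_right a).dvd_iff (dvd_refl p)).mp hdvd

end Pool.Agent.Lib.Helper57
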