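import Mathlib
import Pool.Agent.Lib.Helper57.PairCount
import Pool.Agent.Lib.Helper57.Rough

/-!
# The second moment method for prime tuples
-/

namespace Pool.Agent.Lib.Helper57

open Finset Pool.Agent.Lib.Sieve

/-- Cauchy-Schwarz for a family of subsets. -/
lemma cauchy_family {ι : Type*} [DecidableEq ι] (R : Finset ℕ) (k : ℕ) (I : Finset ι)
    (P : ι → Finset ℕ) (hP : ∀ n ∈ I, P n ⊆ R) [DecidablePred fun A => ∃ n ∈ I, A ⊆ P n] :
    (∑ n ∈ I, ((P n).card.choose k : ℝ)) ^ 2 ≤
      (((R.powersetCard k).filter fun A => ∃ n ∈ I, A ⊆ P n).card : ℝ) *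
        ∑ n ∈ I, ∑ m ∈ I, ((P n ∩ P m).card.choose k : ℝ) := by
  classical
  set U := R.powersetCard k with hU
  set W := U.filter fun A => ∃ n ∈ I, A ⊆ P n with hW
  set f : Finset ℕ → ℝ := fun A => ∑ n ∈ I, if A ⊆ P n then (1 : ℝ) else 0 with hf
  have key : ∀ S : Finset ℕ, S ⊆ R → ∑ A ∈ U, (if A ⊆ S then (1 : ℝ) else 0) = (S.card.choose k : ℝ) := by
    intro S hS
    rw [Finset.sum_boole]
    congr 1
    rw [← Finset.card_powersetCard]
    congr 1
    ext A
    rw [mem_filter, hU, mem_powersetCard, mem_powersetCard]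
    constructor
    · rintro ⟨⟨_, h2⟩, h3⟩; exact ⟨h3, h2⟩
    · rintro ⟨h1, h2⟩; exact ⟨⟨h1.trans hS, h2⟩, h1⟩
  have h1 : ∑ n ∈ I, ((P n).card.choose k : ℝ) = ∑ A ∈ W, f A := by
    calc ∑ n ∈ I, ((P n).card.choose k : ℝ)
        = ∑ n ∈ I, ∑ A ∈ U, (if A ⊆ P n then (1 : ℝ) else 0) :=
          Finset.sum_congr rfl fun n hn => (key _ (hP n hn)).symm
      _ = ∑ A ∈ U, f A := Finset.sum_comm
      _ = ∑ A ∈ W, f A := by
          symm
          apply Finset.sum_subset (Finset.filter_subset _ _)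
          intro A hA hA'
          simp only [hf]
          apply Finset.sum_eq_zero
          intro n hn
          rw [if_neg]
          intro h
          exact hA' (mem_filter.mpr ⟨hA, n, hn, h⟩)
  have h2 : ∑ A ∈ W, f A ^ 2 ≤ ∑ n ∈ I, ∑ m ∈ I, ((P n ∩ P m).card.choose k : ℝ) := by
    calc ∑ A ∈ W, f A ^ 2 ≤ ∑ A ∈ U, f A ^ 2 := by
          apply Finset.sum_le_sum_of_subset_of_nonneg (Finset.filter_subset _ _)
          intro A _ _
          positivity
      _ = ∑ A ∈ U, ∑ n ∈ I, ∑ m ∈ I, (if A ⊆ P n ∩ P m then (1 : ℝ) else 0) := by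
          apply Finset.sum_congr rfl
          intro A _
          simp only [hf]
          rw [pow_two, Finset.sum_mul_sum]
          apply Finset.sum_congr rfl
          intro n _
          apply Finset.sum_congr rfl
          intro m _
          by_cases h1 : A ⊆ P n <;> by_cases h2 : A ⊆ P m <;>
            simp [h1, h2, Finset.subset_inter_iff]
      _ = ∑ n ∈ I, ∑ m ∈ I, ((P n ∩ P m).card.choose k : ℝ) := by
          rw [Finset.sum_comm]
          apply Finset.sum_congr rfl
          intro n hn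
          rw [Finset.sum_comm]
          apply Finset.sum_congr rfl
          intro m _
          exact key _ (Finset.inter_subset_left.trans (hP n hn))
      _ ≤ _ := le_rfl
  rw [h1]
  calc (∑ A ∈ W, f A) ^ 2 ≤ (W.card : ℝ) * ∑ A ∈ W, f A ^ 2 := sq_sum_le_card_mul_sum_sq
    _ ≤ _ := by gcongr

/-- The shifts `a ≤ Y` for which `n + a` is a prime larger than `k`. -/
def PS (Y k n : ℕ) : Finset ℕ := (range (Y + 1)).filter fun a => (n + a).Prime ∧ k < n + a

open Classical in
/-- The `k`-subsets of `[0, Y]` with a translate consisting of primes `> k`. -/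
noncomputable def goodFin (N Y k : ℕ) : Finset (Finset ℕ) :=
  (powersetCard k (range (Y + 1))).filter fun A => ∃ n ∈ Icc 1 N, A ⊆ PS Y k n

lemma mem_goodFin {N Y k : ℕ} {A : Finset ℕ} : A ∈ goodFin N Y k ↔
    (A ⊆ range (Y + 1) ∧ A.card = k) ∧ ∃ n ∈ Icc 1 N, A ⊆ PS Y k n := by
  unfold goodFin
  simp only [mem_filter, mem_powersetCard]

lemma PS_subset (Y k n : ℕ) : PS Y k n ⊆ range (Y + 1) := Finset.filter_subset _ _

lemma cauchy_good (N Y k : ℕ) : (∑ n ∈ Icc 1 N, ((PS Y k n).card.choose k : ℝ)) ^ 2 ≤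
    ((goodFin N Y k).card : ℝ) *
      ∑ n ∈ Icc 1 N, ∑ m ∈ Icc 1 N, ((PS Y k n ∩ PS Y k m).card.choose k : ℝ) :=
  @cauchy_family ℕ _ (range (Y + 1)) k (Icc 1 N) (PS Y k) (fun n _ => PS_subset Y k n)
    (fun _ => Classical.propDecidable _)

/-- Primes in `(max Y k, N]` give many pairs. -/
lemma sum_card_PS (Y k N : ℕ) :
    (((Y + 1 : ℕ) : ℝ)) * ((N.primeCounting : ℝ) - Y - k) ≤ ∑ n ∈ Icc 1 N, ((PS Y k n).card : ℝ) := by
  classical
  have h1 : ∑ n ∈ Icc 1 N, (PS Y k n).card =
      ∑ a ∈ range (Y + 1), ((Icc 1 N).filter fun n => (n + a).Prime ∧ k < n + a).card := by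
    simp_rw [PS, Finset.card_filter]
    exact Finset.sum_comm
  have h2 : ∀ a ∈ range (Y + 1), N.primeCounting ≤
      ((Icc 1 N).filter fun n => (n + a).Prime ∧ k < n + a).card + (Y + k) := by
    intro a ha
    rw [mem_range] at ha
    rw [Nat.primeCounting, Nat.primeCounting', Nat.count_eq_card_filter_range]
    -- split the primes `≤ N`
    have h3 : (range (N + 1)).filter Nat.Prime ⊆
        (((Icc 1 N).filter fun n => (n + a).Prime ∧ k < n + a).image fun n => n + a) ∪
          Icc 1 (Y + k) := by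
      intro p hp
      rw [mem_filter, mem_range] at hp
      obtain ⟨hpN, hpp⟩ := hp
      rw [mem_union, mem_image]
      by_cases h : a < p ∧ k < p
      · left
        refine ⟨p - a, ?_, by omega⟩
        rw [mem_filter, mem_Icc]
        have h4 : p - a + a = p := by omega
        rw [h4]
        exact ⟨⟨by omega, by omega⟩, hpp, h.2⟩
      · right
        rw [mem_Icc]
        have := hpp.pos
        omega
    calc _ ≤ _ := card_le_card h3
      _ ≤ _ := card_union_le _ _
      _ ≤ _ := by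
          rw [Nat.card_Icc]
          have := card_image_le (s := (Icc 1 N).filter fun n => (n + a).Prime ∧ k < n + a)
            (f := fun n => n + a)
          omega
  have h3 : (Y + 1) * N.primeCounting ≤ ∑ n ∈ Icc 1 N, (PS Y k n).card + (Y + 1) * (Y + k) := by
    rw [h1]
    have := Finset.sum_le_sum h2
    rw [Finset.sum_const, card_range, Finset.sum_add_distrib, Finset.sum_const, card_range,
      smul_eq_mul, smul_eq_mul] at this
    exact this
  have h4 : ((Y + 1 : ℕ) : ℝ) * (N.primeCounting : ℝ) ≤ ∑ n ∈ Icc 1 N, ((PS Y k n).card : ℝ) +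
      ((Y + 1 : ℕ) : ℝ) * (Y + k) := by
    exact_mod_cast h3
  linarith

/-- Lower bound for the first moment. -/
lemma first_moment (Y k N : ℕ) (hk : 1 ≤ k) (hN : 1 ≤ N) (u : ℝ) (hu : 0 ≤ u)
    (h : u + k ≤ (Y + 1 : ℕ) * ((N.primeCounting : ℝ) - Y - k) / N) :
    (N : ℝ) * u ^ k / k.factorial ≤ ∑ n ∈ Icc 1 N, ((PS Y k n).card.choose k : ℝ) := by
  have hN' : (0 : ℝ) < N := by exact_mod_cast hN
  have h1 := sum_card_PS Y k N
  -- real-valued lower bound for each binomial coefficient
  set v : ℕ → ℝ := fun n => (((PS Y k n).card + 1 - k : ℕ) : ℝ) with hv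
  have hv0 : ∀ n ∈ Icc 1 N, 0 ≤ v n := fun n _ => Nat.cast_nonneg _
  have h2 : ∀ n ∈ Icc 1 N, v n ^ k / k.factorial ≤ ((PS Y k n).card.choose k : ℝ) := by
    intro n _
    exact Nat.pow_le_choose k _
  have h3 : (N : ℝ) * u ≤ ∑ n ∈ Icc 1 N, v n := by
    have h4 : ∀ n ∈ Icc 1 N, ((PS Y k n).card : ℝ) - k ≤ v n := by
      intro n _
      have h5 : (PS Y k n).card ≤ ((PS Y k n).card + 1 - k) + k := by omega
      have h6 : ((PS Y k n).card : ℝ) ≤ v n + k := by
        simp only [hv]
        exact_mod_cast h5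
      linarith
    have h5 := Finset.sum_le_sum h4
    rw [Finset.sum_sub_distrib, Finset.sum_const, Nat.card_Icc, nsmul_eq_mul,
      Nat.add_sub_cancel] at h5
    have h6 : (u + k) * N ≤ (Y + 1 : ℕ) * ((N.primeCounting : ℝ) - Y - k) := by
      rwa [le_div_iff₀ hN'] at h
    linarith
  obtain ⟨j, rfl⟩ : ∃ j, k = j + 1 := ⟨k - 1, by omega⟩
  have h4 := pow_sum_div_card_le_sum_pow hv0 j
  rw [Nat.card_Icc, Nat.add_sub_cancel] at h4
  have h5 : (N : ℝ) * u ^ (j + 1) ≤ ∑ n ∈ Icc 1 N, v n ^ (j + 1) := by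
    refine le_trans ?_ h4
    rw [le_div_iff₀ (by positivity)]
    calc (N : ℝ) * u ^ (j + 1) * N ^ j = (N * u) ^ (j + 1) := by ring
      _ ≤ _ := pow_le_pow_left₀ (by positivity) h3 _
  calc (N : ℝ) * u ^ (j + 1) / (j + 1).factorial
      ≤ (∑ n ∈ Icc 1 N, v n ^ (j + 1)) / (j + 1).factorial := by gcongr
    _ = ∑ n ∈ Icc 1 N, v n ^ (j + 1) / (j + 1).factorial := Finset.sum_div _ _ _
    _ ≤ _ := Finset.sum_le_sum h2

lemma card_PS_le (Y k n : ℕ) : (PS Y k n).card ≤ cnt (fun a => (n + a).Prime) (Y + 1) := by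
  classical
  rw [cnt_eq]
  apply card_le_card
  intro a ha
  unfold PS at ha
  rw [mem_filter] at ha ⊢
  exact ⟨ha.1, ha.2.1⟩

lemma card_PS_inter_le (Y k n h : ℕ) :
    (PS Y k n ∩ PS Y k (n + h)).card ≤
      cnt (fun a => (n + a).Prime ∧ (n + h + a).Prime) (Y + 1) := by
  classical
  rw [cnt_eq]
  apply card_le_card
  intro a ha
  unfold PS at ha
  rw [mem_inter, mem_filter, mem_filter] at ha
  rw [mem_filter]
  exact ⟨ha.1.1, ha.1.2.1, ha.2.2.1⟩

/-- A symmetric double sum over `[1, N]`. -/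
lemma double_sum_le (N : ℕ) (F : ℕ → ℕ → ℝ) (hsymm : ∀ n m, F n m = F m n) (D : ℝ) (g : ℕ → ℝ)
    (hg : ∀ h, 0 ≤ g h) (hD : ∀ n, F n n ≤ D) (hF : ∀ n h, 1 ≤ h → F n (n + h) ≤ g h) :
    ∑ n ∈ Icc 1 N, ∑ m ∈ Icc 1 N, F n m ≤ N * (D + 2 * ∑ h ∈ Icc 1 N, g h) := by
  classical
  have h1 : ∀ n ∈ Icc 1 N, ∑ m ∈ Icc 1 N, F n m ≤ D + 2 * ∑ h ∈ Icc 1 N, g h := by
    intro n hn
    rw [mem_Icc] at hn
    have h2 : ∑ m ∈ Icc 1 N, F n m ≤ F n n +
        (∑ m ∈ (Icc 1 N).filter (fun m => n < m), F n m +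
          ∑ m ∈ (Icc 1 N).filter (fun m => m < n), F n m) := by
      have h3 : Icc 1 N = insert n ((Icc 1 N).filter (fun m => n < m) ∪
          (Icc 1 N).filter (fun m => m < n)) := by
        ext m
        rw [mem_insert, mem_union, mem_filter, mem_filter, mem_Icc]
        omega
      conv_lhs => rw [h3]
      rw [Finset.sum_insert, Finset.sum_union]
      · rw [Finset.disjoint_left]
        intro m hm hm'
        rw [mem_filter] at hm hm'
        omega
      · rw [mem_union, mem_filter, mem_filter]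
        omega
    have h4 : ∑ m ∈ (Icc 1 N).filter (fun m => n < m), F n m ≤ ∑ h ∈ Icc 1 N, g h := by
      calc ∑ m ∈ (Icc 1 N).filter (fun m => n < m), F n m
          ≤ ∑ m ∈ (Icc 1 N).filter (fun m => n < m), g (m - n) := by
            apply Finset.sum_le_sum
            intro m hm
            rw [mem_filter, mem_Icc] at hm
            have := hF n (m - n) (by omega)
            rwa [show n + (m - n) = m by omega] at this
        _ = ∑ h ∈ ((Icc 1 N).filter (fun m => n < m)).image (fun m => m - n), g h := by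
            rw [Finset.sum_image]
            intro a ha b hb hab
            rw [mem_coe, mem_filter] at ha hb
            have : a - n = b - n := hab
            omega
        _ ≤ _ := by
            apply Finset.sum_le_sum_of_subset_of_nonneg
            · intro h hh
              rw [mem_image] at hh
              obtain ⟨m, hm, rfl⟩ := hh
              rw [mem_filter, mem_Icc] at hm
              rw [mem_Icc]; omega
            · intro h _ _; exact hg h
    have h5 : ∑ m ∈ (Icc 1 N).filter (fun m => m < n), F n m ≤ ∑ h ∈ Icc 1 N, g h := by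
      calc ∑ m ∈ (Icc 1 N).filter (fun m => m < n), F n m
          ≤ ∑ m ∈ (Icc 1 N).filter (fun m => m < n), g (n - m) := by
            apply Finset.sum_le_sum
            intro m hm
            rw [mem_filter, mem_Icc] at hm
            have := hF m (n - m) (by omega)
            rw [show m + (n - m) = n by omega] at this
            rwa [hsymm n m]
        _ = ∑ h ∈ ((Icc 1 N).filter (fun m => m < n)).image (fun m => n - m), g h := by
            rw [Finset.sum_image]
            intro a ha b hb hab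
            rw [mem_coe, mem_filter] at ha hb
            have : n - a = n - b := hab
            omega
        _ ≤ _ := by
            apply Finset.sum_le_sum_of_subset_of_nonneg
            · intro h hh
              rw [mem_image] at hh
              obtain ⟨m, hm, rfl⟩ := hh
              rw [mem_filter, mem_Icc] at hm
              rw [mem_Icc]; omega
            · intro h _ _; exact hg h
    have := hD n
    linarith
  have h2 := Finset.sum_le_sum h1
  rw [Finset.sum_const, Nat.card_Icc, nsmul_eq_mul, Nat.add_sub_cancel] at h2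
  exact h2

/-- Upper bound for the second moment. -/
lemma second_moment (Y k N : ℕ) (hk : 1 ≤ k) (hY : 7000 ≤ Real.log (Y + 1 : ℕ)) :
    ∑ n ∈ Icc 1 N, ∑ m ∈ Icc 1 N, ((PS Y k n ∩ PS Y k m).card.choose k : ℝ) ≤
      (N * (10 ^ 5 * ((Y + 1 : ℕ) / Real.log (Y + 1 : ℕ))) ^ k +
        6 * N ^ 2 * (500 * Real.log (2 * k : ℕ) *
          (10 ^ 9 * ((Y + 1 : ℕ) / (Real.log (Y + 1 : ℕ)) ^ 2))) ^ k) / k.factorial := by
  set M := Y + 1 with hM
  have hL : 0 < Real.log (M : ℕ) := by linarith
  set D : ℝ := 10 ^ 5 * ((M : ℕ) / Real.log (M : ℕ)) with hD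
  set E : ℝ := 10 ^ 9 * ((M : ℕ) / (Real.log (M : ℕ)) ^ 2) with hE
  have hD0 : 0 ≤ D := by positivity
  have hE0 : 0 ≤ E := by positivity
  have hfac : (0 : ℝ) < k.factorial := by exact_mod_cast Nat.factorial_pos k
  have h1 := double_sum_le N (fun n m => ((PS Y k n ∩ PS Y k m).card.choose k : ℝ))
    (fun n m => by rw [Finset.inter_comm]) (D ^ k / k.factorial)
    (fun h => (E * G h) ^ k / k.factorial)
    (fun h => by
      have := one_le_G h
      positivity)
    (fun n => by
      rw [Finset.inter_self]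
      refine (Nat.choose_le_pow_div k _).trans ?_
      have h2 := card_PS_le Y k n
      have h3 := cnt_single_le n M hY
      have h4 : ((PS Y k n).card : ℝ) ≤ D :=
        le_trans (by exact_mod_cast h2) h3
      gcongr)
    (fun n h hh => by
      refine (Nat.choose_le_pow_div k _).trans ?_
      have h2 := card_PS_inter_le Y k n h
      have h3 := cnt_pair_le n h M hh hY
      have h4 : ((PS Y k n ∩ PS Y k (n + h)).card : ℝ) ≤ E * G h := by
        refine le_trans (by exact_mod_cast h2) (h3.trans (le_of_eq ?_))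
        rw [hE]; ring
      gcongr)
  refine h1.trans ?_
  have h2 : ∑ h ∈ Icc 1 N, (E * G h) ^ k / k.factorial =
      E ^ k / k.factorial * ∑ h ∈ Icc 1 N, G h ^ k := by
    rw [Finset.mul_sum]
    apply Finset.sum_congr rfl
    intro h _
    rw [mul_pow]; ring
  rw [h2]
  have h3 := moment_le k N hk
  have h4 : E ^ k / k.factorial * ∑ h ∈ Icc 1 N, G h ^ k ≤
      E ^ k / k.factorial * (3 * (N * (500 * Real.log (2 * k : ℕ)) ^ k)) := by
    gcongr
  calc (N : ℝ) * (D ^ k / k.factorial + 2 * (E ^ k / k.factorial * ∑ h ∈ Icc 1 N, G h ^ k))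
      ≤ N * (D ^ k / k.factorial +
          2 * (E ^ k / k.factorial * (3 * (N * (500 * Real.log (2 * k : ℕ)) ^ k)))) := by gcongr
    _ = _ := by
        rw [mul_pow (500 * Real.log (2 * k : ℕ)) E]
        ring

end Pool.Agent.Lib.Helper57
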