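import Mathlib
import Pool.Agent.Lib.Helper57.Proportion

/-!
# Counting admissible sets
-/

namespace Pool.Agent.Lib.Helper57

open Finset Pool.Agent.Lib.Sieve

/-- Admissibility in terms of natural numbers. -/
def Adm (A : Finset ℕ) : Prop := ∀ p : ℕ, p.Prime → ∃ r : ℕ, ∀ a ∈ A, ¬ p ∣ r + a

lemma primorial_eq (k : ℕ) : primorial k = ∏ p ∈ primesUpTo k, p := rfl

lemma totient_primorial_div_le (k : ℕ) (hk : 1 ≤ k) :
    (Nat.totient (primorial k) : ℝ) / primorial k ≤ 2 / Real.log (2 * k : ℕ) := by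
  have h0 : (0 : ℝ) < primorial k := by exact_mod_cast primorial_pos k
  have hk2 : (2 : ℝ) ≤ (2 * k : ℕ) := by exact_mod_cast (by omega : 2 ≤ 2 * k)
  have hlog2 : 0 < Real.log (2 * k : ℕ) := Real.log_pos (by linarith)
  have h1 : (Nat.totient (primorial k) : ℝ) / primorial k =
      ∏ p ∈ primesUpTo k, (1 - 1 / (p : ℝ)) := by
    have h2 := Nat.totient_eq_mul_prod_factors (primorial k)
    rw [primeFactors_primorial] at h2
    have h3 : ((Nat.totient (primorial k) : ℚ) : ℝ) =
        (((primorial k : ℚ) * ∏ p ∈ Nat.primesLE k, (1 - (p : ℚ)⁻¹) : ℚ) : ℝ) := by rw [h2]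
    push_cast at h3
    rw [h3, mul_div_cancel_left₀ _ h0.ne']
    apply Finset.prod_congr rfl
    intro p _
    rw [one_div]
  rw [h1]
  rcases Nat.lt_or_ge k 2 with h | h
  · have : k = 1 := by omega
    subst this
    rw [primesUpTo_one, Finset.prod_empty, le_div_iff₀ hlog2]
    push_cast
    norm_num
    linarith [Real.log_two_lt_d9]
  · have h2 := prod_one_sub_inv_le k h
    refine h2.trans ?_
    have hk' : (2 : ℝ) ≤ k := by exact_mod_cast h
    have hlogk : 0 < Real.log k := Real.log_pos (by linarith)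
    rw [div_le_div_iff₀ hlogk hlog2]
    have h3 : Real.log (2 * k : ℕ) = Real.log 2 + Real.log k := by
      push_cast
      rw [Real.log_mul (by norm_num) (by linarith)]
    have h4 : Real.log 2 ≤ Real.log k := Real.log_le_log (by norm_num) hk'
    linarith

/-- The elements `a ≤ Y` with `b + a` coprime to all primes up to `k`. -/
def SS (Y k b : ℕ) : Finset ℕ := (range (Y + 1)).filter fun a => (primorial k).Coprime (b + a)

lemma card_SS_le (Y k b : ℕ) (hk : 1 ≤ k) (hW : primorial k ≤ Y + 1) :
    ((SS Y k b).card : ℝ) ≤ 4 * (Y + 1 : ℕ) / Real.log (2 * k : ℕ) := by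
  have h0 : (0 : ℝ) < primorial k := by exact_mod_cast primorial_pos k
  have h1 : (SS Y k b).card ≤ Nat.totient (primorial k) * ((Y + 1) / primorial k + 1) := by
    refine le_trans ?_ (Nat.Ico_filter_coprime_le (a := primorial k) b (Y + 1) (primorial_ne_zero k))
    refine Finset.card_le_card_of_injOn (fun a => b + a) ?_ ?_
    · intro a ha
      unfold SS at ha
      rw [mem_coe, mem_filter, mem_range] at ha
      rw [mem_coe, mem_filter, mem_Ico]
      show (b ≤ b + a ∧ b + a < b + (Y + 1)) ∧ (primorial k).Coprime (b + a)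
      exact ⟨⟨by omega, by omega⟩, ha.2⟩
    · intro a _ c _ hac
      have : b + a = b + c := hac
      omega
  have h2 : (((Y + 1) / primorial k + 1 : ℕ) : ℝ) ≤ 2 * ((Y + 1 : ℕ) / primorial k) := by
    have h3 : (((Y + 1) / primorial k : ℕ) : ℝ) ≤ (Y + 1 : ℕ) / primorial k := Nat.cast_div_le
    have h4 : (1 : ℝ) ≤ (Y + 1 : ℕ) / primorial k := by
      rw [le_div_iff₀ h0, one_mul]
      exact_mod_cast hW
    push_cast at h3 h4 ⊢
    linarith
  have h3 := totient_primorial_div_le k hk
  calc ((SS Y k b).card : ℝ) ≤ (Nat.totient (primorial k) : ℝ) *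
        (((Y + 1) / primorial k + 1 : ℕ) : ℝ) := by exact_mod_cast h1
    _ ≤ (Nat.totient (primorial k) : ℝ) * (2 * ((Y + 1 : ℕ) / primorial k)) := by gcongr
    _ = 2 * (Y + 1 : ℕ) * ((Nat.totient (primorial k) : ℝ) / primorial k) := by ring
    _ ≤ 2 * (Y + 1 : ℕ) * (2 / Real.log (2 * k : ℕ)) := by gcongr
    _ = _ := by ring

open Classical in
/-- The admissible `k`-subsets of `[0, Y]`. -/
noncomputable def admFin (Y k : ℕ) : Finset (Finset ℕ) :=
  (powersetCard k (range (Y + 1))).filter Adm

lemma mem_admFin {Y k : ℕ} {A : Finset ℕ} : A ∈ admFin Y k ↔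
    (A ⊆ range (Y + 1) ∧ A.card = k) ∧ Adm A := by
  unfold admFin
  simp only [mem_filter, mem_powersetCard]

lemma adm_count_le (Y k : ℕ) (hk : 1 ≤ k) (hW : primorial k ≤ Y + 1) :
    ((admFin Y k).card : ℝ) ≤
      (16 * (Y + 1 : ℕ) / Real.log (2 * k : ℕ)) ^ k / k.factorial := by
  have hW0 : 0 < primorial k := primorial_pos k
  have hfac : (0 : ℝ) < k.factorial := by exact_mod_cast Nat.factorial_pos k
  have h1 : admFin Y k ⊆
      (range (primorial k)).biUnion fun b => powersetCard k (SS Y k b) := by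
    intro A hA
    rw [mem_admFin] at hA
    obtain ⟨⟨hA1, hA2⟩, hA3⟩ := hA
    obtain ⟨b, hb⟩ := exists_residue (A := A) (primesUpTo k) (fun p hp => (mem_primesUpTo.mp hp).1)
      (fun p hp => hA3 p (mem_primesUpTo.mp hp).1)
    rw [mem_biUnion]
    refine ⟨b % primorial k, mem_range.mpr (Nat.mod_lt _ hW0), ?_⟩
    rw [mem_powersetCard]
    refine ⟨fun a ha => ?_, hA2⟩
    unfold SS
    rw [mem_filter]
    refine ⟨hA1 ha, ?_⟩
    rw [primorial_eq]
    apply Nat.Coprime.prod_left
    intro p hp
    rw [(mem_primesUpTo.mp hp).1.coprime_iff_not_dvd]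
    intro hdvd
    apply hb p hp a ha
    have hpW : p ∣ primorial k := by
      rw [primorial_eq]; exact Finset.dvd_prod_of_mem _ hp
    rw [← primorial_eq] at hdvd
    have h2 : b + a = (b % primorial k + a) + primorial k * (b / primorial k) := by
      have := Nat.mod_add_div b (primorial k)
      omega
    rw [h2]
    exact (Nat.dvd_add_right hdvd).mpr (hpW.mul_right _)
  have h2 : (admFin Y k).card ≤
      ∑ b ∈ range (primorial k), (SS Y k b).card.choose k := by
    refine (card_le_card h1).trans (card_biUnion_le.trans (le_of_eq ?_))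
    apply Finset.sum_congr rfl
    intro b _
    rw [card_powersetCard]
  calc ((admFin Y k).card : ℝ)
      ≤ ∑ b ∈ range (primorial k), ((SS Y k b).card.choose k : ℝ) := by exact_mod_cast h2
    _ ≤ ∑ b ∈ range (primorial k), (4 * (Y + 1 : ℕ) / Real.log (2 * k : ℕ)) ^ k / k.factorial := by
        apply Finset.sum_le_sum
        intro b _
        refine (Nat.choose_le_pow_div k _).trans ?_
        have := card_SS_le Y k b hk hW
        gcongr
    _ = (primorial k : ℝ) * ((4 * (Y + 1 : ℕ) / Real.log (2 * k : ℕ)) ^ k / k.factorial) := by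
        rw [Finset.sum_const, card_range, nsmul_eq_mul]
    _ ≤ (4 : ℝ) ^ k * ((4 * (Y + 1 : ℕ) / Real.log (2 * k : ℕ)) ^ k / k.factorial) := by
        have h3 : (primorial k : ℝ) ≤ 4 ^ k := by exact_mod_cast primorial_le_four_pow k
        have h4 : 0 ≤ Real.log (2 * k : ℕ) := Real.log_natCast_nonneg _
        gcongr
    _ = _ := by
        rw [show (16 : ℝ) * (Y + 1 : ℕ) / Real.log (2 * k : ℕ) =
          4 * (4 * (Y + 1 : ℕ) / Real.log (2 * k : ℕ)) by ring, mul_pow 4]
        ring

/-- A set of `k` shifts inside `PS` is admissible. -/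
lemma adm_of_subset_PS {Y k n : ℕ} {A : Finset ℕ} (hA : A.card = k) (h : A ⊆ PS Y k n) : Adm A := by
  classical
  intro p hp
  by_cases hpk : p ≤ k
  · refine ⟨n, fun a ha hdvd => ?_⟩
    have h1 := h ha
    unfold PS at h1
    rw [mem_filter] at h1
    rcases (Nat.dvd_prime h1.2.1).mp hdvd with h2 | h2
    · exact hp.one_lt.ne' h2
    · omega
  · push Not at hpk
    -- some residue class is missed
    have h1 : ∃ c ∈ range p, c ∉ A.image (fun a => a % p) := by
      by_contra hcon
      push Not at hcon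
      have h2 : range p ⊆ A.image (fun a => a % p) := hcon
      have h3 := card_le_card h2
      rw [card_range] at h3
      have h4 : (A.image (fun a => a % p)).card ≤ A.card := card_image_le
      omega
    obtain ⟨c, hc, hc'⟩ := h1
    rw [mem_range] at hc
    refine ⟨p - c, fun a ha hdvd => hc' ?_⟩
    rw [mem_image]
    refine ⟨a, ha, ?_⟩
    have h2 : a ≡ c [MOD p] := by
      have h3 : (p - c) + a ≡ (p - c) + c [MOD p] := by
        have h4 : (p - c) + c = p := by omega
        rw [h4]
        exact ((Nat.modEq_zero_iff_dvd.mpr hdvd)).trans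
          (Nat.modEq_zero_iff_dvd.mpr dvd_rfl).symm
      exact Nat.ModEq.add_left_cancel' _ h3
    have h3 : a % p = c % p := h2
    rw [h3, Nat.mod_eq_of_lt hc]

end Pool.Agent.Lib.Helper57
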