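import Mathlib
import Pool.Agent.Lib.Helper57.AdmCount

/-!
# The proportion of admissible sets with a prime translate: core inequality
-/

namespace Pool.Agent.Lib.Helper57

open Finset Pool.Agent.Lib.Sieve

lemma main_ineq (κ y M L lam N : ℝ) (k : ℕ) (hκ : 0 < κ) (hκ1 : κ < 1) (hy : 0 < y) (hM : 0 < M)
    (hL : κ * y ≤ L) (hlam : 0.69 ≤ lam) (hN : 0 ≤ N) (hk : 1 ≤ k) (hyk : y ^ k ≤ 2 * N) :
    (16 * M / lam) ^ k * (N * (10 ^ 5 * (M / L)) ^ k +
      6 * N ^ 2 * (500 * lam * (10 ^ 9 * (M / L ^ 2))) ^ k) ≤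
    (10 ^ 16 / κ ^ 2) ^ k * (N ^ 2 * ((M / (8 * y)) ^ k) ^ 2) := by
  have hlam0 : 0 < lam := by linarith
  have hκy : 0 < κ * y := by positivity
  have hL0 : 0 < L := by linarith
  obtain ⟨C, hC⟩ : ∃ C : ℝ, C = 10 ^ 16 / κ ^ 2 := ⟨_, rfl⟩
  have hC0 : 0 < C := by rw [hC]; positivity
  obtain ⟨q, hq⟩ : ∃ q : ℝ, q = M ^ 2 / (64 * y ^ 2) := ⟨_, rfl⟩
  have hq0 : 0 < q := by rw [hq]; positivity
  have hu2 : ((M / (8 * y)) ^ k) ^ 2 = q ^ k := by
    rw [← pow_mul, mul_comm k 2, pow_mul, div_pow, hq]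
    congr 1
    ring
  have h3 : 16 * M / lam * (10 ^ 5 * (M / L)) ≤ (C / 4) * q * y := by
    have h1 : M / L ≤ M / (κ * y) := div_le_div_of_nonneg_left hM.le hκy hL
    have h2 : 16 * M / lam ≤ 16 * M / 0.69 :=
      div_le_div_of_nonneg_left (by positivity) (by norm_num) hlam
    have h4 : 16 * M / lam * (10 ^ 5 * (M / L)) ≤ 16 * M / 0.69 * (10 ^ 5 * (M / (κ * y))) := by
      apply mul_le_mul h2 _ (by positivity) (by positivity)
      linarith
    have h5 : 16 * M / 0.69 * (10 ^ 5 * (M / (κ * y))) =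
        (16 / 0.69 * 10 ^ 5 * 64 / κ) * q * y := by
      rw [hq]; field_simp
    have h6 : (16 / 0.69 * 10 ^ 5 * 64 / κ) ≤ C / 4 := by
      rw [hC, div_div, div_le_div_iff₀ hκ (by positivity)]
      nlinarith [mul_pos hκ hκ]
    have h7 : (16 / 0.69 * 10 ^ 5 * 64 / κ) * q * y ≤ (C / 4) * q * y := by
      apply mul_le_mul_of_nonneg_right _ hy.le
      exact mul_le_mul_of_nonneg_right h6 hq0.le
    linarith
  have h3' : 16 * M / lam * (500 * lam * (10 ^ 9 * (M / L ^ 2))) ≤ (C / 12) * q := by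
    have h1 : M / L ^ 2 ≤ M / (κ * y) ^ 2 :=
      div_le_div_of_nonneg_left hM.le (by positivity) (pow_le_pow_left₀ hκy.le hL 2)
    have h4 : 16 * M / lam * (500 * lam * (10 ^ 9 * (M / L ^ 2))) ≤
        16 * M / lam * (500 * lam * (10 ^ 9 * (M / (κ * y) ^ 2))) := by
      apply mul_le_mul_of_nonneg_left _ (by positivity)
      apply mul_le_mul_of_nonneg_left _ (by positivity)
      linarith
    have h5 : 16 * M / lam * (500 * lam * (10 ^ 9 * (M / (κ * y) ^ 2))) =
        (16 * 500 * 10 ^ 9 * 64 / κ ^ 2) * q := by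
      rw [hq]; field_simp
    have h6 : (16 * 500 * 10 ^ 9 * 64 / κ ^ 2) ≤ C / 12 := by
      rw [hC, div_div, div_le_div_iff₀ (by positivity) (by positivity)]
      nlinarith [mul_pos hκ hκ]
    have h7 := mul_le_mul_of_nonneg_right h6 hq0.le
    linarith
  have h8 : (4 : ℝ) ≤ 4 ^ k := by
    calc (4 : ℝ) = 4 ^ 1 := by norm_num
      _ ≤ 4 ^ k := pow_le_pow_right₀ (by norm_num) hk
  have h12 : (12 : ℝ) ≤ 12 ^ k := by
    calc (12 : ℝ) = 12 ^ 1 := by norm_num
      _ ≤ 12 ^ k := pow_le_pow_right₀ (by norm_num) hk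
  have hp1 : (16 * M / lam) ^ k * (N * (10 ^ 5 * (M / L)) ^ k) ≤ C ^ k * (N ^ 2 * q ^ k) / 2 := by
    calc (16 * M / lam) ^ k * (N * (10 ^ 5 * (M / L)) ^ k)
        = N * (16 * M / lam * (10 ^ 5 * (M / L))) ^ k := by
          rw [mul_pow (16 * M / lam)]; ring
      _ ≤ N * ((C / 4) * q * y) ^ k := by
          apply mul_le_mul_of_nonneg_left _ hN
          exact pow_le_pow_left₀ (by positivity) h3 k
      _ = N * (C ^ k * q ^ k * (y ^ k / 4 ^ k)) := by
          rw [mul_pow, mul_pow, div_pow C]; ring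
      _ ≤ N * (C ^ k * q ^ k * (2 * N / 4)) := by
          apply mul_le_mul_of_nonneg_left _ hN
          apply mul_le_mul_of_nonneg_left _ (by positivity)
          exact div_le_div₀ (by positivity) hyk (by norm_num) h8
      _ = _ := by ring
  have hp2 : (16 * M / lam) ^ k * (6 * N ^ 2 * (500 * lam * (10 ^ 9 * (M / L ^ 2))) ^ k) ≤
      C ^ k * (N ^ 2 * q ^ k) / 2 := by
    calc (16 * M / lam) ^ k * (6 * N ^ 2 * (500 * lam * (10 ^ 9 * (M / L ^ 2))) ^ k)
        = 6 * N ^ 2 * (16 * M / lam * (500 * lam * (10 ^ 9 * (M / L ^ 2)))) ^ k := by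
          rw [mul_pow (16 * M / lam)]; ring
      _ ≤ 6 * N ^ 2 * ((C / 12) * q) ^ k := by
          apply mul_le_mul_of_nonneg_left _ (by positivity)
          exact pow_le_pow_left₀ (by positivity) h3' k
      _ = 6 * N ^ 2 * (C ^ k * q ^ k) * (1 / 12 ^ k) := by
          rw [mul_pow, div_pow C]; ring
      _ ≤ 6 * N ^ 2 * (C ^ k * q ^ k) * (1 / 12) := by
          apply mul_le_mul_of_nonneg_left _ (by positivity)
          exact one_div_le_one_div_of_le (by norm_num) h12
      _ = _ := by ring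
  rw [hu2, ← hC, mul_add]
  linarith

theorem prop_core (κ δ y : ℝ) (hκ : 0 < κ) (hδ : 0 < δ) (hκδ : κ + δ = 1)
    (hy1 : 48 / κ ^ 3 ≤ y) (hy2 : 32 / δ ^ 2 ≤ y) (hy3 : Real.exp (2 / κ) ≤ y)
    (hy4 : 7000 / κ ≤ y) (k : ℕ) (hk : 1 ≤ k) (hky : k * Real.log y ≤ y) :
    ((admFin ⌊Real.exp (κ * y)⌋₊ k).card : ℝ) ≤
      (10 ^ 16 / κ ^ 2) ^ k * ((goodFin ⌊Real.exp y⌋₊ ⌊Real.exp (κ * y)⌋₊ k).card : ℝ) := by
  have hκ1 : κ < 1 := by linarith
  have hδ1 : δ < 1 := by linarith
  have hk' : (1 : ℝ) ≤ k := by exact_mod_cast hk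
  have hy0 : 0 < y := lt_of_lt_of_le (Real.exp_pos _) hy3
  have hy7 : 7000 ≤ y := by
    have : 7000 ≤ 7000 / κ := by
      rw [le_div_iff₀ hκ]; nlinarith
    linarith
  have hlogy : 2 / κ ≤ Real.log y := (Real.le_log_iff_exp_le hy0).mpr hy3
  have hlogy1 : 1 ≤ Real.log y := by
    have : 1 ≤ 2 / κ := by rw [le_div_iff₀ hκ]; linarith
    linarith
  -- bounds on `k`
  have hk1 : (k : ℝ) ≤ y := by nlinarith
  have hk2 : 2 * (k : ℝ) ≤ κ * y := by
    have h1 : k * (2 / κ) ≤ y := le_trans (by gcongr) hky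
    rw [mul_div_assoc'] at h1
    rw [div_le_iff₀ hκ] at h1
    linarith
  -- exponential bounds
  have he1 : 8 * y ^ 2 ≤ Real.exp (κ * y) := by
    have h1 := Real.pow_div_factorial_le_exp (κ * y) (by positivity) 3
    refine le_trans ?_ h1
    have : (3 : ℕ).factorial = 6 := rfl
    rw [this]
    push_cast
    rw [le_div_iff₀ (by norm_num)]
    rw [div_le_iff₀ (by positivity)] at hy1
    have : (κ * y) ^ 3 = (y * κ ^ 3) * y ^ 2 := by ring
    rw [this]
    nlinarith [pow_pos hy0 2]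
  have he2 : 16 * y ≤ Real.exp (δ * y) := by
    have h1 := Real.pow_div_factorial_le_exp (δ * y) (by positivity) 2
    refine le_trans ?_ h1
    have : (2 : ℕ).factorial = 2 := rfl
    rw [this]
    push_cast
    rw [le_div_iff₀ (by norm_num)]
    rw [div_le_iff₀ (by positivity)] at hy2
    have : (δ * y) ^ 2 = (y * δ ^ 2) * y := by ring
    rw [this]
    nlinarith
  have he3 : Real.exp (κ * y) * Real.exp (δ * y) = Real.exp y := by
    rw [← Real.exp_add]; congr 1; rw [← add_mul, hκδ, one_mul]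
  set N := ⌊Real.exp y⌋₊ with hN
  set Y := ⌊Real.exp (κ * y)⌋₊ with hY
  have hexpy : 7001 ≤ Real.exp y := by
    have := Real.add_one_le_exp y
    linarith
  have hN1 : Real.exp y - 1 < N := Nat.sub_one_lt_floor _
  have hN2 : (N : ℝ) ≤ Real.exp y := Nat.floor_le (Real.exp_pos _).le
  have hN3 : Real.exp y ≤ 2 * N := by linarith
  have hN0 : (0 : ℝ) < N := by linarith
  have hN100 : 100 ≤ N := by
    have : (100 : ℝ) ≤ N := by linarith
    exact_mod_cast this
  have hY1 : (Y : ℝ) ≤ Real.exp (κ * y) := Nat.floor_le (Real.exp_pos _).le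
  have hY2 : Real.exp (κ * y) < (Y + 1 : ℕ) := by
    push_cast
    exact Nat.lt_floor_add_one _
  set M : ℝ := ((Y + 1 : ℕ) : ℝ) with hM
  have hM0 : 0 < M := lt_trans (Real.exp_pos _) hY2
  have hL : κ * y ≤ Real.log M := by
    rw [Real.le_log_iff_exp_le hM0]; exact hY2.le
  have hκy : 0 < κ * y := by positivity
  have hL0 : 0 < Real.log M := by linarith
  have hL7 : 7000 ≤ Real.log M := by
    rw [div_le_iff₀ hκ] at hy4
    linarith
  -- first moment
  set u : ℝ := M / (8 * y) with hu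
  have hu0 : 0 < u := by positivity
  have hfirst : u + k ≤ (Y + 1 : ℕ) * ((N.primeCounting : ℝ) - Y - k) / N := by
    have h1 := primeCounting_ge N hN100
    have hlogN : Real.log N ≤ y := by
      rw [Real.log_le_iff_le_exp hN0]; exact hN2
    have hlogN0 : 0 < Real.log N := Real.log_pos (by
      have : (100 : ℝ) ≤ N := by exact_mod_cast hN100
      linarith)
    have h2 : (N : ℝ) / (2 * y) ≤ N.primeCounting := by
      refine le_trans ?_ h1
      apply div_le_div_of_nonneg_left hN0.le (by positivity)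
      linarith
    have h3 : (Y : ℝ) + k ≤ N / (4 * y) := by
      rw [le_div_iff₀ (by positivity)]
      have h4 : (k : ℝ) ≤ Real.exp (κ * y) := by nlinarith
      have h5 : ((Y : ℝ) + k) * (4 * y) ≤ (2 * Real.exp (κ * y)) * (4 * y) := by
        gcongr; linarith
      have h6 : (2 * Real.exp (κ * y)) * (4 * y) ≤ Real.exp (κ * y) * Real.exp (δ * y) / 2 := by
        have := Real.exp_pos (κ * y)
        nlinarith
      rw [he3] at h6
      linarith
    have h4 : (N : ℝ) / (4 * y) ≤ (N.primeCounting : ℝ) - Y - k := by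
      have h5 : (N : ℝ) / (2 * y) = 2 * (N / (4 * y)) := by field_simp; norm_num
      linarith
    rw [le_div_iff₀ hN0]
    have h5 : (k : ℝ) ≤ u := by
      rw [hu, le_div_iff₀ (by positivity)]
      have h6 : (k : ℝ) * (8 * y) ≤ y * (8 * y) := by gcongr
      nlinarith
    calc (u + k) * N ≤ (u + u) * N := by gcongr
      _ = M * (N / (4 * y)) := by rw [hu]; field_simp; norm_num
      _ ≤ (Y + 1 : ℕ) * ((N.primeCounting : ℝ) - Y - k) := by
          rw [hM]
          gcongr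
  have hR1 := first_moment Y k N hk (by omega) u hu0.le hfirst
  have hR2 := second_moment Y k N hk hL7
  have hCS := cauchy_good N Y k
  set good : ℝ := ((goodFin N Y k).card : ℝ) with hgood
  have hgood0 : 0 ≤ good := Nat.cast_nonneg _
  have hcount := adm_count_le Y k hk (by
    have h1 : (primorial k : ℝ) ≤ (4 : ℝ) ^ k := by exact_mod_cast primorial_le_four_pow k
    have h2 : (4 : ℝ) ^ k ≤ Real.exp (κ * y) := by
      rw [← Real.log_le_log_iff (by positivity) (Real.exp_pos _), Real.log_pow, Real.log_exp]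
      have h3 : Real.log 4 = 2 * Real.log 2 := by
        rw [show (4 : ℝ) = 2 ^ 2 by norm_num, Real.log_pow]; push_cast; ring
      rw [h3]
      nlinarith [Real.log_two_lt_d9]
    have h3 : (primorial k : ℝ) ≤ (Y + 1 : ℕ) := by linarith
    exact_mod_cast h3)
  set lam : ℝ := Real.log (2 * k : ℕ) with hlam
  have hlam0 : (0.69 : ℝ) ≤ lam := by
    rw [hlam]
    have h1 : Real.log 2 ≤ Real.log (2 * k : ℕ) := by
      apply Real.log_le_log (by norm_num)
      push_cast; linarith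
    linarith [Real.log_two_gt_d9]
  have hlampos : 0 < lam := by linarith
  have hfac : (0 : ℝ) < k.factorial := by exact_mod_cast Nat.factorial_pos k
  set D : ℝ := 10 ^ 5 * (M / Real.log M) with hD
  set E : ℝ := 500 * lam * (10 ^ 9 * (M / (Real.log M) ^ 2)) with hE
  have hD0 : 0 < D := by positivity
  have hE0 : 0 < E := by positivity
  set T : ℝ := N * D ^ k + 6 * N ^ 2 * E ^ k with hT
  have hT0 : 0 < T := by positivity
  have h1 : (N * u ^ k / k.factorial) ^ 2 ≤ good * (T / k.factorial) := by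
    calc (N * u ^ k / k.factorial) ^ 2 ≤ (∑ n ∈ Icc 1 N, ((PS Y k n).card.choose k : ℝ)) ^ 2 := by
          apply pow_le_pow_left₀ (by positivity) hR1
      _ ≤ good * ∑ n ∈ Icc 1 N, ∑ m ∈ Icc 1 N, ((PS Y k n ∩ PS Y k m).card.choose k : ℝ) := hCS
      _ ≤ good * (T / k.factorial) := mul_le_mul_of_nonneg_left hR2 hgood0
  have h2 : (N : ℝ) ^ 2 * (u ^ k) ^ 2 / k.factorial ≤ good * T := by
    have h3 : (N * u ^ k / k.factorial) ^ 2 = (N : ℝ) ^ 2 * (u ^ k) ^ 2 / k.factorial / k.factorial := by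
      field_simp
    have h4 : good * (T / k.factorial) = good * T / k.factorial := by ring
    rw [h3, h4] at h1
    exact (div_le_div_iff_of_pos_right hfac).mp h1
  set C : ℝ := 10 ^ 16 / κ ^ 2 with hC
  have hC0 : 0 < C := by positivity
  -- the main inequality
  have hyk : y ^ k ≤ Real.exp y := by
    rw [← Real.log_le_iff_le_exp (by positivity), Real.log_pow]
    exact hky
  have hmain : (16 * M / lam) ^ k * T ≤ C ^ k * ((N : ℝ) ^ 2 * (u ^ k) ^ 2) :=
    main_ineq κ y M (Real.log M) lam N k hκ hκ1 hy0 hM0 hL hlam0 hN0.le hk (hyk.trans hN3)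
  -- conclusion
  have h3 : ((admFin Y k).card : ℝ) * T ≤ C ^ k * good * T := by
    calc ((admFin Y k).card : ℝ) * T
        ≤ ((16 * M / lam) ^ k / k.factorial) * T := by gcongr
      _ = (16 * M / lam) ^ k * T / k.factorial := by ring
      _ ≤ C ^ k * ((N : ℝ) ^ 2 * (u ^ k) ^ 2) / k.factorial := by gcongr
      _ = C ^ k * ((N : ℝ) ^ 2 * (u ^ k) ^ 2 / k.factorial) := by ring
      _ ≤ C ^ k * (good * T) := by gcongr
      _ = _ := by ring
  exact le_of_mul_le_mul_right h3 hT0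

end Pool.Agent.Lib.Helper57
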