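import Mathlib
import Pool.Agent.Lib.Helper57.PropCore

/-!
# Almost no admissible set with more than `(1 + ε) log x / log log x` elements has a prime translate
-/

namespace Pool.Agent.Lib.Helper57

open Finset Pool.Agent.Lib.Sieve Filter

/-- For primes larger than the number of elements some class is missed. -/
lemma exists_missed {A : Finset ℕ} {p : ℕ} (hpA : A.card < p) : ∃ r : ℕ, ∀ a ∈ A, ¬ p ∣ r + a := by
  have h1 : ∃ c ∈ range p, c ∉ A.image (fun a => a % p) := by
    by_contra hcon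
    push Not at hcon
    have h2 : range p ⊆ A.image (fun a => a % p) := hcon
    have h3 := card_le_card h2
    rw [card_range] at h3
    have h4 : (A.image (fun a => a % p)).card ≤ A.card := card_image_le
    omega
  obtain ⟨c, hc, hc'⟩ := h1
  rw [mem_range] at hc
  refine ⟨p - c, fun a ha hdvd => hc' ?_⟩
  rw [mem_image]
  refine ⟨a, ha, ?_⟩
  have h2 : a ≡ c [MOD p] := by
    have h3 : (p - c) + a ≡ (p - c) + c [MOD p] := by
      have h4 : (p - c) + c = p := by omega
      rw [h4]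
      exact ((Nat.modEq_zero_iff_dvd.mpr hdvd)).trans
        (Nat.modEq_zero_iff_dvd.mpr dvd_rfl).symm
    exact Nat.ModEq.add_left_cancel' _ h3
  have h3 : a % p = c % p := h2
  rw [h3, Nat.mod_eq_of_lt hc]

open Classical in
/-- The `k`-subsets of `[0, Y]` with a translate (by `1 ≤ n ≤ N`) consisting of primes. -/
noncomputable def transFin (N Y k : ℕ) : Finset (Finset ℕ) :=
  (powersetCard k (range (Y + 1))).filter fun A => ∃ n ∈ Icc 1 N, ∀ a ∈ A, (n + a).Prime

lemma mem_transFin {N Y k : ℕ} {A : Finset ℕ} : A ∈ transFin N Y k ↔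
    (A ⊆ range (Y + 1) ∧ A.card = k) ∧ ∃ n ∈ Icc 1 N, ∀ a ∈ A, (n + a).Prime := by
  unfold transFin
  simp only [mem_filter, mem_powersetCard]

lemma transFin_card_le (N Y k : ℕ) (hY : 7000 ≤ Real.log (Y + 1 : ℕ)) :
    ((transFin N Y k).card : ℝ) ≤
      N * ((10 ^ 5 * ((Y + 1 : ℕ) / Real.log (Y + 1 : ℕ))) ^ k / k.factorial) := by
  classical
  set P : ℕ → Finset ℕ := fun n => (range (Y + 1)).filter fun a => (n + a).Prime with hP
  have h1 : transFin N Y k ⊆ (Icc 1 N).biUnion fun n => powersetCard k (P n) := by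
    intro A hA
    rw [mem_transFin] at hA
    obtain ⟨⟨hA1, hA2⟩, n, hn, hA3⟩ := hA
    rw [mem_biUnion]
    refine ⟨n, hn, ?_⟩
    rw [mem_powersetCard]
    refine ⟨fun a ha => ?_, hA2⟩
    simp only [hP]
    rw [mem_filter]
    exact ⟨hA1 ha, hA3 a ha⟩
  have h2 : (transFin N Y k).card ≤ ∑ n ∈ Icc 1 N, (P n).card.choose k := by
    refine (card_le_card h1).trans (card_biUnion_le.trans (le_of_eq ?_))
    apply Finset.sum_congr rfl
    intro n _
    rw [card_powersetCard]
  have h3 : ∀ n, ((P n).card : ℝ) ≤ 10 ^ 5 * ((Y + 1 : ℕ) / Real.log (Y + 1 : ℕ)) := by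
    intro n
    have h4 := cnt_single_le n (Y + 1) hY
    rw [cnt_eq] at h4
    exact h4
  calc ((transFin N Y k).card : ℝ) ≤ ∑ n ∈ Icc 1 N, ((P n).card.choose k : ℝ) := by
        exact_mod_cast h2
    _ ≤ ∑ n ∈ Icc 1 N, (10 ^ 5 * ((Y + 1 : ℕ) / Real.log (Y + 1 : ℕ))) ^ k / (k.factorial : ℝ) := by
        apply Finset.sum_le_sum
        intro n _
        refine (Nat.choose_le_pow_div k _).trans ?_
        apply div_le_div_of_nonneg_right _ (Nat.cast_nonneg _)
        exact pow_le_pow_left₀ (Nat.cast_nonneg _) (h3 n) k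
    _ = _ := by
        rw [Finset.sum_const, Nat.card_Icc, Nat.add_sub_cancel, nsmul_eq_mul]

lemma adm_count_ge (Y k : ℕ) (hk : 5 ≤ k) (s : ℝ) (hs : 0 ≤ s)
    (h : s + k + (k : ℝ) ^ 1213 ≤ (Y + 1 : ℕ) / (1200 * Real.log k)) (hY : 41 ≤ Y) :
    s ^ k / k.factorial ≤ ((admFin Y k).card : ℝ) := by
  classical
  have hk' : (5 : ℝ) ≤ k := by exact_mod_cast hk
  have hlogk : 0 < Real.log k := Real.log_pos (by linarith)
  set S : Finset ℕ := (range (Y + 1)).filter fun a => ∀ p ∈ primesUpTo k, ¬ p ∣ a with hS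
  have h1 : powersetCard k S ⊆ admFin Y k := by
    intro A hA
    rw [mem_powersetCard] at hA
    rw [mem_admFin]
    refine ⟨⟨hA.1.trans (Finset.filter_subset _ _), hA.2⟩, ?_⟩
    intro p hp
    by_cases hpk : p ≤ k
    · refine ⟨0, fun a ha => ?_⟩
      rw [zero_add]
      have h2 := hA.1 ha
      rw [hS, mem_filter] at h2
      exact h2.2 p (mem_primesUpTo.mpr ⟨hp, hpk⟩)
    · exact exists_missed (by omega)
  -- lower bound for `S`
  set M := (Y + 1) / 6 with hM
  have h2 : cnt (Free {0} 1 6 4 k) M ≤ S.card := by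
    rw [cnt_eq]
    refine Finset.card_le_card_of_injOn (fun m => 1 + 6 * m) ?_ ?_
    · intro m hm
      rw [mem_coe, mem_filter, mem_range] at hm
      show 1 + 6 * m ∈ (S : Set ℕ)
      rw [mem_coe, hS, mem_filter, mem_range]
      refine ⟨by omega, fun p hp hdvd => ?_⟩
      obtain ⟨hpp, hpk⟩ := mem_primesUpTo.mp hp
      by_cases h4 : 4 < p
      · refine hm.2 p (mem_pr.mpr ⟨hpp, h4, hpk⟩) ⟨0, mem_singleton_self 0, ?_⟩
        rwa [add_zero]
      · have := hpp.two_le
        have h5 : p = 2 ∨ p = 3 ∨ p = 4 := by omega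
        rcases h5 with h5 | h5 | h5
        · subst h5; omega
        · subst h5; omega
        · subst h5; norm_num at hpp
    · intro a _ b _ hab
      have : 1 + 6 * a = 1 + 6 * b := hab
      omega
  have h3 := (uniform_sieve (A := {0}) (k := 1) (K := 4) (z := k) le_rfl (by simp) (by norm_num)
    (by omega) 1 6 M (fun p hp hdvd => by
      obtain ⟨hpp, h4, _⟩ := mem_pr.mp hp
      have := Nat.le_of_dvd (by norm_num) hdvd
      have h5 : p = 5 ∨ p = 6 := by omega
      rcases h5 with h5 | h5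
      · subst h5; norm_num at hdvd
      · subst h5; norm_num at hpp)).1
  have h4 : 3 / (500 * Real.log k) ≤ dens {0} 4 k := by
    have h5 : dens {0} 4 k = ∏ p ∈ pr 4 k, (1 - 1 / (p : ℝ)) := by
      unfold dens
      apply Finset.prod_congr rfl
      intro p _
      have : nu {0} p = 1 := by
        unfold nu
        rw [Finset.image_singleton, Finset.card_singleton]
      rw [this]
      push_cast
      rfl
    have h6 := prod_one_sub_inv_inv_le k (by omega)
    rw [Finset.prod_inv_distrib] at h6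
    have h7 : 0 < ∏ p ∈ primesUpTo k, (1 - 1 / (p : ℝ)) := by
      apply Finset.prod_pos
      intro p hp
      have hp2 : (2 : ℝ) ≤ p := by exact_mod_cast (mem_primesUpTo.mp hp).1.two_le
      have h2 : (1 : ℝ) / p ≤ 1 / 2 := one_div_le_one_div_of_le (by norm_num) hp2
      linarith
    have h8 : 1 / (500 * Real.log k) ≤ ∏ p ∈ primesUpTo k, (1 - 1 / (p : ℝ)) := by
      rw [one_div]
      exact inv_le_of_inv_le₀ h7 h6
    have h9 : ∏ p ∈ primesUpTo k, (1 - 1 / (p : ℝ)) = 1 / 3 * ∏ p ∈ pr 4 k, (1 - 1 / (p : ℝ)) := by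
      rw [primesUpTo_eq k (by omega), Finset.prod_insert, Finset.prod_insert]
      · push_cast; ring
      · rw [mem_pr]; omega
      · rw [mem_insert, mem_pr]; omega
    rw [h5]
    rw [h9] at h8
    have h10 : 3 / (500 * Real.log k) = 3 * (1 / (500 * Real.log k)) := by ring
    rw [h10]
    linarith
  have hM1 : ((Y + 1 : ℕ) : ℝ) / 7 ≤ M := by
    rw [div_le_iff₀ (by norm_num)]
    have : Y + 1 ≤ M * 7 := by omega
    exact_mod_cast this
  have h5 : ((Y + 1 : ℕ) : ℝ) / (1200 * Real.log k) - (k : ℝ) ^ 1213 ≤ S.card := by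
    have h6 : ((Y + 1 : ℕ) : ℝ) / (1200 * Real.log k) ≤ 0.98 * (M * dens {0} 4 k) := by
      calc ((Y + 1 : ℕ) : ℝ) / (1200 * Real.log k)
          ≤ 0.98 * (((Y + 1 : ℕ) : ℝ) / 7 * (3 / (500 * Real.log k))) := by
            rw [div_mul_div_comm, mul_div_assoc', div_le_div_iff₀ (by positivity) (by positivity)]
            have h7 : 0 ≤ ((Y + 1 : ℕ) : ℝ) * Real.log k := by positivity
            nlinarith
        _ ≤ _ := by
            apply mul_le_mul_of_nonneg_left _ (by norm_num)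
            apply mul_le_mul hM1 h4 (by positivity) (Nat.cast_nonneg _)
    have h7 : (cnt (Free {0} 1 6 4 k) M : ℝ) ≤ S.card := by exact_mod_cast h2
    rw [mul_one] at h3
    linarith
  have h6 : s ≤ ((S.card + 1 - k : ℕ) : ℝ) := by
    have h7 : (S.card : ℝ) ≤ ((S.card + 1 - k : ℕ) : ℝ) + k := by
      have : S.card ≤ (S.card + 1 - k) + k := by omega
      exact_mod_cast this
    linarith
  calc s ^ k / k.factorial ≤ ((S.card + 1 - k : ℕ) : ℝ) ^ k / k.factorial := by
        apply div_le_div_of_nonneg_right _ (Nat.cast_nonneg _)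
        exact pow_le_pow_left₀ hs h6 k
    _ ≤ (S.card.choose k : ℝ) := Nat.pow_le_choose k _
    _ = ((powersetCard k S).card : ℝ) := by rw [card_powersetCard]
    _ ≤ _ := by exact_mod_cast card_le_card h1

/-- The core inequality. -/
theorem sharp_core (κ ε y : ℝ) (B : ℕ) (hκ : 0 < κ) (hε : 0 < ε) (k : ℕ) (hk : 5 ≤ k)
    (hy : 7000 / κ ≤ y) (hy1 : 1 ≤ y)
    (hk1 : (1 + ε) * y ≤ k * Real.log y) (hk2 : (k : ℝ) ≤ y ^ B)
    (h1 : 2 * y ^ (1213 * B) * (2400 * (B * Real.log y)) ≤ Real.exp (κ * y))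
    (h2 : 10 ^ 5 / κ * (2400 * (B * Real.log y)) ≤
      Real.exp (ε / (2 * (1 + ε)) * Real.log y)) :
    0 < (admFin ⌊Real.exp (κ * y)⌋₊ k).card ∧
    ((transFin ⌊Real.exp y⌋₊ ⌊Real.exp (κ * y)⌋₊ k).card : ℝ) ≤
      Real.exp (-(ε / 2 * y)) * ((admFin ⌊Real.exp (κ * y)⌋₊ k).card : ℝ) := by
  set N := ⌊Real.exp y⌋₊ with hN
  set Y := ⌊Real.exp (κ * y)⌋₊ with hY
  have hy0 : 0 < y := by linarith
  have hN2 : (N : ℝ) ≤ Real.exp y := Nat.floor_le (Real.exp_pos _).le
  have hY2 : Real.exp (κ * y) < (Y + 1 : ℕ) := by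
    push_cast
    exact Nat.lt_floor_add_one _
  obtain ⟨M, hM⟩ : ∃ M : ℝ, M = ((Y + 1 : ℕ) : ℝ) := ⟨_, rfl⟩
  rw [← hM] at hY2
  have hM0 : 0 < M := lt_trans (Real.exp_pos _) hY2
  have hL : κ * y ≤ Real.log M := by
    rw [Real.le_log_iff_exp_le hM0]; exact hY2.le
  have hκy : 7000 ≤ κ * y := by
    rw [div_le_iff₀ hκ] at hy; linarith
  have hL7 : 7000 ≤ Real.log M := by linarith
  have hk' : (5 : ℝ) ≤ k := by exact_mod_cast hk
  have hlogk : 0 < Real.log k := Real.log_pos (by linarith)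
  have hlogk2 : Real.log k ≤ B * Real.log y := by
    rw [← Real.log_pow]
    exact Real.log_le_log (by linarith) hk2
  obtain ⟨l, hl⟩ : ∃ l : ℝ, l = B * Real.log y := ⟨_, rfl⟩
  rw [← hl] at hlogk2 h1 h2
  have hl0 : 0 < l := by linarith
  obtain ⟨s, hs⟩ : ∃ s : ℝ, s = M / (2400 * l) := ⟨_, rfl⟩
  have hs0 : 0 < s := by rw [hs]; positivity
  have hfac : (0 : ℝ) < k.factorial := by exact_mod_cast Nat.factorial_pos k
  have hY41 : 41 ≤ Y := by
    have h3 : (7001 : ℝ) ≤ M := by
      have := Real.add_one_le_exp (κ * y)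
      linarith
    have h4 : (7001 : ℝ) ≤ ((Y + 1 : ℕ) : ℝ) := by rw [← hM]; exact h3
    have h5 : 7001 ≤ Y + 1 := by exact_mod_cast h4
    omega
  have hge := adm_count_ge Y k hk s hs0.le (by
    rw [← hM]
    have h3 : (k : ℝ) + (k : ℝ) ^ 1213 ≤ 2 * y ^ (1213 * B) := by
      have h4 : (k : ℝ) ^ 1213 ≤ y ^ (1213 * B) := by
        calc (k : ℝ) ^ 1213 ≤ (y ^ B) ^ 1213 := pow_le_pow_left₀ (by linarith) hk2 _
          _ = y ^ (1213 * B) := by rw [← pow_mul, mul_comm]
      have h5 : (k : ℝ) ≤ (k : ℝ) ^ 1213 := by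
        calc (k : ℝ) = (k : ℝ) ^ 1 := (pow_one _).symm
          _ ≤ _ := pow_le_pow_right₀ (by linarith) (by norm_num)
      linarith
    have h4 : 2 * y ^ (1213 * B) ≤ M / (2400 * l) := by
      rw [le_div_iff₀ (by positivity)]
      linarith
    have h5 : M / (1200 * l) ≤ M / (1200 * Real.log k) := by
      apply div_le_div_of_nonneg_left hM0.le (by positivity)
      linarith
    have h6 : M / (1200 * l) = 2 * (M / (2400 * l)) := by field_simp; norm_num
    rw [hs]
    linarith) hY41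
  have hpos : (0 : ℝ) < (admFin Y k).card := lt_of_lt_of_le (by positivity) hge
  refine ⟨by exact_mod_cast hpos, ?_⟩
  have hle := transFin_card_le N Y k (by rw [← hM]; exact hL7)
  rw [← hM] at hle
  refine hle.trans ?_
  refine le_trans ?_ (mul_le_mul_of_nonneg_left hge (Real.exp_pos _).le)
  -- compare
  have h3 : 10 ^ 5 * (M / Real.log M) ≤ s * (Real.exp (ε / (2 * (1 + ε)) * Real.log y) / y) := by
    have h4 : M / Real.log M ≤ M / (κ * y) :=
      div_le_div_of_nonneg_left hM0.le (by linarith) hL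
    have h5 : 10 ^ 5 * (M / (κ * y)) = s * ((10 ^ 5 / κ * (2400 * l)) / y) := by
      rw [hs]; field_simp
    have h6 : s * ((10 ^ 5 / κ * (2400 * l)) / y) ≤
        s * (Real.exp (ε / (2 * (1 + ε)) * Real.log y) / y) := by
      apply mul_le_mul_of_nonneg_left _ hs0.le
      exact div_le_div_of_nonneg_right h2 hy0.le
    linarith
  have h4 : Real.exp (ε / (2 * (1 + ε)) * Real.log y) / y =
      Real.exp (-((1 - ε / (2 * (1 + ε))) * Real.log y)) := by
    nth_rewrite 2 [← Real.exp_log hy0]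
    rw [← Real.exp_sub]
    congr 1
    ring
  rw [h4] at h3
  have hlogM : 0 < Real.log M := by linarith
  have h5 : (10 ^ 5 * (M / Real.log M)) ^ k ≤
      s ^ k * Real.exp (-((1 - ε / (2 * (1 + ε))) * (k * Real.log y))) := by
    calc (10 ^ 5 * (M / Real.log M)) ^ k
        ≤ (s * Real.exp (-((1 - ε / (2 * (1 + ε))) * Real.log y))) ^ k :=
          pow_le_pow_left₀ (by positivity) h3 k
      _ = _ := by
          rw [mul_pow, ← Real.exp_nat_mul]
          congr 2
          ring
  have h6 : Real.exp (-((1 - ε / (2 * (1 + ε))) * (k * Real.log y))) ≤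
      Real.exp (-(y + ε / 2 * y)) := by
    apply Real.exp_le_exp.mpr
    have h7 : 0 ≤ 1 - ε / (2 * (1 + ε)) := by
      rw [sub_nonneg, div_le_one (by positivity)]
      linarith
    have h8 : (1 - ε / (2 * (1 + ε))) * ((1 + ε) * y) = y + ε / 2 * y := by
      field_simp
      ring
    have h9 := mul_le_mul_of_nonneg_left hk1 h7
    linarith
  calc (N : ℝ) * ((10 ^ 5 * (M / Real.log M)) ^ k / k.factorial)
      ≤ Real.exp y * ((s ^ k * Real.exp (-(y + ε / 2 * y))) / k.factorial) := by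
        apply mul_le_mul hN2 _ (by positivity) (Real.exp_pos _).le
        apply div_le_div_of_nonneg_right _ hfac.le
        refine h5.trans ?_
        exact mul_le_mul_of_nonneg_left h6 (by positivity)
    _ = (Real.exp y * Real.exp (-(y + ε / 2 * y))) * (s ^ k / k.factorial) := by ring
    _ = Real.exp (-(ε / 2 * y)) * (s ^ k / k.factorial) := by
        rw [← Real.exp_add]
        congr 2
        ring

end Pool.Agent.Lib.Helper57
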