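import Mathlib
import Pool.Agent.Lib.Helper57.Rough

/-!
Counting the unsieved elements for which `n + a` has a square factor or many prime factors.
-/

open Finset

namespace Pool.Agent.Lib.Helper57

variable {A : Finset ℕ} {k K z r Q M a X : ℕ}

/-- All data needed for the two counts. `X` is an upper bound for the numbers `r + Q m + a`. -/
structure Setup (A : Finset ℕ) (k K z r Q M a X : ℕ) : Prop where
  hk : 1 ≤ k
  hAk : A.card ≤ k
  hK : 2 * k ≤ K
  hz : 2 ≤ z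
  hKz : K ≤ z
  hQ : ∀ p : ℕ, p.Prime → p ∣ Q → p ≤ K
  hX : ∀ m < M, r + Q * m + a ≤ X
  hpos : 0 < r

lemma Setup.hQ' (S : Setup A k K z r Q M a X) : ∀ p ∈ pr K z, ¬ p ∣ Q := by
  intro p hp hdvd
  have := S.hQ p (mem_pr.mp hp).1 hdvd
  have := (mem_pr.mp hp).2.1
  omega

lemma Setup.coprime (S : Setup A k K z r Q M a X) {d : ℕ}
    (hd : ∀ p : ℕ, p.Prime → p ∣ d → z < p) : Nat.Coprime Q d := by
  apply Nat.Coprime.symm
  apply Nat.coprime_of_dvd
  intro p hp h1 h2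
  have h3 := S.hQ p hp h2
  have h4 := hd p hp h1
  have := S.hKz
  omega

lemma Setup.ndvd (_S : Setup A k K z r Q M a X) {d : ℕ}
    (hd : ∀ p : ℕ, p.Prime → p ∣ d → z < p) : ∀ p ∈ pr K z, ¬ p ∣ d := by
  intro p hp hdvd
  have := hd p (mem_pr.mp hp).1 hdvd
  have := (mem_pr.mp hp).2.2
  omega

/-- Elements with a large square factor. -/
lemma Setup.cnt_square (S : Setup A k K z r Q M a X) (Y : ℕ) (hzY : z ≤ Y) :
    (cnt (fun m => m < M ∧ Free A r Q K z m ∧ ∃ p, p.Prime ∧ z < p ∧ p ^ 2 ∣ r + Q * m + a) M : ℝ) ≤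
      1.02 * (M * dens A K z / z) + Y * (1.02 + (z : ℝ) ^ (1213 * k)) +
        (M / Y + Nat.sqrt X) := by
  classical
  have hz1 : 1 ≤ z := by have := S.hz; omega
  -- split the primes at `Y`
  have h1 : cnt (fun m => m < M ∧ Free A r Q K z m ∧
      ∃ p, p.Prime ∧ z < p ∧ p ^ 2 ∣ r + Q * m + a) M ≤
      cnt (fun m => ∃ p ∈ (Ioc z Y).filter Nat.Prime,
        (Free A r Q K z m ∧ p ^ 2 ∣ r + Q * m + a)) M +
      cnt (fun m => ∃ p ∈ (Ioc Y (Nat.sqrt X)).filter Nat.Prime, (p ^ 2 ∣ r + Q * m + a)) M := by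
    refine le_trans (cnt_le_of_imp ?_ M) (cnt_or_le _ _ M)
    rintro m ⟨hmM, hfree, p, hp, hzp, hdvd⟩
    rcases le_or_gt p Y with h | h
    · left
      exact ⟨p, mem_filter.mpr ⟨mem_Ioc.mpr ⟨hzp, h⟩, hp⟩, hfree, hdvd⟩
    · right
      refine ⟨p, mem_filter.mpr ⟨mem_Ioc.mpr ⟨h, ?_⟩, hp⟩, hdvd⟩
      rw [Nat.le_sqrt']
      have h2 := Nat.le_of_dvd (by have := S.hpos; omega) hdvd
      exact h2.trans (S.hX m hmM)
  have hsq : ∀ p : ℕ, p.Prime → z < p → ∀ q : ℕ, q.Prime → q ∣ p ^ 2 → z < q := by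
    intro p hp hzp q hq hdvd
    have := (Nat.prime_dvd_prime_iff_eq hq hp).mp (hq.dvd_of_dvd_pow hdvd)
    omega
  have hd0 := dens_nonneg S.hAk S.hK z
  have hd1 := dens_le_one S.hAk S.hK z
  -- first part
  have h2 : (cnt (fun m => ∃ p ∈ (Ioc z Y).filter Nat.Prime,
        (Free A r Q K z m ∧ p ^ 2 ∣ r + Q * m + a)) M : ℝ) ≤
      1.02 * (M * dens A K z / z) + Y * (1.02 + (z : ℝ) ^ (1213 * k)) := by
    have h3 : (cnt (fun m => ∃ p ∈ (Ioc z Y).filter Nat.Prime,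
        (Free A r Q K z m ∧ p ^ 2 ∣ r + Q * m + a)) M : ℝ) ≤
        ∑ p ∈ (Ioc z Y).filter Nat.Prime,
          (cnt (fun m => Free A r Q K z m ∧ p ^ 2 ∣ r + Q * m + a) M : ℝ) := by
      exact_mod_cast cnt_exists_le _ _ M
    refine h3.trans ?_
    calc ∑ p ∈ (Ioc z Y).filter Nat.Prime,
          (cnt (fun m => Free A r Q K z m ∧ p ^ 2 ∣ r + Q * m + a) M : ℝ)
        ≤ ∑ p ∈ (Ioc z Y).filter Nat.Prime,
          (1.02 * (M * dens A K z) * (1 / (p : ℝ) ^ 2) + (1.02 + (z : ℝ) ^ (1213 * k))) := by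
          apply Finset.sum_le_sum
          intro p hp
          rw [mem_filter, mem_Ioc] at hp
          have h4 := cnt_free_dvd_le S.hk S.hAk S.hK S.hz r Q M S.hQ' (d := p ^ 2) (a := a)
            (pow_pos hp.2.pos 2) (S.coprime (hsq p hp.2 hp.1.1)) (S.ndvd (hsq p hp.2 hp.1.1))
          refine h4.trans ?_
          push_cast
          have : 1.02 * (((M : ℝ) / (p : ℝ) ^ 2 + 1) * dens A K z) =
            1.02 * (M * dens A K z) * (1 / (p : ℝ) ^ 2) + 1.02 * dens A K z := by ring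
          rw [this]
          linarith
      _ ≤ ∑ p ∈ Ioc z Y,
          (1.02 * (M * dens A K z) * (1 / (p : ℝ) ^ 2) + (1.02 + (z : ℝ) ^ (1213 * k))) := by
          apply Finset.sum_le_sum_of_subset_of_nonneg (Finset.filter_subset _ _)
          intro p _ _
          have : 0 ≤ (M : ℝ) * dens A K z := mul_nonneg (Nat.cast_nonneg M) hd0
          positivity
      _ ≤ 1.02 * (M * dens A K z) * (1 / z) + Y * (1.02 + (z : ℝ) ^ (1213 * k)) := by
          rw [Finset.sum_add_distrib, ← Finset.mul_sum, Finset.sum_const, nsmul_eq_mul]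
          have h5 := sum_inv_sq_le hz1 Y
          have h6 : 0 ≤ 1.02 * ((M : ℝ) * dens A K z) := by positivity
          have h7 : ((Ioc z Y).card : ℝ) ≤ Y := by
            rw [Nat.card_Ioc]; exact_mod_cast Nat.sub_le Y z
          have h8 : (0 : ℝ) ≤ 1.02 + (z : ℝ) ^ (1213 * k) := by positivity
          have := mul_le_mul_of_nonneg_left h5 h6
          have := mul_le_mul_of_nonneg_right h7 h8
          linarith
      _ = _ := by ring
  -- second part
  have h3 : (cnt (fun m => ∃ p ∈ (Ioc Y (Nat.sqrt X)).filter Nat.Prime,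
      (p ^ 2 ∣ r + Q * m + a)) M : ℝ) ≤ M / Y + Nat.sqrt X := by
    have h4 : (cnt (fun m => ∃ p ∈ (Ioc Y (Nat.sqrt X)).filter Nat.Prime,
        (p ^ 2 ∣ r + Q * m + a)) M : ℝ) ≤
        ∑ p ∈ (Ioc Y (Nat.sqrt X)).filter Nat.Prime,
          (cnt (fun m => p ^ 2 ∣ r + Q * m + a) M : ℝ) := by
      exact_mod_cast cnt_exists_le _ _ M
    refine h4.trans ?_
    calc ∑ p ∈ (Ioc Y (Nat.sqrt X)).filter Nat.Prime,
          (cnt (fun m => p ^ 2 ∣ r + Q * m + a) M : ℝ)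
        ≤ ∑ p ∈ (Ioc Y (Nat.sqrt X)).filter Nat.Prime, ((M : ℝ) * (1 / (p : ℝ) ^ 2) + 1) := by
          apply Finset.sum_le_sum
          intro p hp
          rw [mem_filter, mem_Ioc] at hp
          have hzp : z < p := by omega
          have h5 := cnt_dvd_le (r := r) (a := a) (pow_pos hp.2.pos 2)
            (S.coprime (hsq p hp.2 hzp)) M
          push_cast at h5
          refine h5.trans (le_of_eq ?_)
          ring
      _ ≤ ∑ p ∈ Ioc Y (Nat.sqrt X), ((M : ℝ) * (1 / (p : ℝ) ^ 2) + 1) := by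
          apply Finset.sum_le_sum_of_subset_of_nonneg (Finset.filter_subset _ _)
          intro p _ _
          positivity
      _ ≤ (M : ℝ) * (1 / Y) + Nat.sqrt X := by
          rw [Finset.sum_add_distrib, ← Finset.mul_sum, Finset.sum_const, nsmul_eq_mul, mul_one]
          have h5 := sum_inv_sq_le (z := Y) (by omega) (Nat.sqrt X)
          have h6 : (0 : ℝ) ≤ M := Nat.cast_nonneg M
          have h7 : ((Ioc Y (Nat.sqrt X)).card : ℝ) ≤ Nat.sqrt X := by
            rw [Nat.card_Ioc]; exact_mod_cast Nat.sub_le _ _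
          have := mul_le_mul_of_nonneg_left h5 h6
          linarith
      _ = _ := by ring
  have h4 : (cnt (fun m => m < M ∧ Free A r Q K z m ∧
      ∃ p, p.Prime ∧ z < p ∧ p ^ 2 ∣ r + Q * m + a) M : ℝ) ≤
      (cnt (fun m => ∃ p ∈ (Ioc z Y).filter Nat.Prime,
        (Free A r Q K z m ∧ p ^ 2 ∣ r + Q * m + a)) M : ℝ) +
      (cnt (fun m => ∃ p ∈ (Ioc Y (Nat.sqrt X)).filter Nat.Prime,
        (p ^ 2 ∣ r + Q * m + a)) M : ℝ) := by exact_mod_cast h1
  linarith

/-- A number with at least `2 R` prime factors has a squarefree divisor composed of exactly `R`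
primes which is at most the square root. -/
lemma exists_small_divisor {n R : ℕ} (hn : 0 < n) (h : 2 * R ≤ n.primeFactors.card) :
    ∃ T ⊆ n.primeFactors, T.card = R ∧ (∏ p ∈ T, p) ^ 2 ≤ n := by
  classical
  obtain ⟨T₀, hT₀, hcard⟩ := Finset.exists_subset_card_eq h
  obtain ⟨T₁, hT₁, hcard₁⟩ := Finset.exists_subset_card_eq (s := T₀) (n := R) (by omega)
  set T₂ := T₀ \ T₁ with hT₂
  have hcard₂ : T₂.card = R := by
    rw [hT₂, Finset.card_sdiff_of_subset hT₁]; omega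
  have hprod : (∏ p ∈ T₁, p) * ∏ p ∈ T₂, p ≤ n := by
    have h1 : (∏ p ∈ T₂, p) * ∏ p ∈ T₁, p = ∏ p ∈ T₀, p := Finset.prod_sdiff hT₁
    have h2 : ∏ p ∈ T₀, p ≤ ∏ p ∈ n.primeFactors, p :=
      Finset.prod_le_prod_of_subset_of_one_le' hT₀ fun p hp _ =>
        (Nat.prime_of_mem_primeFactors hp).pos
    have h3 : ∏ p ∈ n.primeFactors, p ≤ n := Nat.le_of_dvd hn (Nat.prod_primeFactors_dvd n)
    rw [mul_comm, h1]
    exact h2.trans h3
  rcases le_total (∏ p ∈ T₁, p) (∏ p ∈ T₂, p) with hle | hle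
  · refine ⟨T₁, hT₁.trans hT₀, hcard₁, ?_⟩
    rw [sq]
    exact (Nat.mul_le_mul_left _ hle).trans hprod
  · refine ⟨T₂, Finset.sdiff_subset.trans hT₀, hcard₂, ?_⟩
    rw [sq]
    exact (Nat.mul_le_mul_right _ hle).trans hprod

/-- Elements with many prime factors. `R` is half the allowed number of prime factors. -/
lemma Setup.cnt_many (S : Setup A k K z r Q M a X)
    (hfree : ∀ m, Free A r Q K z m → ∀ p : ℕ, p.Prime → p ∣ r + Q * m + a → z < p) (R : ℕ) :
    (cnt (fun m => m < M ∧ Free A r Q K z m ∧ 2 * R ≤ (r + Q * m + a).primeFactors.card) M : ℝ) ≤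
      1.02 * (M * dens A K z) * E (pr z (Nat.sqrt X)) R (fun p => 1 / (p : ℝ)) +
        Nat.sqrt X * (1.02 + (z : ℝ) ^ (1213 * k)) := by
  classical
  -- the relevant family of sets of primes
  set I := ((pr z (Nat.sqrt X)).powersetCard R).filter fun T => ∏ p ∈ T, p ≤ Nat.sqrt X with hI
  have h1 : cnt (fun m => m < M ∧ Free A r Q K z m ∧
      2 * R ≤ (r + Q * m + a).primeFactors.card) M ≤
      cnt (fun m => ∃ T ∈ I, (Free A r Q K z m ∧ (∏ p ∈ T, p) ∣ r + Q * m + a)) M := by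
    apply cnt_le_of_imp
    rintro m ⟨hmM, hf, hR⟩
    have hn : 0 < r + Q * m + a := by have := S.hpos; omega
    obtain ⟨T, hT, hTc, hTsq⟩ := exists_small_divisor hn hR
    have hsqrt : ∏ p ∈ T, p ≤ Nat.sqrt X := by
      rw [Nat.le_sqrt']; exact hTsq.trans (S.hX m hmM)
    refine ⟨T, ?_, hf, ?_⟩
    · rw [hI, mem_filter, mem_powersetCard]
      refine ⟨⟨?_, hTc⟩, hsqrt⟩
      intro p hp
      have hpf := hT hp
      have hpp := Nat.prime_of_mem_primeFactors hpf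
      rw [mem_pr]
      refine ⟨hpp, hfree m hf p hpp (Nat.dvd_of_mem_primeFactors hpf), ?_⟩
      refine le_trans ?_ hsqrt
      apply Nat.le_of_dvd (Finset.prod_pos fun q hq => (Nat.prime_of_mem_primeFactors (hT hq)).pos)
      exact Finset.dvd_prod_of_mem _ hp
    · exact (Finset.prod_dvd_prod_of_subset _ _ _ hT).trans (Nat.prod_primeFactors_dvd _)
  have hd0 := dens_nonneg S.hAk S.hK z
  have hd1 := dens_le_one S.hAk S.hK z
  have h2 : (cnt (fun m => ∃ T ∈ I, (Free A r Q K z m ∧ (∏ p ∈ T, p) ∣ r + Q * m + a)) M : ℝ) ≤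
      ∑ T ∈ I, (cnt (fun m => Free A r Q K z m ∧ (∏ p ∈ T, p) ∣ r + Q * m + a) M : ℝ) := by
    exact_mod_cast cnt_exists_le I
      (fun T m => Free A r Q K z m ∧ (∏ p ∈ T, p) ∣ r + Q * m + a) M
  have hprime : ∀ T ∈ I, ∀ q : ℕ, q.Prime → q ∣ ∏ p ∈ T, p → z < q := by
    intro T hT q hq hdvd
    rw [hI, mem_filter, mem_powersetCard] at hT
    obtain ⟨p, hp, hqp⟩ := (Prime.dvd_finsetProd_iff hq.prime _).mp hdvd
    have hpm := mem_pr.mp (hT.1.1 hp)
    have := (Nat.prime_dvd_prime_iff_eq hq hpm.1).mp hqp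
    omega
  have hposT : ∀ T ∈ I, 0 < ∏ p ∈ T, p := by
    intro T hT
    rw [hI, mem_filter, mem_powersetCard] at hT
    exact Finset.prod_pos fun p hp => (mem_pr.mp (hT.1.1 hp)).1.pos
  have h3 : ∑ T ∈ I, (cnt (fun m => Free A r Q K z m ∧ (∏ p ∈ T, p) ∣ r + Q * m + a) M : ℝ) ≤
      ∑ T ∈ I, (1.02 * (M * dens A K z) * (∏ p ∈ T, (1 / (p : ℝ))) +
        (1.02 + (z : ℝ) ^ (1213 * k))) := by
    apply Finset.sum_le_sum
    intro T hT
    have h4 := cnt_free_dvd_le S.hk S.hAk S.hK S.hz r Q M S.hQ' (d := ∏ p ∈ T, p) (a := a)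
      (hposT T hT) (S.coprime (hprime T hT)) (S.ndvd (hprime T hT))
    refine h4.trans ?_
    have e : ((∏ p ∈ T, p : ℕ) : ℝ)⁻¹ = ∏ p ∈ T, (1 / (p : ℝ)) := by
      push_cast
      rw [← Finset.prod_inv_distrib]
      simp
    have e2 : 1.02 * (((M : ℝ) / ((∏ p ∈ T, p : ℕ) : ℝ) + 1) * dens A K z) =
        1.02 * (M * dens A K z) * ((∏ p ∈ T, p : ℕ) : ℝ)⁻¹ + 1.02 * dens A K z := by
      rw [div_eq_mul_inv]; ring
    rw [e2, e]
    linarith
  have h4 : (I.card : ℝ) ≤ Nat.sqrt X := by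
    have : I.card ≤ (Icc 1 (Nat.sqrt X)).card := by
      refine Finset.card_le_card_of_injOn (fun T => ∏ p ∈ T, p) ?_ ?_
      · intro T hT
        have hT' : T ∈ I := hT
        rw [Finset.coe_Icc, Set.mem_Icc]
        refine ⟨hposT T hT', ?_⟩
        rw [hI, mem_filter] at hT'
        exact hT'.2
      · intro T hT T' hT' heq
        have hT2 : T ∈ I := hT
        have hT2' : T' ∈ I := hT'
        rw [hI, mem_filter, mem_powersetCard] at hT2 hT2'
        have f1 : (∏ p ∈ T, p).primeFactors = T :=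
          Nat.primeFactors_prod fun p hp => (mem_pr.mp (hT2.1.1 hp)).1
        have f2 : (∏ p ∈ T', p).primeFactors = T' :=
          Nat.primeFactors_prod fun p hp => (mem_pr.mp (hT2'.1.1 hp)).1
        simp only at heq
        rw [← f1, ← f2, heq]
    rw [Nat.card_Icc] at this
    exact_mod_cast this
  have h5 : ∑ T ∈ I, ∏ p ∈ T, (1 / (p : ℝ)) ≤ E (pr z (Nat.sqrt X)) R (fun p => 1 / (p : ℝ)) := by
    unfold E ev
    simp only [one_mul]
    apply Finset.sum_le_sum_of_subset_of_nonneg (Finset.filter_subset _ _)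
    intro T _ _
    exact Finset.prod_nonneg fun p _ => by positivity
  have h6 : 0 ≤ 1.02 * ((M : ℝ) * dens A K z) := by
    have : 0 ≤ (M : ℝ) * dens A K z := mul_nonneg (Nat.cast_nonneg M) hd0
    linarith
  have h7 : (0 : ℝ) ≤ 1.02 + (z : ℝ) ^ (1213 * k) := by positivity
  calc _ ≤ (cnt (fun m => ∃ T ∈ I, (Free A r Q K z m ∧ (∏ p ∈ T, p) ∣ r + Q * m + a)) M : ℝ) := by
        exact_mod_cast h1
    _ ≤ _ := h2
    _ ≤ _ := h3
    _ = 1.02 * (M * dens A K z) * ∑ T ∈ I, ∏ p ∈ T, (1 / (p : ℝ)) +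
        I.card * (1.02 + (z : ℝ) ^ (1213 * k)) := by
        rw [Finset.sum_add_distrib, ← Finset.mul_sum, Finset.sum_const, nsmul_eq_mul]
    _ ≤ _ := by
        have := mul_le_mul_of_nonneg_left h5 h6
        have := mul_le_mul_of_nonneg_right h4 h7
        linarith

/-- The sum of reciprocals of primes in `(z, y]` when `y < z ^ (2 ^ J)`. -/
lemma sum_inv_between {z y J : ℕ} (h : y < z ^ (2 ^ J)) :
    ∑ p ∈ pr z y, (1 : ℝ) / p ≤ 12 * J := by
  have hsub : pr z y ⊆ (range J).biUnion (block z y) := by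
    intro p hp
    have hp' := hp
    rw [pr_eq_biUnion, mem_biUnion] at hp
    obtain ⟨j, _, hj⟩ := hp
    rw [mem_biUnion]
    refine ⟨j, ?_, hj⟩
    rw [mem_range]
    by_contra hcon
    push Not at hcon
    rw [mem_block] at hj
    have h1 : z ^ (2 ^ J) ≤ p ^ (2 ^ j) := by
      calc z ^ (2 ^ J) ≤ p ^ (2 ^ J) := Nat.pow_le_pow_left hj.2.1.le _
        _ ≤ p ^ (2 ^ j) := Nat.pow_le_pow_right hj.1.pos (Nat.pow_le_pow_right (by norm_num) hcon)
    omega
  calc ∑ p ∈ pr z y, (1 : ℝ) / p ≤ ∑ p ∈ (range J).biUnion (block z y), (1 : ℝ) / p :=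
        Finset.sum_le_sum_of_subset_of_nonneg hsub fun p _ _ => by positivity
    _ ≤ ∑ j ∈ range J, ∑ p ∈ block z y j, (1 : ℝ) / p := by
        rw [Finset.sum_biUnion]
        intro i _ j _ hij
        exact block_disjoint z y hij
    _ ≤ ∑ j ∈ range J, (12 : ℝ) := Finset.sum_le_sum fun j _ => sum_inv_block' z y j
    _ = 12 * J := by rw [Finset.sum_const, card_range, nsmul_eq_mul]; ring

/-- `e_R(σ) ≤ exp (-R)` once `R ≥ 100 J` and `σ ≤ 12 J`. -/
lemma E_le_exp {P : Finset ℕ} {J R : ℕ} (hσ : ∑ p ∈ P, (1 : ℝ) / p ≤ 12 * J)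
    (hR : 100 * J ≤ R) (hJ : 1 ≤ J) : E P R (fun p => 1 / (p : ℝ)) ≤ Real.exp (-R) := by
  have h1 := E_le (P := P) (f := fun p => 1 / (p : ℝ)) (fun p _ => by positivity) R
  have hJ' : (1 : ℝ) ≤ J := by exact_mod_cast hJ
  have hR' : (100 * J : ℝ) ≤ R := by exact_mod_cast hR
  have hRpos : (0 : ℝ) < R := by linarith
  have hσ0 : 0 ≤ ∑ p ∈ P, (1 : ℝ) / p := Finset.sum_nonneg fun p _ => by positivity
  have h3 : (R : ℝ) ^ R / R.factorial ≤ Real.exp R := Real.pow_div_factorial_le_exp (R : ℝ) hRpos.le R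
  have hratio : 12 * (J : ℝ) / R ≤ Real.exp (-2) := by
    rw [div_le_iff₀ hRpos]
    have he : (0.13 : ℝ) ≤ Real.exp (-2) := by
      rw [show (-2 : ℝ) = -(1 + 1) by norm_num, Real.exp_neg, Real.exp_add]
      have h := Real.exp_one_lt_d9
      have h0 := Real.exp_pos 1
      rw [le_inv_comm₀ (by norm_num) (by positivity)]
      have : Real.exp 1 * Real.exp 1 ≤ 2.72 * 2.72 :=
        mul_le_mul (by linarith) (by linarith) h0.le (by norm_num)
      refine this.trans (by norm_num)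
    nlinarith
  have h4 : (12 * (J : ℝ)) ^ R / R.factorial = (12 * J / R) ^ R * (R ^ R / R.factorial) := by
    rw [div_pow]; field_simp
  calc E P R (fun p => 1 / (p : ℝ)) ≤ (∑ p ∈ P, 1 / (p : ℝ)) ^ R / R.factorial := h1
    _ ≤ (12 * (J : ℝ)) ^ R / R.factorial := by gcongr
    _ = (12 * J / R) ^ R * (R ^ R / R.factorial) := h4
    _ ≤ (Real.exp (-2)) ^ R * Real.exp R := by
        apply mul_le_mul _ h3 (by positivity) (by positivity)
        exact pow_le_pow_left₀ (by positivity) hratio R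
    _ = Real.exp (-R) := by
        rw [← Real.exp_nat_mul, ← Real.exp_add]; congr 1; ring

end Pool.Agent.Lib.Helper57
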