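import Mathlib
import Pool.Agent.Lib.Helper57.AlmostPrime

/-!
The core estimate for uniform almost-prime tuples.
-/

open Finset

namespace Pool.Agent.Lib.Helper57

/-- The core estimate. -/
lemma core {A : Finset ℕ} {k L : ℕ} {y : ℝ} (hL : (L : ℝ) = 19408) (hk : 1 ≤ k) (hAk : A.card = k)
    (hA : ∀ p : ℕ, p.Prime → ∃ r : ℕ, ∀ a ∈ A, ¬ p ∣ r + a)
    (hy1 : 1 ≤ y) (h1 : 60000 * k * (Real.log y + 1) ≤ y) (hAx : ∀ a ∈ A, (a : ℝ) ≤ Real.exp y) :
    ∃ n : ℕ, 1 ≤ n ∧ (n : ℝ) ≤ Real.exp y ∧ ∀ a ∈ A, Squarefree (n + a) ∧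
      (n + a).primeFactors.card < 200 * (Nat.log 2 k + 17) ∧
      ∀ p : ℕ, p.Prime → p ∣ n + a → Real.exp (y / (L * k)) < p := by
  classical
  -- basic numeric facts
  have hk' : (1 : ℝ) ≤ k := by exact_mod_cast hk
  have hlogy : 0 ≤ Real.log y := Real.log_nonneg hy1
  have hy : 60000 * (k : ℝ) ≤ y := by nlinarith
  have hy60 : (60000 : ℝ) ≤ y := by nlinarith
  have hLk : (0 : ℝ) < (L : ℝ) * k := by rw [hL]; positivity
  have hLnat : L = 19408 := by exact_mod_cast hL
  obtain ⟨t, ht⟩ : ∃ t : ℝ, t = Real.exp (y / (L * k)) := ⟨_, rfl⟩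
  -- `t` is large
  have hexpo : 3 * (Real.log y + 1) ≤ y / (L * k) := by
    rw [le_div_iff₀ hLk]
    rw [hL]
    nlinarith
  have ht_ge : 20 * y ≤ t := by
    have h2 : Real.exp (3 * (Real.log y + 1)) ≤ t := by
      rw [ht]; exact Real.exp_le_exp.mpr hexpo
    have h3 : Real.exp (3 * (Real.log y + 1)) = y ^ 3 * Real.exp 3 := by
      rw [mul_add, Real.exp_add, mul_one]
      congr 1
      rw [show 3 * Real.log y = Real.log (y ^ 3) by rw [Real.log_pow]; norm_num,
        Real.exp_log (by positivity)]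
    have h4 : 1 ≤ Real.exp 3 := Real.one_le_exp (by norm_num)
    have h5 : 20 * y ≤ y ^ 3 := by nlinarith [mul_self_nonneg (y - 1)]
    calc 20 * y ≤ y ^ 3 * 1 := by linarith
      _ ≤ y ^ 3 * Real.exp 3 := by gcongr
      _ ≤ t := h3 ▸ h2
  have ht0 : 0 ≤ t := by rw [ht]; exact (Real.exp_pos _).le
  obtain ⟨z, hz⟩ : ∃ z : ℕ, z = ⌊t⌋₊ := ⟨_, rfl⟩
  have hzt : (z : ℝ) ≤ t := by rw [hz]; exact Nat.floor_le ht0
  have htz : t < z + 1 := by rw [hz]; exact Nat.lt_floor_add_one t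
  have hz19 : 19 * y ≤ z := by linarith
  have hz0 : (0 : ℝ) < z := by linarith
  have hz2 : 2 ≤ z := by
    have : (2 : ℝ) ≤ z := by linarith
    exact_mod_cast this
  have h2kz : 2 * k ≤ z := by
    have : (2 * k : ℝ) ≤ z := by linarith
    exact_mod_cast this
  have hzpow : (z : ℝ) ^ (1213 * k) ≤ Real.exp (y / 16) := by
    calc (z : ℝ) ^ (1213 * k) ≤ t ^ (1213 * k) := pow_le_pow_left₀ hz0.le hzt _
      _ = Real.exp (y / 16) := by
        rw [ht, ← Real.exp_nat_mul]
        congr 1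
        rw [hL]
        push_cast
        field_simp
        norm_num
  -- the modulus
  obtain ⟨W, hW⟩ : ∃ W : ℕ, W = primorial (2 * k) := ⟨_, rfl⟩
  have hWpos : 0 < W := by rw [hW]; exact primorial_pos _
  have hWdvd : ∀ p : ℕ, p.Prime → (p ∣ W ↔ p ≤ 2 * k) := fun p hp => by
    rw [hW]; exact hp.dvd_primorial_iff
  have hlog4 : Real.log 4 ≤ 1.39 := by
    have : Real.log 4 = 2 * Real.log 2 := by
      rw [show (4 : ℝ) = 2 ^ 2 by norm_num, Real.log_pow]; push_cast; ring
    rw [this]; linarith [Real.log_two_lt_d9]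
  have hWle : (W : ℝ) ≤ Real.exp (y / 32) := by
    have h2 : (W : ℝ) ≤ 4 ^ (2 * k) := by
      rw [hW]; exact_mod_cast primorial_le_four_pow (2 * k)
    refine h2.trans ?_
    rw [← Real.log_le_iff_le_exp (by positivity), Real.log_pow]
    push_cast
    nlinarith
  -- the residue class
  obtain ⟨b, hb⟩ := exists_residue (A := A) ((range (2 * k + 1)).filter Nat.Prime)
    (fun p hp => (mem_filter.mp hp).2) fun p hp => hA p (mem_filter.mp hp).2
  obtain ⟨r, hr⟩ : ∃ r : ℕ, r = b % W + W := ⟨_, rfl⟩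
  have hrW : r < 2 * W := by
    have := Nat.mod_lt b hWpos
    omega
  have hrb : ∀ p : ℕ, p ∣ W → ∀ m a : ℕ, (p ∣ r + W * m + a ↔ p ∣ b + a) := by
    intro p hp m a
    have h2 : r + W * m ≡ b [MOD W] := by
      have e : r + W * m = b % W + W * (m + 1) := by rw [hr]; ring
      rw [e]
      calc b % W + W * (m + 1) ≡ b % W + 0 [MOD W] :=
            Nat.ModEq.add_left _ (Nat.modEq_zero_iff_dvd.mpr (Dvd.intro _ rfl))
        _ ≡ b [MOD W] := by rw [add_zero]; exact Nat.mod_modEq b W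
    exact ((h2.of_dvd hp).add_right a).dvd_iff (dvd_refl p)
  obtain ⟨N, hN⟩ : ∃ N : ℕ, N = ⌊Real.exp y⌋₊ := ⟨_, rfl⟩
  have hNle : (N : ℝ) ≤ Real.exp y := by rw [hN]; exact Nat.floor_le (Real.exp_pos y).le
  have hNgt : Real.exp y < N + 1 := by rw [hN]; exact Nat.lt_floor_add_one _
  obtain ⟨M, hM⟩ : ∃ M : ℕ, M = N / W - 1 := ⟨_, rfl⟩
  have hn_le : ∀ m < M, r + W * m ≤ N := by
    intro m hm
    have h2 : m + 2 ≤ N / W := by omega
    have h3 : W * (m + 2) ≤ N := (Nat.mul_le_mul_left W h2).trans (Nat.mul_div_le N W)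
    have h4 : W * (m + 2) = W * m + 2 * W := by ring
    omega
  have hfree : ∀ a ∈ A, ∀ m, Free A r W (2 * k) z m → ∀ p : ℕ, p.Prime →
      p ∣ r + W * m + a → z < p := by
    intro a ha m hm p hp hdvd
    by_contra hcon
    push Not at hcon
    rcases le_or_gt p (2 * k) with h | h
    · have h2 := (hrb p ((hWdvd p hp).mpr h) m a).mp hdvd
      exact hb p (mem_filter.mpr ⟨mem_range.mpr (by omega), hp⟩) a ha h2
    · exact hm p (mem_pr.mpr ⟨hp, h, hcon⟩) ⟨a, ha, hdvd⟩
  obtain ⟨X, hX⟩ : ∃ X : ℕ, X = 2 * N := ⟨_, rfl⟩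
  have hsetup : ∀ a ∈ A, Setup A k (2 * k) z r W M a X := fun a ha =>
    { hk := hk
      hAk := hAk.le
      hK := le_rfl
      hz := hz2
      hKz := h2kz
      hQ := fun p hp hd => (hWdvd p hp).mp hd
      hX := fun m hm => by
        have h2 := hn_le m hm
        have h3 : a ≤ N := by rw [hN]; exact Nat.le_floor (hAx a ha)
        omega
      hpos := by omega }
  -- size of the main term
  have hdens := dens_ge (A := A) (k := k) (K := 2 * k) hAk.le le_rfl z
  have hnb : (nblocks z : ℝ) ≤ 3 * (Real.log y + 1) := by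
    unfold nblocks
    have hlog2 : (0.69 : ℝ) < Real.log 2 := by linarith [Real.log_two_gt_d9]
    have h2 : ((Nat.log 2 z : ℕ) : ℝ) ≤ 2 * y := by
      have h3 : (2 : ℝ) ^ (Nat.log 2 z) ≤ z := by exact_mod_cast Nat.pow_log_le_self 2 (by omega)
      have h4 : (Nat.log 2 z : ℝ) * Real.log 2 ≤ Real.log z := by
        rw [← Real.log_pow]; exact Real.log_le_log (by positivity) h3
      have h5 : Real.log z ≤ y := by
        rw [Real.log_le_iff_le_exp hz0]
        refine hzt.trans ?_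
        rw [ht]
        apply Real.exp_le_exp.mpr
        rw [div_le_iff₀ hLk, hL]
        nlinarith
      nlinarith [(Nat.cast_nonneg (Nat.log 2 z) : (0 : ℝ) ≤ (Nat.log 2 z : ℕ))]
    have h3 : Nat.log 2 z ≠ 0 := by
      have := Nat.log_pos (b := 2) (by norm_num) hz2
      omega
    have h4 : (2 : ℝ) ^ (Nat.log 2 (Nat.log 2 z)) ≤ (Nat.log 2 z : ℕ) := by
      exact_mod_cast Nat.pow_log_le_self 2 h3
    have h5 : (Nat.log 2 (Nat.log 2 z) : ℝ) * Real.log 2 ≤ Real.log (2 * y) := by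
      rw [← Real.log_pow]
      exact Real.log_le_log (by positivity) (h4.trans h2)
    rw [Real.log_mul (by norm_num) (by positivity)] at h5
    push_cast
    have h6 : Real.log 2 < 0.7 := by linarith [Real.log_two_lt_d9]
    nlinarith [(Nat.cast_nonneg (Nat.log 2 (Nat.log 2 z)) : (0 : ℝ) ≤ (Nat.log 2 (Nat.log 2 z) : ℕ))]
  obtain ⟨Vd, hVd⟩ : ∃ Vd : ℝ, Vd = dens A (2 * k) z := ⟨_, rfl⟩
  rw [← hVd] at hdens
  have hVd_ge : Real.exp (-(y / 32)) ≤ Vd := by
    refine le_trans ?_ hdens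
    apply Real.exp_le_exp.mpr
    have : 24 * (k : ℝ) * nblocks z ≤ 24 * k * (3 * (Real.log y + 1)) := by gcongr
    nlinarith
  have hVd0 : 0 < Vd := lt_of_lt_of_le (Real.exp_pos _) hVd_ge
  have hMge : Real.exp (30 * y / 32) ≤ M := by
    have h2 : (N : ℝ) / W < (N / W : ℕ) + 1 := by
      rw [div_lt_iff₀ (by exact_mod_cast hWpos)]
      have := Nat.lt_mul_div_succ N hWpos
      have h3 : (N : ℝ) < (W : ℝ) * ((N / W : ℕ) + 1) := by exact_mod_cast this
      linarith
    have h3 : ((N / W : ℕ) : ℝ) - 1 ≤ M := by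
      rw [hM]
      have : N / W ≤ (N / W - 1) + 1 := by omega
      have : ((N / W : ℕ) : ℝ) ≤ ((N / W - 1 : ℕ) : ℝ) + 1 := by exact_mod_cast this
      linarith
    have hW0 : (0 : ℝ) < W := by exact_mod_cast hWpos
    have hW1 : (1 : ℝ) ≤ W := by exact_mod_cast hWpos
    have h4 : Real.exp y / W - 1 ≤ (N : ℝ) / W := by
      rw [sub_le_iff_le_add, div_le_iff₀ hW0, add_mul, div_mul_cancel₀ _ hW0.ne']
      linarith
    have h5 : Real.exp (31 * y / 32) ≤ Real.exp y / W := by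
      rw [le_div_iff₀ hW0]
      calc Real.exp (31 * y / 32) * W ≤ Real.exp (31 * y / 32) * Real.exp (y / 32) := by gcongr
        _ = Real.exp y := by rw [← Real.exp_add]; congr 1; ring
    have h6 : Real.exp (31 * y / 32) = Real.exp (30 * y / 32) * Real.exp (y / 32) := by
      rw [← Real.exp_add]; congr 1; ring
    have h7 : 4 ≤ Real.exp (y / 32) := by
      have := Real.add_one_le_exp (y / 32)
      linarith
    have h8 : 1 ≤ Real.exp (30 * y / 32) := Real.one_le_exp (by linarith)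
    have h9 : Real.exp (30 * y / 32) * 4 ≤ Real.exp (30 * y / 32) * Real.exp (y / 32) :=
      mul_le_mul_of_nonneg_left h7 (Real.exp_pos _).le
    linarith
  have hM0 : (0 : ℝ) < M := lt_of_lt_of_le (Real.exp_pos _) hMge
  have hMV : Real.exp (28 * y / 32) ≤ M * Vd := by
    calc Real.exp (28 * y / 32) ≤ Real.exp (29 * y / 32) := Real.exp_le_exp.mpr (by linarith)
      _ = Real.exp (30 * y / 32) * Real.exp (-(y / 32)) := by
          rw [← Real.exp_add]; congr 1; ring
      _ ≤ M * Vd := mul_le_mul hMge hVd_ge (Real.exp_pos _).le hM0.le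
  have hMle : (M : ℝ) ≤ Real.exp y := by
    have : M ≤ N := by rw [hM]; exact (Nat.sub_le _ _).trans (Nat.div_le_self N W)
    exact le_trans (by exact_mod_cast this) hNle
  have hsqrtX : (Nat.sqrt X : ℝ) ≤ 2 * Real.exp (y / 2) := by
    have h2 : (Nat.sqrt X : ℝ) ≤ √X := Real.nat_sqrt_le_real_sqrt
    refine h2.trans ?_
    rw [Real.sqrt_le_left (by positivity)]
    rw [hX]
    push_cast
    have : (2 * Real.exp (y / 2)) ^ 2 = 4 * Real.exp y := by
      rw [mul_pow, ← Real.exp_nat_mul]; push_cast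
      rw [show (2 : ℝ) * (y / 2) = y by ring]; norm_num
    rw [this]
    have := Real.exp_pos y
    linarith
  -- the parameter `Y`
  obtain ⟨Y, hY⟩ : ∃ Y : ℕ, Y = ⌊Real.exp (y / 4)⌋₊ := ⟨_, rfl⟩
  have hYle : (Y : ℝ) ≤ Real.exp (y / 4) := by rw [hY]; exact Nat.floor_le (Real.exp_pos _).le
  have hYge : Real.exp (y / 4) / 2 ≤ Y := by
    have h2 : Real.exp (y / 4) < Y + 1 := by rw [hY]; exact Nat.lt_floor_add_one _
    have h3 := Real.add_one_le_exp (y / 4)
    linarith
  have hzY : z ≤ Y := by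
    rw [hz, hY]
    apply Nat.floor_le_floor
    rw [ht]
    apply Real.exp_le_exp.mpr
    rw [div_le_iff₀ hLk, hL]
    nlinarith
  -- the parameters `J`, `R`
  obtain ⟨J, hJ⟩ : ∃ J : ℕ, J = Nat.log 2 k + 17 := ⟨_, rfl⟩
  obtain ⟨R, hR⟩ : ∃ R : ℕ, R = 100 * J := ⟨_, rfl⟩
  have hJL : 2 * L * k ≤ 2 ^ J := by
    have h2 : k < 2 ^ (Nat.log 2 k + 1) := Nat.lt_pow_succ_log_self (by norm_num) k
    have h3 : 2 ^ J = 2 ^ (Nat.log 2 k + 1) * 2 ^ 16 := by rw [← pow_add, hJ]
    rw [h3, hLnat]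
    have : (2 : ℕ) ^ 16 = 65536 := by norm_num
    rw [this]
    omega
  obtain ⟨J2, hJ2⟩ : ∃ J2 : ℕ, J2 = 2 ^ J := ⟨_, rfl⟩
  obtain ⟨L2, hL2⟩ : ∃ L2 : ℕ, L2 = 2 * L * k := ⟨_, rfl⟩
  rw [← hJ2, ← hL2] at hJL
  have hXz : Nat.sqrt X < z ^ (2 ^ J) := by
    rw [← hJ2]
    have h2 : (Nat.sqrt X : ℝ) < (z : ℝ) ^ J2 := by
      have h3 : t / 2 ≤ z := by linarith
      have ht2 : 0 < t / 2 := by linarith
      calc (Nat.sqrt X : ℝ) ≤ 2 * Real.exp (y / 2) := hsqrtX
        _ < Real.exp (3 * y / 2) := by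
            have e : Real.exp (3 * y / 2) = Real.exp (y / 2) * Real.exp y := by
              rw [← Real.exp_add]; congr 1; ring
            rw [e]
            have h4 := Real.add_one_le_exp y
            have h5 := Real.exp_pos (y / 2)
            nlinarith
        _ ≤ (t / 2) ^ L2 := by
            rw [← Real.log_le_log_iff (Real.exp_pos _) (pow_pos ht2 _), Real.log_exp,
              Real.log_pow, Real.log_div (by linarith) (by norm_num), ht, Real.log_exp, hL2]
            have e : ((2 * L * k : ℕ) : ℝ) * (y / (L * k) - Real.log 2) =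
                2 * y - 2 * L * k * Real.log 2 := by
              push_cast
              have hL0 : (L : ℝ) ≠ 0 := by rw [hL]; norm_num
              have hk0 : (k : ℝ) ≠ 0 := by positivity
              field_simp
            rw [e, hL]
            have h6 : Real.log 2 < 0.7 := by linarith [Real.log_two_lt_d9]
            nlinarith
        _ ≤ (z : ℝ) ^ L2 := pow_le_pow_left₀ ht2.le h3 _
        _ ≤ (z : ℝ) ^ J2 := pow_le_pow_right₀ (by linarith) hJL
    exact_mod_cast h2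
  have hσ := sum_inv_between hXz
  have hE := E_le_exp hσ (R := R) (by omega) (by omega)
  have hER : Real.exp (-(R : ℝ)) ≤ 1 / (10 * k) := by
    rw [Real.exp_neg, one_div]
    apply inv_anti₀ (by positivity)
    have h2 : (k : ℝ) ≤ 2 ^ (Nat.log 2 k + 1) := by
      exact_mod_cast (Nat.lt_pow_succ_log_self (by norm_num : 1 < 2) k).le
    have h3 : (2 : ℝ) ≤ Real.exp 1 := by linarith [Real.exp_one_gt_d9]
    calc 10 * (k : ℝ) ≤ 2 ^ 4 * 2 ^ (Nat.log 2 k + 1) := by nlinarith
      _ = 2 ^ (Nat.log 2 k + 5) := by rw [← pow_add]; congr 1; ring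
      _ ≤ Real.exp 1 ^ (Nat.log 2 k + 5) := pow_le_pow_left₀ (by norm_num) h3 _
      _ ≤ Real.exp 1 ^ R := pow_le_pow_right₀ (by linarith) (by omega)
      _ = Real.exp R := by rw [← Real.exp_nat_mul, mul_one]
  have h1z : 1 / (z : ℝ) ≤ 1 / (10 * k) := by
    apply one_div_le_one_div_of_le (by positivity)
    linarith
  -- the bad events
  obtain ⟨B1, hB1⟩ : ∃ B1 : ℕ → ℕ → Prop, B1 = fun a m => m < M ∧ Free A r W (2 * k) z m ∧
    ∃ p, p.Prime ∧ z < p ∧ p ^ 2 ∣ r + W * m + a := ⟨_, rfl⟩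
  obtain ⟨B2, hB2⟩ : ∃ B2 : ℕ → ℕ → Prop, B2 = fun a m => m < M ∧ Free A r W (2 * k) z m ∧
    2 * R ≤ (r + W * m + a).primeFactors.card := ⟨_, rfl⟩
  have hbad1 : ∀ a ∈ A, (cnt (B1 a) M : ℝ) ≤
      1.02 * (M * Vd) * (1 / (10 * k)) + 8 * Real.exp (3 * y / 4) := by
    intro a ha
    have h2 := (hsetup a ha).cnt_square Y hzY
    rw [hB1]
    refine h2.trans ?_
    rw [← hVd]
    have h3 : 1.02 * (M * Vd / z) ≤ 1.02 * (M * Vd) * (1 / (10 * k)) := by
      have : 1.02 * (M * Vd / z) = 1.02 * (M * Vd) * (1 / z) := by ring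
      rw [this]; gcongr
    have h4 : (Y : ℝ) * (1.02 + (z : ℝ) ^ (1213 * k)) ≤ 3 * Real.exp (3 * y / 4) := by
      have h5 : 1.02 + (z : ℝ) ^ (1213 * k) ≤ 3 * Real.exp (y / 16) := by
        have := Real.one_le_exp (x := y / 16) (by linarith)
        linarith
      calc (Y : ℝ) * (1.02 + (z : ℝ) ^ (1213 * k)) ≤ Real.exp (y / 4) * (3 * Real.exp (y / 16)) :=
            mul_le_mul hYle h5 (by positivity) (Real.exp_pos _).le
        _ = 3 * Real.exp (5 * y / 16) := by
            rw [mul_left_comm, ← Real.exp_add]; congr 2; ring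
        _ ≤ 3 * Real.exp (3 * y / 4) := by
            apply mul_le_mul_of_nonneg_left _ (by norm_num)
            exact Real.exp_le_exp.mpr (by linarith)
    have h5 : (M : ℝ) / Y ≤ 2 * Real.exp (3 * y / 4) := by
      have hY0 : (0 : ℝ) < Y := by
        have := Real.exp_pos (y / 4)
        linarith
      rw [div_le_iff₀ hY0]
      calc (M : ℝ) ≤ Real.exp y := hMle
        _ = 2 * Real.exp (3 * y / 4) * (Real.exp (y / 4) / 2) := by
            have : Real.exp y = Real.exp (3 * y / 4) * Real.exp (y / 4) := by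
              rw [← Real.exp_add]; congr 1; ring
            rw [this]; ring
        _ ≤ 2 * Real.exp (3 * y / 4) * Y := by gcongr
    have h6 : (Nat.sqrt X : ℝ) ≤ 2 * Real.exp (3 * y / 4) := by
      refine hsqrtX.trans ?_
      apply mul_le_mul_of_nonneg_left _ (by norm_num)
      exact Real.exp_le_exp.mpr (by linarith)
    have h7 := Real.exp_pos (3 * y / 4)
    linarith
  have hbad2 : ∀ a ∈ A, (cnt (B2 a) M : ℝ) ≤
      1.02 * (M * Vd) * (1 / (10 * k)) + 6 * Real.exp (3 * y / 4) := by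
    intro a ha
    have h2 := (hsetup a ha).cnt_many (hfree a ha) R
    rw [hB2]
    refine h2.trans ?_
    rw [← hVd]
    have hMV0 : 0 ≤ 1.02 * ((M : ℝ) * Vd) := by positivity
    have h3 : 1.02 * ((M : ℝ) * Vd) * E (pr z (Nat.sqrt X)) R (fun p => 1 / (p : ℝ)) ≤
        1.02 * (M * Vd) * (1 / (10 * k)) :=
      mul_le_mul_of_nonneg_left (hE.trans hER) hMV0
    have h4 : (Nat.sqrt X : ℝ) * (1.02 + (z : ℝ) ^ (1213 * k)) ≤ 6 * Real.exp (3 * y / 4) := by
      have h5 : 1.02 + (z : ℝ) ^ (1213 * k) ≤ 3 * Real.exp (y / 16) := by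
        have := Real.one_le_exp (x := y / 16) (by linarith)
        linarith
      calc (Nat.sqrt X : ℝ) * (1.02 + (z : ℝ) ^ (1213 * k))
          ≤ (2 * Real.exp (y / 2)) * (3 * Real.exp (y / 16)) :=
            mul_le_mul hsqrtX h5 (by positivity) (by positivity)
        _ = 6 * Real.exp (9 * y / 16) := by
            rw [show (2 * Real.exp (y / 2)) * (3 * Real.exp (y / 16)) =
              6 * (Real.exp (y / 2) * Real.exp (y / 16)) by ring, ← Real.exp_add]
            congr 2; ring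
        _ ≤ 6 * Real.exp (3 * y / 4) := by
            apply mul_le_mul_of_nonneg_left _ (by norm_num)
            exact Real.exp_le_exp.mpr (by linarith)
    linarith
  -- there is a good element
  have hexists : ∃ m < M, Free A r W (2 * k) z m ∧ ∀ a ∈ A, ¬ B1 a m ∧ ¬ B2 a m := by
    by_contra hcon
    push Not at hcon
    have hsieve := (uniform_sieve hk hAk.le le_rfl hz2 r W M
      (by
        intro p hp hdvd
        have h2 := (hWdvd p (mem_pr.mp hp).1).mp hdvd
        have h3 := (mem_pr.mp hp).2.1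
        omega)).1
    have hle : cnt (Free A r W (2 * k) z) M ≤
        cnt (fun m => ∃ a ∈ A, (B1 a m ∨ B2 a m)) M := by
      rw [cnt_eq, cnt_eq]
      apply card_le_card
      intro m hm
      rw [mem_filter, mem_range] at hm ⊢
      refine ⟨hm.1, ?_⟩
      obtain ⟨a, ha, h⟩ := hcon m hm.1 hm.2
      refine ⟨a, ha, ?_⟩
      by_cases hb1 : B1 a m
      · exact Or.inl hb1
      · exact Or.inr (h hb1)
    have hle2 : (cnt (fun m => ∃ a ∈ A, (B1 a m ∨ B2 a m)) M : ℝ) ≤
        ∑ a ∈ A, ((cnt (B1 a) M : ℝ) + cnt (B2 a) M) := by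
      have h2 := cnt_exists_le A (fun a m => B1 a m ∨ B2 a m) M
      have h3 : ∑ a ∈ A, cnt (fun m => B1 a m ∨ B2 a m) M ≤
          ∑ a ∈ A, (cnt (B1 a) M + cnt (B2 a) M) :=
        Finset.sum_le_sum fun a _ => cnt_or_le _ _ M
      exact_mod_cast h2.trans h3
    have hle3 : ∑ a ∈ A, ((cnt (B1 a) M : ℝ) + cnt (B2 a) M) ≤
        k * (2.04 * (M * Vd) * (1 / (10 * k)) + 14 * Real.exp (3 * y / 4)) := by
      calc ∑ a ∈ A, ((cnt (B1 a) M : ℝ) + cnt (B2 a) M)
          ≤ ∑ a ∈ A, (2.04 * (M * Vd) * (1 / (10 * k)) + 14 * Real.exp (3 * y / 4)) := by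
            apply Finset.sum_le_sum
            intro a ha
            have h2 := hbad1 a ha
            have h3 := hbad2 a ha
            have e : 2.04 * ((M : ℝ) * Vd) * (1 / (10 * k)) =
              1.02 * (M * Vd) * (1 / (10 * k)) + 1.02 * (M * Vd) * (1 / (10 * k)) := by ring
            rw [e]
            linarith
        _ = _ := by rw [Finset.sum_const, nsmul_eq_mul, hAk]
    have hle4 : (cnt (Free A r W (2 * k) z) M : ℝ) ≤
        k * (2.04 * (M * Vd) * (1 / (10 * k)) + 14 * Real.exp (3 * y / 4)) :=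
      le_trans (by exact_mod_cast hle) (hle2.trans hle3)
    have e1 : (k : ℝ) * (2.04 * (M * Vd) * (1 / (10 * k)) + 14 * Real.exp (3 * y / 4)) =
        0.204 * (M * Vd) + 14 * k * Real.exp (3 * y / 4) := by
      field_simp; ring
    rw [e1] at hle4
    -- the error is small
    have hsmall : 14 * (k : ℝ) * Real.exp (3 * y / 4) + Real.exp (y / 16) ≤ 0.5 * (M * Vd) := by
      have h2 : Real.exp (28 * y / 32) = Real.exp (3 * y / 4) * Real.exp (y / 8) := by
        rw [← Real.exp_add]; congr 1; ring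
      have h3 : 1 + y / 8 ≤ Real.exp (y / 8) := by
        have := Real.add_one_le_exp (y / 8)
        linarith
      have h4 : Real.exp (y / 16) ≤ Real.exp (3 * y / 4) := Real.exp_le_exp.mpr (by linarith)
      have h5 := Real.exp_pos (3 * y / 4)
      have h6 : 14 * (k : ℝ) + 1 ≤ 0.5 * Real.exp (y / 8) := by linarith
      have h7 : (14 * (k : ℝ) + 1) * Real.exp (3 * y / 4) ≤
          0.5 * Real.exp (y / 8) * Real.exp (3 * y / 4) := by gcongr
      nlinarith
    have hMVpos : 0 < (M : ℝ) * Vd := by positivity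
    rw [← hVd] at hsieve
    linarith
  obtain ⟨m, hmM, hmfree, hmgood⟩ := hexists
  refine ⟨r + W * m, by omega, ?_, ?_⟩
  · exact le_trans (by exact_mod_cast hn_le m hmM) hNle
  · intro a ha
    obtain ⟨hg1, hg2⟩ := hmgood a ha
    refine ⟨?_, ?_, ?_⟩
    · rw [Nat.squarefree_iff_prime_squarefree]
      intro p hp hdvd
      apply hg1
      rw [hB1]
      refine ⟨hmM, hmfree, p, hp, ?_, by rwa [sq]⟩
      exact hfree a ha m hmfree p hp ((Dvd.intro _ rfl).trans hdvd)
    · by_contra hcon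
      push Not at hcon
      apply hg2
      rw [hB2]
      refine ⟨hmM, hmfree, le_trans (le_of_eq ?_) hcon⟩
      rw [hR, hJ]
      ring
    · intro p hp hdvd
      have h2 := hfree a ha m hmfree p hp hdvd
      have h3 : ((z : ℝ) + 1) ≤ p := by exact_mod_cast h2
      rw [← ht]
      linarith

end Pool.Agent.Lib.Helper57
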